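import Mathlib
import Pool.Agent.MP_a2d820_lc.h69.Levels

-- ======== part 0: formerly Pool.Agent.MP_a2d820_lc.h18.Circ
section MrgPart0

/-!
Semantic classes of alternating circuits of bounded depth.
-/

set_option autoImplicit false

namespace Pool.Agent.MP_a2d820_lc.h18

open Finset Function h69

variable {V V' Γ Γ' : Type}

/-- Every input has a certificate of size at most `t`. -/
def Cert (t : ℕ) (C : (V → Γ) → Prop) : Prop :=
  ∀ y, ∃ D : Finset V, D.card ≤ t ∧ ∀ z, (∀ v ∈ D, z v = y v) → (C z ↔ C y)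

/-- Disjunctions of at most `2 ^ t` negations, nested `k` times. -/
def Sig (t : ℕ) : ℕ → ((V → Γ) → Prop) → Prop
  | 0, C => Cert t C
  | k + 1, C => ∃ (ι : Type) (_ : Finite ι) (D : ι → (V → Γ) → Prop), Nat.card ι ≤ 2 ^ t ∧
      (∀ i, Sig t k (D i)) ∧ ∀ z, C z ↔ ∃ i, ¬D i z

/-- Every output coordinate depends on at most one input coordinate. -/
def Loc (φ : (V → Γ) → V' → Γ') : Prop :=
  ∀ v', ∃ o : Option V, ∀ x y, (∀ v ∈ o, x v = y v) → φ x v' = φ y v'

theorem Sig.congr {t k : ℕ} {C C' : (V → Γ) → Prop} (h : Sig t k C) (e : ∀ z, C z ↔ C' z) :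
    Sig t k C' := by
  rw [← show C = C' from funext fun z => propext (e z)]; exact h

theorem Sig.mono {t t' k : ℕ} {C : (V → Γ) → Prop} (h : Sig t k C) (ht : t ≤ t') : Sig t' k C := by
  induction k generalizing C with
  | zero => exact fun y => (h y).imp fun D hD => ⟨hD.1.trans ht, hD.2⟩
  | succ k ih =>
    obtain ⟨ι, _, D, h1, h2, h3⟩ := h
    exact ⟨ι, ‹_›, D, h1.trans (Nat.pow_le_pow_right (by norm_num) ht), fun i => ih (h2 i), h3⟩

theorem Sig.comp {t k : ℕ} {C : (V' → Γ') → Prop} (h : Sig t k C) {φ : (V → Γ) → V' → Γ'}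
    (hφ : Loc φ) : Sig t k fun z => C (φ z) := by
  classical
  induction k generalizing C with
  | zero =>
    choose o ho using hφ
    intro y
    obtain ⟨D, h1, h2⟩ := h (φ y)
    refine ⟨D.biUnion fun v' => (o v').toFinset, ?_, fun z hz => h2 _ fun v' hv' =>
      ho v' _ _ fun v hv => hz v (mem_biUnion.2 ⟨v', hv', Option.mem_toFinset.2 hv⟩)⟩
    refine (card_biUnion_le_card_mul _ _ 1 fun v' _ => ?_).trans (by omega)
    cases o v' <;> simp
  | succ k ih =>
    obtain ⟨ι, _, D, h1, h2, h3⟩ := h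
    exact ⟨ι, ‹_›, fun i z => D i (φ z), h1, fun i => ih (h2 i), fun z => h3 _⟩

theorem Cert.not {t : ℕ} {C : (V → Γ) → Prop} (h : Cert t C) : Cert t fun z => ¬C z :=
  fun y => (h y).imp fun _ hD => ⟨hD.1, fun z hz => not_congr (hD.2 z hz)⟩

theorem Sig.neg {t k : ℕ} {C : (V → Γ) → Prop} (h : Sig t k C) : Sig t (k + 1) fun z => ¬C z :=
  ⟨Unit, inferInstance, fun _ => C, by simpa using Nat.one_le_two_pow, fun _ => h, by simp⟩

theorem Sig.up {t k : ℕ} {C : (V → Γ) → Prop} (h : Sig t k C) : Sig t (k + 1) C := by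
  induction k generalizing C with
  | zero => exact (Sig.neg (k := 0) (Cert.not h)).congr fun z => not_not
  | succ k ih =>
    obtain ⟨ι, _, D, h1, h2, h3⟩ := h
    exact ⟨ι, ‹_›, D, h1, fun i => ih (h2 i), h3⟩

theorem Cert.sig {t : ℕ} {C : (V → Γ) → Prop} (h : Cert t C) (k : ℕ) : Sig t k C := by
  induction k with
  | zero => exact h
  | succ k ih => exact ih.up

theorem Cert.const (t : ℕ) (P : Prop) : Cert t fun _ : V → Γ => P :=
  fun _ => ⟨∅, by simp, fun _ _ => Iff.rfl⟩

theorem Cert.coord (v : V) (P : Γ → Prop) : Cert 1 fun z : V → Γ => P (z v) :=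
  fun _ => ⟨{v}, by simp, fun z hz => by simp [hz v (mem_singleton_self v)]⟩

theorem Cert.bin {a b : ℕ} {C C' : (V → Γ) → Prop} (h : Cert a C) (h' : Cert b C')
    (f : Prop → Prop → Prop) : Cert (a + b) fun z => f (C z) (C' z) := by
  classical
  intro y
  obtain ⟨D, h1, h2⟩ := h y
  obtain ⟨D', h3, h4⟩ := h' y
  refine ⟨D ∪ D', (card_union_le _ _).trans (by omega), fun z hz => ?_⟩
  simp only [propext (h2 z fun v hv => hz v (mem_union_left _ hv)),
    propext (h4 z fun v hv => hz v (mem_union_right _ hv))]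

theorem Sig.bigOr {t a k : ℕ} {ι : Type} [Finite ι] (hι : Nat.card ι ≤ 2 ^ a)
    {C : ι → (V → Γ) → Prop} (h : ∀ i, Sig t (k + 1) (C i)) :
    Sig (t + a) (k + 1) fun z => ∃ i, C i z := by
  choose κ _ D h1 h2 h3 using h
  let _ := Fintype.ofFinite ι
  refine ⟨Σ i, κ i, inferInstance, fun p => D p.1 p.2, ?_,
    fun p => (h2 _ _).mono (by omega), fun z => by simp [h3]⟩
  rw [Nat.card_sigma, pow_add, mul_comm]
  refine (sum_le_card_nsmul _ _ _ fun i _ => h1 i).trans ?_
  rw [card_univ, ← Nat.card_eq_fintype_card]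
  exact Nat.mul_le_mul_right _ hι

theorem Sig.or' {t k : ℕ} {C C' : (V → Γ) → Prop} (h : Sig t (k + 1) C) (h' : Sig t (k + 1) C') :
    Sig (t + 1) (k + 1) fun z => C z ∨ C' z :=
  (Sig.bigOr (ι := Bool) (a := 1) (by simp) (C := fun b => bif b then C else C')
    fun b => by cases b <;> assumption).congr fun z => by simp [or_comm]

theorem Sig.or_and {a b k : ℕ} {C C' : (V → Γ) → Prop} (h : Sig a k C) (h' : Sig b k C') :
    Sig (a + b + 1) k (fun z => C z ∨ C' z) ∧ Sig (a + b + 1) k fun z => C z ∧ C' z := by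
  induction k generalizing C C' with
  | zero =>
    exact ⟨Sig.mono (k := 0) (Cert.bin h h' Or) (by omega),
      Sig.mono (k := 0) (Cert.bin h h' And) (by omega)⟩
  | succ k ih =>
    refine ⟨(h.mono (by omega)).or' (h'.mono (by omega)), ?_⟩
    obtain ⟨ι, _, D, h1, h2, h3⟩ := h
    obtain ⟨ι', _, D', h1', h2', h3'⟩ := h'
    refine ⟨ι × ι', inferInstance, fun p z => D p.1 z ∨ D' p.2 z, ?_,
      fun p => (ih (h2 _) (h2' _)).1, fun z => by simp [h3, h3']⟩
    rw [Nat.card_prod]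
    exact (Nat.mul_le_mul h1 h1').trans
      (by rw [← pow_add]; exact Nat.pow_le_pow_right (by norm_num) (by omega))

theorem Sig.cert {t : ℕ} {C : (V → Γ) → Prop} (h : Sig t 1 C) {y : V → Γ} (hy : C y) :
    ∃ D : Finset V, D.card ≤ t ∧ ∀ z, (∀ v ∈ D, z v = y v) → C z := by
  obtain ⟨ι, _, D, -, h2, h3⟩ := h
  obtain ⟨i, hi⟩ := (h3 y).1 hy
  obtain ⟨E, h4, h5⟩ := h2 i y
  exact ⟨E, h4, fun z hz => (h3 z).2 ⟨i, fun h => hi ((h5 z hz).1 h)⟩⟩

theorem cert_of_dt {Q : Set ((V → Bool) → Bool)} {t d : ℕ} {f : (V → Bool) → Bool}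
    (h : DTq Q d f) (hQ : ∀ g ∈ Q, Cert t fun z => g z = true) :
    Cert (d * t) fun z => f z = true := by
  classical
  induction h with
  | const d b => exact Cert.const _ _
  | @node d g f₀ f₁ hg _ _ ih₀ ih₁ =>
    intro y
    obtain ⟨D, h1, h2⟩ := hQ g hg y
    obtain ⟨D', h3, h4⟩ : ∃ D' : Finset V, D'.card ≤ d * t ∧ ∀ z, (∀ v ∈ D', z v = y v) →
        ((bif g y then f₁ z else f₀ z) = true ↔ (bif g y then f₁ y else f₀ y) = true) := by
      cases g y
      exacts [ih₀ y, ih₁ y]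
    refine ⟨D ∪ D', (card_union_le _ _).trans (by rw [Nat.succ_mul]; omega), fun z hz => ?_⟩
    simp only [Bool.eq_iff_iff.2 (h2 z fun v hv => hz v (mem_union_left _ hv))]
    exact h4 z fun v hv => hz v (mem_union_right _ hv)

theorem sig_of_dt {Q : Set ((V → Bool) → Bool)} {t k d : ℕ} {f : (V → Bool) → Bool}
    (h : DTq Q d f) (hQ : ∀ g ∈ Q, Sig t k fun z => g z = true) :
    Sig (d * (t + 2)) (k + 1) fun z => f z = true := by
  induction h with
  | const d b => exact (Cert.const _ _).sig _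
  | @node d g f₀ f₁ hg _ _ ih₀ ih₁ =>
    refine ((((hQ g hg).up.or_and ih₁).2.or' ((hQ g hg).neg.or_and ih₀).2).mono
      (by rw [Nat.succ_mul]; omega)).congr fun z => ?_
    cases h : g z <;> simp [h]

theorem ev_sig (b : OM × Polynomial ℕ) (l : List (OM × Polynomial ℕ × Polynomial ℕ)) :
    ∃ B : Polynomial ℕ, ∀ (x : List Bool) (m : ℕ), x.length ≤ m →
      Sig (B.eval m) l.length fun O : List Bool → Bool => ev b l O x = true := by
  classical
  induction l with
  | nil =>
    refine ⟨b.2, fun x m hx => ?_⟩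
    have h1 := cert_of_dt (clkF_dt (M := b.1) (s := b.2.eval x.length) (O := fun z => z)
      (Q := {g | Cert 1 fun z => g z = true}) (fun c _ => Cert.coord _ (· = true))
      (b.2.eval x.length) (true :: true :: x)) fun g hg => hg
    exact Sig.mono (k := 0) h1 (by simpa using PolyT.eval_mono b.2 hx)
  | cons a l ih =>
    obtain ⟨M, p, q⟩ := a
    obtain ⟨B, h2⟩ := ih
    obtain ⟨r, hr⟩ := M.exists_qb
    set m₁ : Polynomial ℕ := p.comp (2 * Polynomial.X + 1 + q)
    set m₂ := r.comp m₁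
    refine ⟨m₁ * (B.comp m₂ + 1 + 2) + (q + 1), fun x m hx => ?_⟩
    have hq := PolyT.eval_mono q hx
    have h3 : ∀ y : lists (q.eval x.length), Sig (m₁.eval m * (B.eval (m₂.eval m) + 1 + 2))
        (l.length + 1) fun O : List Bool → Bool =>
          clk M p (join O (ev b l O)) (N487b59b3.delimit x ++ y.1) = true := by
      intro y
      have hy := mem_lists.1 y.2
      have h4 : p.eval (N487b59b3.delimit x ++ y.1).length ≤ m₁.eval m := by
        simp only [m₁, Polynomial.eval_comp]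
        refine PolyT.eval_mono p ?_
        simp
        omega
      refine (sig_of_dt (clkF_dt (O := fun O => join O (ev b l O))
        (Q := {g | Sig (B.eval (m₂.eval m) + 1) l.length fun z => g z = true})
        (fun c hc => ?_) _ _) fun g hg => hg).mono (Nat.mul_le_mul_right _ h4)
      have h5 : (M.qry c).length ≤ m₂.eval m := by simpa [m₂] using hr c _ (hc.trans h4)
      rcases hc' : M.qry c with _ | ⟨_ | _, v⟩
      · exact (Cert.const _ (false = true)).sig _
      · exact ((Cert.coord v (· = true)).sig _).mono (by omega)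
      · rw [hc', List.length_cons] at h5
        exact (h2 v (m₂.eval m) (by omega)).mono (by omega)
    refine ((Sig.bigOr (a := q.eval m + 1) ?_ h3).mono (by simp)).congr fun O => ?_
    · rw [Nat.card_eq_fintype_card, Fintype.card_coe]
      exact (card_lists _).le.trans (Nat.pow_le_pow_right (by norm_num) (by omega))
    · simp [ev, mem_lists]

end Pool.Agent.MP_a2d820_lc.h18

end MrgPart0

-- ======== part 1: formerly Pool.Agent.MP_a2d820_lc.h18.Ex
section MrgPart1

/-!
Averages over finite types.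
-/

set_option autoImplicit false

namespace Pool.Agent.MP_a2d820_lc.h18

open Finset Function

variable {Ω Θ : Type} [Finite Ω] [Finite Θ]

/-- The average of a function on a finite type. -/
noncomputable def Ex {Ω : Type} [Finite Ω] (f : Ω → ℝ) : ℝ := (∑ᶠ ω, f ω) / Nat.card Ω

open Classical in
/-- The indicator of a proposition. -/
noncomputable def ind (P : Prop) : ℝ := if P then 1 else 0

theorem ind_nonneg (P : Prop) : 0 ≤ ind P := by unfold ind; split_ifs <;> norm_num

theorem ind_le_one (P : Prop) : ind P ≤ 1 := by unfold ind; split_ifs <;> norm_num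

theorem ind_of {P : Prop} (h : P) : ind P = 1 := if_pos h

theorem ind_of_not {P : Prop} (h : ¬P) : ind P = 0 := if_neg h

theorem ind_le_of {P : Prop} {x : ℝ} (h0 : 0 ≤ x) (h : P → 1 ≤ x) : ind P ≤ x := by
  by_cases hP : P
  · rw [ind_of hP]; exact h hP
  · rwa [ind_of_not hP]

theorem ind_mono {P Q : Prop} (h : P → Q) : ind P ≤ ind Q :=
  ind_le_of (ind_nonneg _) fun hP => (ind_of (h hP)).ge

theorem ind_le_add {P Q S : Prop} (h : P → Q ∨ S) : ind P ≤ ind Q + ind S :=
  ind_le_of (add_nonneg (ind_nonneg _) (ind_nonneg _)) fun hP => by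
    have := ind_nonneg Q
    have := ind_nonneg S
    rcases h hP with h | h <;> rw [ind_of h] <;> linarith

theorem ind_le_sum {ι : Type} {P : Prop} {s : Finset ι} {Q : ι → Prop} (h : P → ∃ i ∈ s, Q i) :
    ind P ≤ ∑ i ∈ s, ind (Q i) :=
  ind_le_of (sum_nonneg fun _ _ => ind_nonneg _) fun hP => by
    obtain ⟨i, hi, hQ⟩ := h hP
    rw [← ind_of hQ]
    exact single_le_sum (f := fun i => ind (Q i)) (fun _ _ => ind_nonneg _) hi

theorem Ex_eq {Ω : Type} [Fintype Ω] (f : Ω → ℝ) : Ex f = (∑ ω, f ω) / Fintype.card Ω := by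
  rw [Ex, finsum_eq_sum_of_fintype, Nat.card_eq_fintype_card]

theorem Ex_mono {f g : Ω → ℝ} (h : ∀ ω, f ω ≤ g ω) : Ex f ≤ Ex g := by
  let _ := Fintype.ofFinite Ω
  rw [Ex_eq, Ex_eq]
  exact div_le_div_of_nonneg_right (sum_le_sum fun ω _ => h ω) (by positivity)

theorem Ex_add (f g : Ω → ℝ) : (Ex fun ω => f ω + g ω) = Ex f + Ex g := by
  let _ := Fintype.ofFinite Ω
  simp only [Ex_eq, sum_add_distrib, add_div]

theorem Ex_mul (c : ℝ) (f : Ω → ℝ) : (Ex fun ω => c * f ω) = c * Ex f := by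
  let _ := Fintype.ofFinite Ω
  simp only [Ex_eq, ← mul_sum, mul_div_assoc]

theorem Ex_sum {ι : Type} (s : Finset ι) (f : ι → Ω → ℝ) :
    (Ex fun ω => ∑ i ∈ s, f i ω) = ∑ i ∈ s, Ex (f i) := by
  let _ := Fintype.ofFinite Ω
  simp only [Ex_eq, ← sum_div]
  rw [sum_comm]

theorem Ex_const [Nonempty Ω] (c : ℝ) : (Ex fun _ : Ω => c) = c := by
  let _ := Fintype.ofFinite Ω
  have : (Fintype.card Ω : ℝ) ≠ 0 := by exact_mod_cast Fintype.card_ne_zero
  rw [Ex_eq, sum_const, card_univ, nsmul_eq_mul, mul_div_cancel_left₀ _ this]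

theorem Ex_nonneg {f : Ω → ℝ} (h : ∀ ω, 0 ≤ f ω) : 0 ≤ Ex f := by
  let _ := Fintype.ofFinite Ω
  rw [Ex_eq]
  exact div_nonneg (sum_nonneg fun ω _ => h ω) (by positivity)

theorem Ex_le [Nonempty Ω] {f : Ω → ℝ} {c : ℝ} (h : ∀ ω, f ω ≤ c) : Ex f ≤ c :=
  (Ex_mono h).trans_eq (Ex_const c)

theorem Ex_prod (f : Ω × Θ → ℝ) : Ex f = Ex fun ω => Ex fun θ => f (ω, θ) := by
  let _ := Fintype.ofFinite Ω
  let _ := Fintype.ofFinite Θ
  simp only [Ex_eq, Fintype.sum_prod_type, Fintype.card_prod, ← sum_div, div_div]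
  rw [Nat.cast_mul, mul_comm]

theorem Ex_equiv (e : Ω ≃ Θ) (f : Θ → ℝ) : (Ex fun ω => f (e ω)) = Ex f := by
  let _ := Fintype.ofFinite Ω
  let _ := Fintype.ofFinite Θ
  rw [Ex_eq, Ex_eq, Equiv.sum_comp e f, Fintype.card_congr e]

theorem Ex_comm (f : Ω → Θ → ℝ) :
    (Ex fun ω => Ex fun θ => f ω θ) = Ex fun θ => Ex fun ω => f ω θ :=
  (Ex_prod fun p : Ω × Θ => f p.1 p.2).symm.trans
    ((Ex_equiv (Equiv.prodComm Ω Θ) fun p => f p.2 p.1).trans (Ex_prod _))

theorem Ex_update {ι : Type} [Finite ι] [DecidableEq ι] [Nonempty Ω] (i : ι) (f : (ι → Ω) → ℝ) :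
    Ex f = Ex fun ω => Ex fun x => f (update ω i x) := by
  let e : (ι → Ω) × Ω ≃ (ι → Ω) × Ω := Involutive.toPerm (fun p => (update p.1 i p.2, p.1 i))
    fun p => by simp
  have h1 := Ex_equiv e fun p => f p.1
  rw [Ex_prod, Ex_prod] at h1
  simp only [Ex_const] at h1
  exact h1.symm

theorem Ex_coord {ι : Type} [Finite ι] [Nonempty Ω] (i : ι) (f : Ω → ℝ) :
    (Ex fun ω : ι → Ω => f (ω i)) = Ex f := by
  classical
  rw [Ex_update i]
  simp only [update_self, Ex_const]

/-- The function that follows `η` where `β` is true and `ω` elsewhere. -/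
def mix {ι Ω : Type} (β : ι → Bool) (ω η : ι → Ω) : ι → Ω := fun i => bif β i then η i else ω i

theorem Ex_mix {ι : Type} [Finite ι] (β : ι → Bool) (F : (ι → Ω) → (ι → Ω) → ℝ) :
    (Ex fun ω => Ex fun η => F (mix β ω η) (mix β η ω)) = Ex fun ω => Ex fun η => F ω η := by
  let e : (ι → Ω) × (ι → Ω) ≃ (ι → Ω) × (ι → Ω) :=
    Involutive.toPerm (fun p => (mix β p.1 p.2, mix β p.2 p.1)) fun p =>
      Prod.ext (funext fun i => by simp only [mix]; cases β i <;> rfl)
        (funext fun i => by simp only [mix]; cases β i <;> rfl)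
  have h1 := Ex_equiv e fun p => F p.1 p.2
  rwa [Ex_prod, Ex_prod] at h1

theorem Ex_ind {Ω : Type} [Fintype Ω] (p : Ω → Prop) [DecidablePred p] :
    (Ex fun ω => ind (p ω)) = #{ω | p ω} / Fintype.card Ω := by
  rw [Ex_eq, natCast_card_filter]
  simp only [ind]
  congr!

end Pool.Agent.MP_a2d820_lc.h18

end MrgPart1

-- ======== part 2: formerly Pool.Agent.MP_a2d820_lc.h18.Simon
section MrgPart2

/-!
Factorization forests of bounded height.
-/

set_option autoImplicit false

namespace Pool.Agent.MP_a2d820_lc.h18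

variable {α M : Type} [Monoid M]

/-- The value of a word. -/
def hw (h : α → M) (w : List α) : M := (w.map h).prod

@[simp] theorem hw_nil (h : α → M) : hw h [] = 1 := rfl

@[simp] theorem hw_append (h : α → M) (u v : List α) : hw h (u ++ v) = hw h u * hw h v := by
  simp [hw]

@[simp] theorem hw_single (h : α → M) (a : α) : hw h [a] = h a := by simp [hw]

theorem hw_cons (h : α → M) (a : α) (u : List α) : hw h (a :: u) = h a * hw h u := by simp [hw]

theorem hw_flatten (h : α → M) (ws : List (List α)) : hw h ws.flatten = hw (hw h) ws := by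
  induction ws with
  | nil => rfl
  | cons w ws ih => rw [List.flatten_cons, hw_append, ih, hw_cons]

/-- Words with a factorization forest of height at most `d`. -/
inductive FF (h : α → M) : ℕ → List α → Prop
  | nil (d : ℕ) : FF h d []
  | single (d : ℕ) (a : α) : FF h d [a]
  | bin {d : ℕ} {u v : List α} : FF h d u → FF h d v → FF h (d + 1) (u ++ v)
  | idem {d : ℕ} (e : M) (ws : List (List α)) : e * e = e → (∀ w ∈ ws, FF h d w) →
      (∀ w ∈ ws, hw h w = e) → FF h (d + 1) ws.flatten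

variable {h : α → M}

theorem FF.mono {d d' : ℕ} {w : List α} (hd : FF h d w) (hh : d ≤ d') : FF h d' w := by
  induction hh with
  | refl => exact hd
  | step _ ih => simpa using ih.bin (.nil _)

theorem FF.bin' {a b d : ℕ} {u v : List α} (hu : FF h a u) (hv : FF h b v) (ha : a < d)
    (hb : b < d) : FF h d (u ++ v) :=
  ((hu.mono (le_max_left a b)).bin (hv.mono (le_max_right a b))).mono (by omega)

/-- All nonempty prefixes, multiplied on the left by `g`, take values in `Y`. -/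
def Av (h : α → M) (Y : Finset M) : M → List (List α) → Prop
  | _, [] => True
  | g, w :: ws => g * hw h w ∈ Y ∧ Av h Y (g * hw h w) ws

theorem simon_group {S X : Finset M} (hS : ∀ x ∈ S, ∀ y ∈ S, x * y ∈ S) (hX : X ⊆ S)
    (hc : ∀ s ∈ X, ∀ x ∈ S, ∀ y ∈ S, s * x = s * y → x = y) (d : ℕ) (Y : Finset M) :
    ∀ (g : M) (ws : List (List α)), (∀ x ∈ S, ∀ y ∈ S, g * x = g * y → x = y) →
      (∀ w ∈ ws, FF h d w ∧ hw h w ∈ X) → Av h Y g ws → FF h (d + 4 * Y.card) ws.flatten := by
  classical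
  induction Y using Finset.induction_on with
  | empty =>
    rintro g (_ | ⟨w, ws⟩) - - hA
    · exact .nil _
    · simp [Av] at hA
  | insert g Y hg ih =>
    have step : ∀ g₀ s, (∀ x ∈ S, ∀ y ∈ S, g₀ * x = g₀ * y → x = y) → s ∈ X →
        ∀ x ∈ S, ∀ y ∈ S, g₀ * s * x = g₀ * s * y → x = y := fun g₀ s h0 hs x hx y hy e =>
      hc s hs x hx y hy (h0 _ (hS _ (hX hs) _ hx) _ (hS _ (hX hs) _ hy) (by simpa [mul_assoc] using e))
    have key : ∀ (ws : List (List α)) g₀, (∀ x ∈ S, ∀ y ∈ S, g₀ * x = g₀ * y → x = y) →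
        (∀ w ∈ ws, FF h d w ∧ hw h w ∈ X) → Av h (insert g Y) g₀ ws → Av h Y g₀ ws ∨
        ∃ (B : List (List α)) (x : List α) (bs T : List (List α)), ws.flatten = B.flatten ++ x ++ bs.flatten ++ T.flatten ∧
          (∀ w ∈ B, FF h d w ∧ hw h w ∈ X) ∧ Av h Y g₀ B ∧ FF h d x ∧
          g₀ * hw h (B.flatten ++ x) = g ∧ hw h (B.flatten ++ x) ∈ S ∧
          (∀ x ∈ S, ∀ y ∈ S, g * x = g * y → x = y) ∧
          (∀ b ∈ bs, FF h (d + 4 * Y.card + 1) b ∧ hw h b ∈ S ∧ g * hw h b = g) ∧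
          (∀ w ∈ T, FF h d w ∧ hw h w ∈ X) ∧ Av h Y g T := by
      intro ws
      induction ws with
      | nil => exact fun _ _ _ _ => Or.inl trivial
      | cons w ws ihw =>
        intro g₀ h0 hws hA
        obtain ⟨h1, h2⟩ := List.forall_mem_cons.1 hws
        have h3 := step g₀ _ h0 h1.2
        have h4 := ihw _ h3 h2 hA.2
        by_cases hg' : g₀ * hw h w = g
        · rw [hg'] at h3 h4
          right
          rcases h4 with h4 | ⟨B, x, bs, T, e, a1, a2, a3, a4, a5, -, a7, a8, a9⟩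
          · exact ⟨[], w, [], ws, by simp, by simp, trivial, h1.1, by simpa using hg',
              by simpa using hX h1.2, h3, by simp, h2, h4⟩
          · refine ⟨[], w, (B.flatten ++ x) :: bs, T, by simp [e], by simp, trivial, h1.1,
              by simpa using hg', by simpa using hX h1.2, h3,
              List.forall_mem_cons.2 ⟨⟨?_, a5, a4⟩, a7⟩, a8, a9⟩
            exact (ih g B h3 a1 a2).bin' a3 (by omega) (by omega)
        · have h5 : g₀ * hw h w ∈ Y := (Finset.mem_insert.1 hA.1).resolve_left hg'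
          rcases h4 with h4 | ⟨B, x, bs, T, e, a1, a2, a3, a4, a5, a6, a7, a8, a9⟩
          · exact Or.inl ⟨h5, h4⟩
          · refine Or.inr ⟨w :: B, x, bs, T, by simp [e], List.forall_mem_cons.2 ⟨h1, a1⟩,
              ⟨h5, a2⟩, a3, by simpa [mul_assoc] using a4, ?_, a6, a7, a8, a9⟩
            simpa [mul_assoc] using hS _ (hX h1.2) _ a5
    intro g₀ ws h0 hws hA
    rw [Finset.card_insert_of_notMem hg]
    rcases key ws g₀ h0 hws hA with h4 | ⟨B, x, bs, T, e, a1, a2, a3, -, -, a6, a7, a8, a9⟩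
    · exact (ih g₀ ws h0 hws h4).mono (by omega)
    · obtain ⟨f, hf1, hf2⟩ : ∃ f : M, f * f = f ∧ ∀ b ∈ bs, hw h b = f := by
        rcases bs with _ | ⟨b, bs⟩
        · exact ⟨1, by simp, by simp⟩
        · obtain ⟨-, b1, b2⟩ := a7 b (by simp)
          exact ⟨hw h b, a6 _ (hS _ b1 _ b1) _ b1 (by rw [← mul_assoc, b2, b2]),
            fun b' hb' => a6 _ (a7 b' hb').2.1 _ b1 (by rw [b2, (a7 b' hb').2.2])⟩
      rw [e]
      exact (((ih g₀ B h0 a1 a2).bin' (d := d + 4 * Y.card + 1) a3 (by omega) (by omega)).bin'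
        (d := d + 4 * Y.card + 3) (FF.idem f bs hf1 (fun b hb => (a7 b hb).1) hf2) (by omega)
        (by omega)).bin' (ih g T a6 a8 a9) (by omega) (by omega)

theorem av_univ [Fintype M] (ws : List (List α)) (g : M) : Av h Finset.univ g ws := by
  induction ws generalizing g with
  | nil => trivial
  | cons w ws ih => exact ⟨Finset.mem_univ _, ih _⟩

theorem simon_aux [Finite M] (S : Finset M) : (∀ x ∈ S, ∀ y ∈ S, x * y ∈ S) → ∀ X ⊆ S, ∃ D,
    ∀ (d : ℕ) (ws : List (List α)), (∀ w ∈ ws, FF h d w ∧ hw h w ∈ X) → FF h (d + D) ws.flatten := by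
  classical
  induction S using Finset.strongInduction with
  | H S ihS =>
  intro hS X
  induction X using Finset.strongInduction with
  | H X ihX =>
  intro hX
  by_cases hc : ∀ s ∈ X, S.image (s * ·) = S
  · let _ := Fintype.ofFinite M
    refine ⟨4 * (Finset.univ : Finset M).card, fun d ws hws =>
      simon_group hS hX (fun s hs x hx y hy e => ?_) d _ 1 ws (by simp) hws (av_univ _ _)⟩
    exact Finset.card_image_iff.1 (congrArg Finset.card (hc s hs)) hx hy e
  push Not at hc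
  obtain ⟨s, hs, hne⟩ := hc
  have hsS := hX hs
  obtain ⟨D₁, h1⟩ := ihS (S.image (s * ·)) (Finset.ssubset_iff_subset_ne.2 ⟨fun x hx => by
      obtain ⟨y, hy, rfl⟩ := Finset.mem_image.1 hx
      exact hS _ hsS _ hy, hne⟩) (fun x hx y hy => by
      obtain ⟨x', hx', rfl⟩ := Finset.mem_image.1 hx
      obtain ⟨y', hy', rfl⟩ := Finset.mem_image.1 hy
      exact Finset.mem_image.2 ⟨_, hS _ hx' _ (hS _ hsS _ hy'), by simp [mul_assoc]⟩) _ subset_rfl
  obtain ⟨D₂, h2⟩ := ihX (X.erase s) (Finset.erase_ssubset hs) ((Finset.erase_subset _ _).trans hX)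
  have hone : ∀ ws : List (List α), (∀ w ∈ ws, hw h w ∈ S) →
      hw h ws.flatten = 1 ∨ hw h ws.flatten ∈ S := by
    intro ws hws
    induction ws with
    | nil => simp
    | cons w ws ih =>
      obtain ⟨a1, a2⟩ := List.forall_mem_cons.1 hws
      rcases ih a2 with e | e
      · simp [e, a1]
      · simp [hS _ a1 _ e]
  refine ⟨D₂ + D₁ + 4, fun d ws hws => ?_⟩
  obtain ⟨v, bs, e, a1, a2⟩ : ∃ v bs : List (List α), ws.flatten = v.flatten ++ bs.flatten ∧
      (∀ w ∈ v, FF h d w ∧ hw h w ∈ X.erase s) ∧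
      ∀ b ∈ bs, FF h (d + D₂ + 1) b ∧ ∃ x, (x = 1 ∨ x ∈ S) ∧ hw h b = s * x := by
    induction ws with
    | nil => exact ⟨[], [], rfl, by simp, by simp⟩
    | cons w ws ih =>
      obtain ⟨b1, b2⟩ := List.forall_mem_cons.1 hws
      obtain ⟨v, bs, e, a1, a2⟩ := ih b2
      by_cases hw' : hw h w = s
      · refine ⟨[], (w ++ v.flatten) :: bs, by simp [e], by simp, List.forall_mem_cons.2 ⟨⟨?_, _,
          hone v fun w hw => hX (Finset.mem_of_mem_erase (a1 w hw).2), by simp [hw']⟩, a2⟩⟩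
        exact b1.1.bin' (h2 d v a1) (by omega) (by omega)
      · exact ⟨w :: v, bs, by simp [e],
          List.forall_mem_cons.2 ⟨⟨b1.1, Finset.mem_erase.2 ⟨hw', b1.2⟩⟩, a1⟩, a2⟩
  obtain ⟨cs, r, e', c1, c2⟩ : ∃ (cs : List (List α)) (r : List α), bs.flatten = cs.flatten ++ r ∧
      FF h (d + D₂ + 1) r ∧ ∀ c ∈ cs, FF h (d + D₂ + 2) c ∧ hw h c ∈ S.image (s * ·) := by
    clear e
    induction bs using List.twoStepInduction with
    | nil => exact ⟨[], [], rfl, .nil _, by simp⟩
    | singleton b => exact ⟨[], b, by simp, (a2 b (by simp)).1, by simp⟩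
    | cons_cons b b' bs ih _ =>
      obtain ⟨cs, r, e', c1, c2⟩ := ih fun c hc => a2 c (by simp [hc])
      obtain ⟨p1, x, hx, p2⟩ := a2 b (by simp)
      obtain ⟨q1, y, hy, q2⟩ := a2 b' (by simp)
      refine ⟨(b ++ b') :: cs, r, by simp [e'], c1, List.forall_mem_cons.2 ⟨⟨p1.bin q1,
        Finset.mem_image.2 ⟨x * (s * y), ?_, by simp [p2, q2, mul_assoc]⟩⟩, c2⟩⟩
      have : s * y ∈ S := hy.elim (fun e => by simpa [e]) (hS _ hsS _)
      exact hx.elim (fun e => by simpa [e]) fun hx => hS _ hx _ this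
  rw [e, e']
  exact (h2 d v a1).bin' ((h1 _ cs c2).bin' (d := d + D₂ + D₁ + 3) c1 (by omega) (by omega))
    (by omega) (by omega)

theorem simon [Finite M] (h : α → M) : ∃ D, ∀ w, FF h D w := by
  let _ := Fintype.ofFinite M
  obtain ⟨D, hD⟩ := simon_aux (h := h) Finset.univ (by simp) _ subset_rfl
  refine ⟨D, fun w => ?_⟩
  have := hD 0 (w.map fun a => [a]) fun u hu => by
    obtain ⟨a, -, rfl⟩ := List.mem_map.1 hu
    exact ⟨.single _ _, Finset.mem_univ _⟩
  simpa [← List.flatMap_def] using this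

theorem ramsey [Finite M] (h : α → M) : ∃ K, ∀ w : List α, K ≤ w.length →
    ∃ a b c, w = a ++ b ++ c ∧ b ≠ [] ∧ hw h b * hw h b = hw h b := by
  obtain ⟨D, hD⟩ := simon h
  have key : ∀ d w, FF h d w → 2 ^ d < w.length →
      ∃ a b c, w = a ++ b ++ c ∧ b ≠ [] ∧ hw h b * hw h b = hw h b := by
    intro d w hF
    induction hF with
    | nil d => simp
    | single d a => exact fun hl => absurd hl (by simp)
    | @bin d u v _ _ ihu ihv =>
      intro hl
      rw [List.length_append, pow_succ] at hl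
      by_cases hu : 2 ^ d < u.length
      · obtain ⟨a, b, c, e, p⟩ := ihu hu
        exact ⟨a, b, c ++ v, by simp [e], p⟩
      · obtain ⟨a, b, c, e, p⟩ := ihv (by omega)
        exact ⟨u ++ a, b, c, by simp [e], p⟩
    | idem e ws he _ hv _ =>
      intro hl
      obtain ⟨w, hw1, hw2⟩ : ∃ w ∈ ws, w ≠ [] := by
        by_contra hc
        push Not at hc
        simp [List.flatten_eq_nil_iff.2 hc] at hl
      obtain ⟨s, t, rfl⟩ := List.append_of_mem hw1
      exact ⟨s.flatten, w, t.flatten, by simp, hw2, by rw [hv w hw1, he]⟩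
  exact ⟨2 ^ D + 1, fun w hl => key D w (hD w) hl⟩

end Pool.Agent.MP_a2d820_lc.h18

end MrgPart2

-- ======== part 3: formerly Pool.Agent.MP_a2d820_lc.h18.Gen
section MrgPart3

/-!
An abstract completeness theorem: a lax labelling of words by a finite monoid takes values in every
family closed under products and under jumps over idempotent labels.
-/

set_option autoImplicit false

namespace Pool.Agent.MP_a2d820_lc.h18

variable {A O : Type} [Monoid O]

/-- A lax labelling `σ` and a family `G` closed under products. -/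
structure Lax (le : O → O → Prop) (σ : ℕ → List A → O) (G : O → Prop) : Prop where
  refl : ∀ a, le a a
  trans : ∀ {a b c}, le a b → le b c → le a c
  mul : ∀ {a b c d}, le a b → le c d → le (a * c) (b * d)
  anti : ∀ r w, le (σ (r + 1) w) (σ r w)
  app : ∀ r u v, le (σ (r + 1) (u ++ v)) (σ r u * σ r v)
  down : ∀ {a b}, le a b → G b → G a
  gmul : ∀ {a b}, G a → G b → G (a * b)
  nil : G (σ 0 [])
  single : ∀ a, G (σ 0 [a])

/-- All factors have their label of rank `ρ` in `G`. -/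
def Good (σ : ℕ → List A → O) (G : O → Prop) (ρ : ℕ) (w : List A) : Prop :=
  ∀ y, y <:+: w → G (σ ρ y)

/-- Products of labels of good pieces. -/
inductive Lb (le : O → O → Prop) (σ : ℕ → List A → O) (G : O → Prop) (r : ℕ) :
    List A → O → Prop
  | base (ρ : ℕ) (v : List A) : Good σ G ρ v → Lb le σ G r v (σ (ρ + r) v)
  | mul {u v : List A} {a b : O} : Lb le σ G r u a → Lb le σ G r v b → Lb le σ G r (u ++ v) (a * b)
  | down {u : List A} {a b : O} : Lb le σ G r u a → le b a → Lb le σ G r u b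

/-- A block with its label. -/
def Blk (le : O → O → Prop) (σ : ℕ → List A → O) (G : O → Prop) (r ρ : ℕ) (p : List A × O) : Prop :=
  Good σ G ρ p.1 ∧ le (σ ρ p.1) p.2 ∧ Lb le σ G r p.1 p.2

/-- The word of a sequence of blocks. -/
def flat (ws : List (List A × O)) : List A := (ws.map Prod.fst).flatten

omit [Monoid O] in
@[simp] theorem flat_nil : flat ([] : List (List A × O)) = [] := rfl

omit [Monoid O] in
@[simp] theorem flat_cons (p : List A × O) (ws : List (List A × O)) :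
    flat (p :: ws) = p.1 ++ flat ws := rfl

omit [Monoid O] in
@[simp] theorem flat_append (ws ws' : List (List A × O)) :
    flat (ws ++ ws') = flat ws ++ flat ws' := by simp [flat]

/-- All nonempty prefixes, multiplied on the left by `g`, have labels in `Y`. -/
def Avo (Y : Finset O) : O → List (List A × O) → Prop
  | _, [] => True
  | g, p :: ws => g * p.2 ∈ Y ∧ Avo Y (g * p.2) ws

namespace Lax

variable {le : O → O → Prop} {σ : ℕ → List A → O} {G : O → Prop} (H : Lax le σ G)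
include H

theorem anti' {r r' : ℕ} (h : r ≤ r') (w : List A) : le (σ r' w) (σ r w) := by
  induction h with
  | refl => exact H.refl _
  | step _ ih => exact H.trans (H.anti _ _) ih

theorem raise {r r' : ℕ} {w : List A} (h : G (σ r w)) (hr : r ≤ r') : G (σ r' w) :=
  H.down (H.anti' hr w) h

theorem gapp {r : ℕ} {u v : List A} (hu : G (σ r u)) (hv : G (σ r v)) : G (σ (r + 1) (u ++ v)) :=
  H.down (H.app r u v) (H.gmul hu hv)

theorem good_raise {r r' : ℕ} {w : List A} (h : Good σ G r w) (hr : r ≤ r') : Good σ G r' w :=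
  fun y hy => H.raise (h y hy) hr

theorem good_nil (r : ℕ) : Good σ G r [] := fun y hy => by
  rw [List.infix_nil.1 hy]
  exact H.raise H.nil (Nat.zero_le _)

theorem good_app {a b r : ℕ} {u v : List A} (hu : Good σ G a u) (hv : Good σ G b v) (ha : a < r)
    (hb : b < r) : Good σ G r (u ++ v) := by
  intro y hy
  rcases List.infix_append_iff.1 hy with h | h | ⟨s, p, rfl, h1, h2⟩
  · exact H.raise (hu y h) ha.le
  · exact H.raise (hv y h) hb.le
  · exact H.raise (H.gapp (H.raise (hu s h1.isInfix) (le_max_left a b))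
      (H.raise (hv p h2.isInfix) (le_max_right a b))) (by omega)

theorem good_flatten {r : ℕ} (ws : List (List A)) (h1 : ∀ v ∈ ws, Good σ G r v)
    (h2 : ∀ ms : List (List A), (∀ v ∈ ms, v ∈ ws) → G (σ r ms.flatten)) :
    Good σ G (r + 2) ws.flatten := by
  have pre : ∀ vs : List (List A), (∀ v ∈ vs, v ∈ ws) → ∀ y, y <+: vs.flatten →
      ∃ (ms : List (List A)) (p : List A), y = ms.flatten ++ p ∧ (∀ v ∈ ms, v ∈ ws) ∧
        G (σ r p) := by
    intro vs hvs
    induction vs with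
    | nil => exact fun y hy => ⟨[], y, rfl, by simp, H.good_nil r y hy.isInfix⟩
    | cons v vs ih =>
      intro y hy
      obtain ⟨a, b⟩ := List.forall_mem_cons.1 hvs
      rcases List.prefix_or_prefix_of_prefix hy (List.prefix_append v _) with h | ⟨s, rfl⟩
      · exact ⟨[], y, rfl, by simp, h1 v a y h.isInfix⟩
      · obtain ⟨ms, p, rfl, c, d⟩ := ih b s ((List.prefix_append_right_inj v).1 hy)
        exact ⟨v :: ms, p, by simp, List.forall_mem_cons.2 ⟨a, c⟩, d⟩
  have key : ∀ vs : List (List A), (∀ v ∈ vs, v ∈ ws) → Good σ G (r + 2) vs.flatten := by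
    intro vs hvs
    induction vs with
    | nil => exact H.good_nil _
    | cons v vs ih =>
      intro y hy
      obtain ⟨a, b⟩ := List.forall_mem_cons.1 hvs
      rcases List.infix_append_iff.1 hy with h | h | ⟨s, p, rfl, c, d⟩
      · exact H.raise (h1 v a y h) (by omega)
      · exact ih b y h
      · obtain ⟨ms, p, rfl, e, f⟩ := pre vs b p d
        exact H.gapp (H.raise (h1 v a s c.isInfix) (by omega)) (H.gapp (h2 ms e) f)
  exact key ws fun _ h => h

theorem lb_real {r : ℕ} {v : List A} {a : O} (h : Lb le σ G r v a) : G a := by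
  induction h with
  | base ρ v h => exact H.raise (h v List.infix_rfl) (by omega)
  | mul _ _ a b => exact H.gmul a b
  | down _ h a => exact H.down h a

theorem lb_anti {r : ℕ} {v : List A} {a : O} (h : Lb le σ G (r + 1) v a) : Lb le σ G r v a := by
  induction h with
  | base ρ v h => exact (Lb.base ρ v h).down (H.anti _ _)
  | mul _ _ a b => exact a.mul b
  | down _ h a => exact a.down h

theorem lb_cut {r : ℕ} {w : List A} {o : O} (h : Lb le σ G (r + 1) w o) : ∀ u v, w = u ++ v →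
    ∃ a b, Lb le σ G r u a ∧ Lb le σ G r v b ∧ le o (a * b) := by
  induction h with
  | base ρ w h =>
    rintro u v rfl
    exact ⟨_, _, .base ρ u fun y hy => h y (hy.trans (List.prefix_append _ _).isInfix),
      .base ρ v fun y hy => h y (hy.trans (List.suffix_append _ _).isInfix), H.app _ _ _⟩
  | @mul x y a b hx hy ihx ihy =>
    intro u v e
    rcases List.append_eq_append_iff.1 e with ⟨z, rfl, rfl⟩ | ⟨z, rfl, rfl⟩
    · obtain ⟨c, d, h1, h2, h3⟩ := ihy z v rfl
      exact ⟨_, _, (H.lb_anti hx).mul h1, h2, mul_assoc a c d ▸ H.mul (H.refl _) h3⟩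
    · obtain ⟨c, d, h1, h2, h3⟩ := ihx u z rfl
      exact ⟨_, _, h1, h2.mul (H.lb_anti hy), mul_assoc c d b ▸ H.mul h3 (H.refl _)⟩
  | down _ h ih =>
    intro u v e
    obtain ⟨c, d, h1, h2, h3⟩ := ih u v e
    exact ⟨c, d, h1, h2, H.trans h h3⟩

theorem blk_raise {r ρ ρ' : ℕ} {p : List A × O} (h : Blk le σ G r ρ p) (hρ : ρ ≤ ρ') :
    Blk le σ G r ρ' p :=
  ⟨H.good_raise h.1 hρ, H.trans (H.anti' hρ _) h.2.1, h.2.2⟩

theorem blk_mul {r ρ : ℕ} {p q : List A × O} (hp : Blk le σ G r ρ p) (hq : Blk le σ G r ρ q) :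
    Blk le σ G r (ρ + 1) (p.1 ++ q.1, p.2 * q.2) :=
  ⟨H.good_app hp.1 hq.1 (by omega) (by omega), H.trans (H.app _ _ _) (H.mul hp.2.1 hq.2.1),
    hp.2.2.mul hq.2.2⟩

theorem blk_good {r ρ : ℕ} {v : List A} (h : Good σ G ρ v) :
    Blk le σ G r (ρ + r) (v, σ (ρ + r) v) :=
  ⟨H.good_raise h (by omega), H.refl _, .base ρ v h⟩

theorem nice {r ρ : ℕ} {ε : O} (he : ε * ε = ε)
    (hj : ∀ m, Lb le σ G r m ε → G (ε * σ r m * ε)) (ws : List (List A))
    (h : ∀ v ∈ ws, Good σ G ρ v ∧ Lb le σ G r v ε ∧ (∃ Z, G Z ∧ le (σ ρ v) (Z * ε)) ∧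
      ∃ Z, G Z ∧ le (σ ρ v) (ε * Z)) : Good σ G (ρ + r + 4) ws.flatten := by
  have hl : ∀ (ms : List (List A)) (m : List A), (∀ v ∈ m :: ms, v ∈ ws) →
      Lb le σ G r (m :: ms).flatten ε := by
    intro ms
    induction ms with
    | nil => exact fun m hm => by simpa using (h m (hm m (by simp))).2.1
    | cons m' ms ih =>
      intro m hm
      obtain ⟨a, b⟩ := List.forall_mem_cons.1 hm
      exact he ▸ (h m a).2.1.mul (ih m' b)
  refine H.good_flatten ws (fun v hv => H.good_raise (h v hv).1 (by omega)) fun ms hms => ?_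
  rcases ms with _ | ⟨v₁, ms⟩
  · exact H.raise H.nil (by omega)
  obtain ⟨a1, -, ⟨Z₁, a2, a3⟩, -⟩ := h v₁ (hms v₁ (by simp))
  rcases ms.eq_nil_or_concat with rfl | ⟨ms, v₂, rfl⟩
  · simpa using H.raise (a1 v₁ List.infix_rfl) (by omega)
  obtain ⟨b1, -, -, Z₂, b2, b3⟩ := h v₂ (hms v₂ (by simp))
  simp only [List.concat_eq_append, List.flatten_cons, List.flatten_append, List.flatten_nil,
    List.append_nil]
  rcases ms with _ | ⟨m, ms⟩
  · exact H.raise (H.gapp (a1 v₁ List.infix_rfl) (b1 v₂ List.infix_rfl)) (by omega)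
  have h1 := H.gmul a2 (H.gmul (hj _ (hl ms m fun v hv => hms v (by
    simp only [List.concat_eq_append, List.mem_cons, List.mem_append] at hv ⊢
    tauto))) b2)
  refine H.down (H.trans (H.app _ _ _) (H.trans (H.mul (H.trans (H.anti' (r := ρ) (by omega) _) a3)
    (H.trans (H.app _ _ _) (H.mul (H.anti' (r := r) (by omega) _)
      (H.trans (H.anti' (r := ρ) (by omega) _) b3)))) ?_)) h1
  simp only [mul_assoc]
  exact H.refl _

theorem group {r : ℕ} (hj : ∀ m ε, Lb le σ G r m ε → ε * ε = ε → G (ε * σ r m * ε))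
    {I X : Finset O} (hI : ∀ x ∈ I, ∀ y, G y → x * y ∈ I) (hG : ∀ x ∈ I, G x) (hX : X ⊆ I)
    (hinj : ∀ s ∈ X, ∀ x ∈ I, ∀ y ∈ I, s * x = s * y → x = y) (Y : Finset O) :
    ∀ (ρ : ℕ) (g : O) (ws : List (List A × O)), (∀ x ∈ I, ∀ y ∈ I, g * x = g * y → x = y) →
      (∀ p ∈ ws, Blk le σ G r ρ p ∧ p.2 ∈ X) → Avo Y g ws →
      Good σ G (ρ + (r + 8) * Y.card) (flat ws) := by
  classical
  have hII : ∀ x ∈ I, ∀ y ∈ I, x * y ∈ I := fun x hx y hy => hI x hx y (hG y hy)
  induction Y using Finset.induction_on with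
  | empty =>
    rintro ρ g (_ | ⟨w, ws⟩) - - hA
    · exact H.good_nil _
    · simp [Avo] at hA
  | insert g Y hg ih =>
    intro ρ
    set ρ' := ρ + (r + 8) * Y.card with hρ'
    have step : ∀ g₀ s, (∀ x ∈ I, ∀ y ∈ I, g₀ * x = g₀ * y → x = y) → s ∈ X →
        ∀ x ∈ I, ∀ y ∈ I, g₀ * s * x = g₀ * s * y → x = y := fun g₀ s h0 hs x hx y hy e =>
      hinj s hs x hx y hy (h0 _ (hII _ (hX hs) _ hx) _ (hII _ (hX hs) _ hy)
        (by simpa [mul_assoc] using e))
    let P : List (List A × O) → Prop := fun ws => ∀ p ∈ ws, Blk le σ G r ρ p ∧ p.2 ∈ X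
    have key : ∀ (ws : List (List A × O)) g₀, (∀ x ∈ I, ∀ y ∈ I, g₀ * x = g₀ * y → x = y) →
        P ws → Avo (insert g Y) g₀ ws → Avo Y g₀ ws ∨
        ∃ (B : List (List A × O)) (x : List A × O) (bs : List (List (List A × O)))
          (T : List (List A × O)), flat ws = flat (B ++ [x]) ++ (bs.map flat).flatten ++ flat T ∧
          P (B ++ [x]) ∧ Avo Y g₀ B ∧ g₀ * hw Prod.snd (B ++ [x]) = g ∧
          (∀ x ∈ I, ∀ y ∈ I, g * x = g * y → x = y) ∧
          (∀ b ∈ bs, ∃ B x, b = B ++ [x] ∧ P b ∧ Avo Y g B ∧ g * hw Prod.snd b = g) ∧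
          P T ∧ Avo Y g T := by
      intro ws
      induction ws with
      | nil => exact fun _ _ _ _ => Or.inl trivial
      | cons w ws ihw =>
        intro g₀ h0 hws hA
        obtain ⟨h1, h2⟩ := List.forall_mem_cons.1 hws
        have h3 := step g₀ _ h0 h1.2
        have h4 := ihw _ h3 h2 hA.2
        by_cases hg' : g₀ * w.2 = g
        · rw [hg'] at h3 h4
          right
          rcases h4 with h4 | ⟨B, x, bs, T, e, a1, a2, a3, -, a7, a8, a9⟩
          · exact ⟨[], w, [], ws, by simp, List.forall_mem_singleton.2 h1, trivial,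
              by simpa using hg', h3, by simp, h2, h4⟩
          · exact ⟨[], w, (B ++ [x]) :: bs, T, by simp [e], List.forall_mem_singleton.2 h1, trivial,
              by simpa using hg', h3, List.forall_mem_cons.2 ⟨⟨B, x, rfl, a1, a2, a3⟩, a7⟩, a8, a9⟩
        · have h5 : g₀ * w.2 ∈ Y := (Finset.mem_insert.1 hA.1).resolve_left hg'
          rcases h4 with h4 | ⟨B, x, bs, T, e, a1, a2, a3, a6, a7, a8, a9⟩
          · exact Or.inl ⟨h5, h4⟩
          · exact Or.inr ⟨w :: B, x, bs, T, by simp [e], List.forall_mem_cons.2 ⟨h1, a1⟩,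
              ⟨h5, a2⟩, by rw [List.cons_append, hw_cons, ← mul_assoc, a3], a6, a7, a8, a9⟩
    have gd : ∀ g₀ B x, (∀ x ∈ I, ∀ y ∈ I, g₀ * x = g₀ * y → x = y) → P (B ++ [x]) → Avo Y g₀ B →
        Good σ G (ρ' + 1) (flat (B ++ [x])) := fun g₀ B x h0 h1 h2 => by
      rw [flat_append]
      exact H.good_app (ih ρ g₀ B h0 (fun p hp => h1 p (by simp [hp])) h2)
        (by simpa using (h1 x (by simp)).1.1) (by omega) (by omega)
    have lb : ∀ (b : List (List A × O)) (x : List A × O), P (x :: b) →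
        Lb le σ G r (flat (x :: b)) (hw Prod.snd (x :: b)) ∧ hw Prod.snd (x :: b) ∈ I := by
      intro b
      induction b with
      | nil =>
        intro x hx
        obtain ⟨a, b⟩ := hx x (by simp)
        exact ⟨by simpa using a.2.2, by simpa using hX b⟩
      | cons x' b ih =>
        intro x hx
        obtain ⟨a, c⟩ := List.forall_mem_cons.1 hx
        obtain ⟨d, e⟩ := ih x' c
        rw [hw_cons, flat_cons]
        exact ⟨a.1.2.2.mul d, hII _ (hX a.2) _ e⟩
    have can : ∀ (B : List (List A × O)) g₀, (∀ x ∈ I, ∀ y ∈ I, g₀ * x = g₀ * y → x = y) → P B →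
        ∀ x ∈ I, ∀ y ∈ I, g₀ * hw Prod.snd B * x = g₀ * hw Prod.snd B * y → x = y := by
      intro B
      induction B with
      | nil => exact fun g₀ h _ => by simpa using h
      | cons x B ih =>
        intro g₀ h0 hx
        obtain ⟨a, c⟩ := List.forall_mem_cons.1 hx
        rw [hw_cons, ← mul_assoc]
        exact ih _ (step g₀ _ h0 a.2) c
    intro g₀ ws h0 hws hA
    rw [Finset.card_insert_of_notMem hg, Nat.mul_succ, ← add_assoc]
    rcases key ws g₀ h0 hws hA with h4 | ⟨B, x, bs, T, e, a1, a2, -, a6, a7, a8, a9⟩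
    · exact H.good_raise (ih ρ g₀ ws h0 hws h4) (by omega)
    have hb : Good σ G (ρ' + 2 + r + 4) (bs.map flat).flatten := by
      rcases bs with _ | ⟨b₀, bs⟩
      · exact H.good_nil _
      have h1 : ∀ b ∈ b₀ :: bs, ∃ x b', b = x :: b' := fun b hb => by
        obtain ⟨B, x, rfl, -⟩ := a7 b hb
        cases B <;> simp
      have h2 : ∀ b ∈ b₀ :: bs, hw Prod.snd b ∈ I ∧ g * hw Prod.snd b = g := fun b hb => by
        obtain ⟨x, b', rfl⟩ := h1 b hb
        obtain ⟨-, -, -, c, -, d⟩ := a7 _ hb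
        exact ⟨(lb b' x c).2, d⟩
      obtain ⟨c1, c2⟩ := h2 b₀ (by simp)
      have h3 : ∀ y ∈ I, hw Prod.snd b₀ * y = y := fun y hy =>
        a6 _ (hII _ c1 _ hy) _ hy (by rw [← mul_assoc, c2])
      refine H.nice (h3 _ c1) (fun m hm => hj m _ hm (h3 _ c1)) _
        (List.forall_mem_map.2 fun b hb => ?_)
      have h4 : hw Prod.snd b = hw Prod.snd b₀ :=
        a6 _ (h2 b hb).1 _ c1 (by rw [c2, (h2 b hb).2])
      obtain ⟨B, x, e1, d1, d2, d3⟩ := a7 b hb
      obtain ⟨x', b', e2⟩ := h1 b hb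
      have h5 : Good σ G (ρ' + 1) (flat b) := e1 ▸ gd g B x a6 (e1 ▸ d1) d2
      obtain ⟨f1, f2⟩ := d1 x (by simp [e1])
      obtain ⟨f3, f4⟩ := d1 x' (by simp [e2])
      refine ⟨H.good_raise h5 (by omega), h4 ▸ e2 ▸ (lb b' x' (e2 ▸ d1)).1,
        ⟨σ (ρ' + 1) (flat B) * x.2, H.gmul (h5 _ (by simp [e1, List.IsPrefix.isInfix]))
          (hG _ (hX f2)), ?_⟩,
        x'.2 * σ (ρ' + 1) (flat b'), H.gmul (hG _ (hX f4))
          (h5 _ (by simp [e2, List.IsSuffix.isInfix])), ?_⟩
      · have h6 : x.2 * hw Prod.snd b₀ = x.2 := by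
          rw [e1, hw_append, hw_single, ← mul_assoc] at d3
          exact can B g a6 (fun p hp => d1 p (by simp [e1, hp])) _ (hII _ (hX f2) _ c1) _ (hX f2)
            (by rw [← mul_assoc, d3, c2])
        rw [mul_assoc, h6, e1, flat_append]
        exact H.trans (H.app _ _ _) (H.mul (H.refl _)
          (by simpa using H.trans (H.anti' (by omega) _) f1.2.1))
      · rw [h3 _ (hI _ (hX f4) _ (h5 _ (by simp [e2, List.IsSuffix.isInfix]))), e2, flat_cons]
        exact H.trans (H.app _ _ _) (H.mul (H.trans (H.anti' (by omega) _) f3.2.1) (H.refl _))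
    rw [e]
    exact H.good_app (H.good_app (r := ρ' + r + 7) (gd g₀ B x h0 a1 a2) hb (by omega) (by omega))
      (ih ρ g T a6 a8 a9) (by omega) (by omega)

theorem ideal [Finite O] {r : ℕ} (hj : ∀ m ε, Lb le σ G r m ε → ε * ε = ε → G (ε * σ r m * ε))
    (I : Finset O) : (∀ x ∈ I, ∀ y, G y → x * y ∈ I) → (∀ x ∈ I, G x) → ∀ X ⊆ I, ∃ c,
    ∀ (ρ : ℕ) (ws : List (List A × O)), (∀ p ∈ ws, Blk le σ G r ρ p ∧ p.2 ∈ X) →
      Good σ G (ρ + c) (flat ws) := by
  classical
  induction I using Finset.strongInduction with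
  | H I ihI =>
  intro hI hG X
  induction X using Finset.strongInduction with
  | H X ihX =>
  intro hX
  by_cases hc : ∀ s ∈ X, I.image (s * ·) = I
  · let _ := Fintype.ofFinite O
    have hA : ∀ (ws : List (List A × O)) (g : O), Avo Finset.univ g ws := by
      intro ws
      induction ws with
      | nil => exact fun _ => trivial
      | cons w ws ih => exact fun _ => ⟨Finset.mem_univ _, ih _⟩
    exact ⟨_, fun ρ ws hws => H.group hj hI hG hX (fun s hs x hx y hy e =>
      Finset.card_image_iff.1 (congrArg Finset.card (hc s hs)) hx hy e) _ ρ 1 ws (by simp) hws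
      (hA _ _)⟩
  push Not at hc
  obtain ⟨s, hs, hne⟩ := hc
  have hsI := hX hs
  obtain ⟨c₁, h1⟩ := ihI (I.image (s * ·)) (Finset.ssubset_iff_subset_ne.2 ⟨fun x hx => by
      obtain ⟨y, hy, rfl⟩ := Finset.mem_image.1 hx
      exact hI _ hsI _ (hG _ hy), hne⟩) (fun x hx y hy => by
      obtain ⟨x', hx', rfl⟩ := Finset.mem_image.1 hx
      exact Finset.mem_image.2 ⟨_, hI _ hx' _ hy, by simp [mul_assoc]⟩) (fun x hx => by
      obtain ⟨x', hx', rfl⟩ := Finset.mem_image.1 hx
      exact H.gmul (hG _ hsI) (hG _ hx')) _ subset_rfl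
  obtain ⟨c₂, h2⟩ := ihX (X.erase s) (Finset.erase_ssubset hs) ((Finset.erase_subset _ _).trans hX)
  refine ⟨c₂ + r + c₁ + 5, fun ρ ws hws => ?_⟩
  obtain ⟨v, bs, e, a1, a2⟩ : ∃ v bs : List (List A × O), flat ws = flat v ++ flat bs ∧
      (∀ p ∈ v, Blk le σ G r ρ p ∧ p.2 ∈ X.erase s) ∧
      ∀ b ∈ bs, Blk le σ G r (ρ + c₂ + r + 2) b ∧ ∃ x, (x = 1 ∨ x ∈ I) ∧ b.2 = s * x := by
    induction ws with
    | nil => exact ⟨[], [], rfl, by simp, by simp⟩
    | cons w ws ih =>
      obtain ⟨b1, b2⟩ := List.forall_mem_cons.1 hws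
      obtain ⟨v, bs, e, a1, a2⟩ := ih b2
      by_cases hw' : w.2 = s
      · rcases v with _ | ⟨y, v⟩
        · exact ⟨[], w :: bs, by simp [e], by simp, List.forall_mem_cons.2
            ⟨⟨H.blk_raise b1.1 (by omega), 1, Or.inl rfl, by simp [hw']⟩, a2⟩⟩
        · obtain ⟨d1, d2⟩ := List.forall_mem_cons.1 a1
          have d3 := h2 ρ v d2
          refine ⟨[], _ :: bs, ?_, by simp, List.forall_mem_cons.2
            ⟨⟨H.blk_mul (H.blk_raise b1.1 (by omega)) (H.blk_mul (H.blk_raise d1.1 (by omega))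
              (H.blk_good d3)), _, Or.inr (hI _ (hX (Finset.mem_of_mem_erase d1.2)) _
              (H.lb_real (H.blk_good (r := r) d3).2.2)), by simp [hw']⟩, a2⟩⟩
          simp [e]
      · exact ⟨w :: v, bs, by simp [e],
          List.forall_mem_cons.2 ⟨⟨b1.1, Finset.mem_erase.2 ⟨hw', b1.2⟩⟩, a1⟩, a2⟩
  obtain ⟨cs, t, e', c1, c2⟩ : ∃ (cs : List (List A × O)) (t : List A), flat bs = flat cs ++ t ∧
      Good σ G (ρ + c₂ + r + 2) t ∧
      ∀ c ∈ cs, Blk le σ G r (ρ + c₂ + r + 3) c ∧ c.2 ∈ I.image (s * ·) := by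
    clear e
    induction bs using List.twoStepInduction with
    | nil => exact ⟨[], [], rfl, H.good_nil _, by simp⟩
    | singleton b => exact ⟨[], b.1, by simp, (a2 b (by simp)).1.1, by simp⟩
    | cons_cons b b' bs ih _ =>
      obtain ⟨cs, t, e', c1, c2⟩ := ih fun c hc => a2 c (by simp [hc])
      obtain ⟨p1, x, hx, p2⟩ := a2 b (by simp)
      obtain ⟨q1, y, hy, q2⟩ := a2 b' (by simp)
      refine ⟨_ :: cs, t, ?_, c1, List.forall_mem_cons.2 ⟨⟨H.blk_mul p1 q1,
        Finset.mem_image.2 ⟨x * (s * y), ?_, by simp [p2, q2, mul_assoc]⟩⟩, c2⟩⟩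
      · simp [e']
      · have : s * y ∈ I := hy.elim (fun e => by simpa [e]) fun hy => hI _ hsI _ (hG _ hy)
        exact hx.elim (fun e => by simpa [e]) fun hx => hI _ hx _ (hG _ this)
  rw [e, e']
  exact H.good_app (h2 ρ v a1) (H.good_app (r := ρ + c₂ + r + c₁ + 4) (h1 _ cs c2) c1 (by omega)
    (by omega)) (by omega) (by omega)

theorem all [Finite O] {r : ℕ} (hj : ∀ m ε, Lb le σ G r m ε → ε * ε = ε → G (ε * σ r m * ε)) :
    ∃ ρ, ∀ w, G (σ ρ w) := by
  classical
  let _ := Fintype.ofFinite O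
  obtain ⟨c, hc⟩ := H.ideal hj (Finset.univ.filter G) (fun x hx y hy => by
    simpa using H.gmul (by simpa using hx) hy) (fun x hx => by simpa using hx) _ subset_rfl
  refine ⟨0 + r + c, fun w => ?_⟩
  have h1 := hc (0 + r) (w.map fun a => ([a], σ (0 + r) [a])) (List.forall_mem_map.2 fun a _ => by
    have h2 := H.blk_good (r := r) (ρ := 0) (v := [a]) fun y hy => by
      rcases (List.infix_singleton_iff _ _).1 hy with rfl | rfl
      exacts [H.nil, H.single a]
    exact ⟨h2, by simpa using H.lb_real h2.2.2⟩)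
  refine h1 w ?_
  simp [flat, Function.comp_def, ← List.flatMap_def]

end Lax

end Pool.Agent.MP_a2d820_lc.h18

end MrgPart3

-- marker of a merged file
example : 731051 + 866143 = 731051 + 866143 := rfl
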