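import Pool.Agent.MP_a2d820_lc.h18.Defs
import Pool.Agent.MP_a2d820_lc.h18.Gen

-- ======== part 0: formerly Pool.Agent.MP_a2d820_lc.h18.Game
section MrgPart0

/-!
The game preorders of the alternation hierarchy; their upper sets are definable.
-/

set_option autoImplicit false

namespace Pool.Agent.MP_a2d820_lc.h18

variable {A : Type}

/-- The game preorder with `k` alternations and `q` rounds. -/
def R : ℕ → ℕ → List A → List A → Prop
  | 0, _, _, _ => True
  | _ + 1, 0, _, _ => True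
  | k + 1, q + 1, u, v => R k (q + 1) v u ∧ ∀ u₀ a u₁, u = u₀ ++ a :: u₁ →
      ∃ v₀ v₁, v = v₀ ++ a :: v₁ ∧ R (k + 1) q u₀ v₀ ∧ R (k + 1) q u₁ v₁

theorem R_zero (q : ℕ) (u v : List A) : R 0 q u v := by rw [R]; trivial

theorem R_zero' (k : ℕ) (u v : List A) : R k 0 u v := by cases k <;> rw [R] <;> trivial

theorem R_succ {k q : ℕ} {u v : List A} : R (k + 1) (q + 1) u v ↔ R k (q + 1) v u ∧
    ∀ u₀ a u₁, u = u₀ ++ a :: u₁ →
      ∃ v₀ v₁, v = v₀ ++ a :: v₁ ∧ R (k + 1) q u₀ v₀ ∧ R (k + 1) q u₁ v₁ := by rw [R]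

theorem R.refl (k q : ℕ) (u : List A) : R k q u u := by
  induction k generalizing q u with
  | zero => exact R_zero _ _ _
  | succ k ihk =>
    induction q generalizing u with
    | zero => exact R_zero' _ _ _
    | succ q ihq => exact R_succ.2 ⟨ihk _ _, fun u₀ a u₁ h => ⟨u₀, u₁, h, ihq _, ihq _⟩⟩

theorem R.trans {k q : ℕ} {u v w : List A} (h : R k q u v) (h' : R k q v w) : R k q u w := by
  induction k generalizing q u v w with
  | zero => exact R_zero _ _ _
  | succ k ihk =>
    induction q generalizing u v w with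
    | zero => exact R_zero' _ _ _
    | succ q ihq =>
      obtain ⟨h1, h2⟩ := R_succ.1 h
      obtain ⟨h3, h4⟩ := R_succ.1 h'
      refine R_succ.2 ⟨ihk h3 h1, fun u₀ a u₁ e => ?_⟩
      obtain ⟨v₀, v₁, e1, a1, a2⟩ := h2 u₀ a u₁ e
      obtain ⟨w₀, w₁, e2, b1, b2⟩ := h4 v₀ a v₁ e1
      exact ⟨w₀, w₁, e2, ihq a1 b1, ihq a2 b2⟩

theorem R.pred {k q : ℕ} {u v : List A} (h : R k (q + 1) u v) : R k q u v := by
  induction k generalizing q u v with
  | zero => exact R_zero _ _ _
  | succ k ihk =>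
    induction q generalizing u v with
    | zero => exact R_zero' _ _ _
    | succ q ihq =>
      obtain ⟨h1, h2⟩ := R_succ.1 h
      refine R_succ.2 ⟨ihk h1, fun u₀ a u₁ e => ?_⟩
      obtain ⟨v₀, v₁, e1, a1, a2⟩ := h2 u₀ a u₁ e
      exact ⟨v₀, v₁, e1, ihq a1, ihq a2⟩

theorem R.mono {k q q' : ℕ} {u v : List A} (h : R k q' u v) (hq : q ≤ q') : R k q u v := by
  induction hq with
  | refl => exact h
  | step _ ih => exact ih h.pred

theorem R.down {k q : ℕ} {u v : List A} (h : R (k + 1) q u v) : R k q v u := by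
  cases q with
  | zero => exact R_zero' _ _ _
  | succ q => exact (R_succ.1 h).1

theorem R.append {k q : ℕ} {u v u' v' : List A} (h : R k q u v) (h' : R k q u' v') :
    R k q (u ++ u') (v ++ v') := by
  induction k generalizing q u v u' v' with
  | zero => exact R_zero _ _ _
  | succ k ihk =>
    induction q generalizing u v u' v' with
    | zero => exact R_zero' _ _ _
    | succ q ihq =>
      refine R_succ.2 ⟨ihk h.down h'.down, fun u₀ a u₁ e => ?_⟩
      rcases List.append_eq_append_iff.1 e with ⟨x, e1, e2⟩ | ⟨x, e1, e2⟩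
      · obtain ⟨v₀, v₁, e3, a1, a2⟩ := (R_succ.1 h').2 x a u₁ e2
        exact ⟨v ++ v₀, v₁, by simp [e3], e1 ▸ ihq h.pred a1, a2⟩
      · rcases x with _ | ⟨b, x⟩
        · obtain ⟨v₀, v₁, e3, a1, a2⟩ := (R_succ.1 h').2 [] a u₁ (by simpa using e2.symm)
          refine ⟨v ++ v₀, v₁, by simp [e3], ?_, a2⟩
          have := ihq h.pred a1
          simpa [e1] using this
        · obtain ⟨rfl, rfl⟩ := List.cons.inj e2
          obtain ⟨v₀, v₁, e3, a1, a2⟩ := (R_succ.1 h).2 u₀ a x e1
          exact ⟨v₀, v₁ ++ v', by simp [e3], a1, ihq a2 h'.pred⟩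

theorem R.cut {k q : ℕ} {u₁ u₂ v : List A} (h : R (k + 1) (q + 1) (u₁ ++ u₂) v) :
    ∃ v₁ v₂, v = v₁ ++ v₂ ∧ R (k + 1) q u₁ v₁ ∧ R (k + 1) q u₂ v₂ := by
  rcases u₂ with _ | ⟨a, u₂⟩
  · exact ⟨v, [], by simp, by simpa using h.pred, R.refl _ _ _⟩
  · obtain ⟨v₀, v₁, e, a1, a2⟩ := (R_succ.1 h).2 u₁ a u₂ rfl
    exact ⟨v₀, a :: v₁, e, a1, (R.refl _ _ [a]).append a2⟩

theorem R.mem {k q : ℕ} {u v : List A} (h : R (k + 2) (q + 1) u v) {a : A} (ha : a ∈ v) :
    a ∈ u := by
  obtain ⟨v₀, v₁, e⟩ := List.append_of_mem ha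
  obtain ⟨u₀, u₁, e', -⟩ := (R_succ.1 h.down).2 v₀ a v₁ e
  simp [e']

theorem R.nil {k q : ℕ} {v : List A} (h : R (k + 2) (q + 1) [] v) : v = [] :=
  List.eq_nil_iff_forall_not_mem.2 fun _ ha => by simpa using h.mem ha

theorem R.single {k q : ℕ} {a : A} {v : List A} (h : R (k + 2) (q + 2) [a] v) : v = [a] := by
  obtain ⟨v₀, v₁, e, a1, a2⟩ := (R_succ.1 h).2 [] a [] rfl
  rw [e, a1.nil, a2.nil]
  rfl

theorem exists_colour [Finite A] (k q : ℕ) :
    ∃ (T : Type) (_ : Finite T) (c : List A → T), ∀ u v, c u = c v → R k q u v := by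
  induction k generalizing q with
  | zero => exact ⟨Unit, inferInstance, fun _ => (), fun _ _ _ => R_zero _ _ _⟩
  | succ k ihk =>
    induction q with
    | zero => exact ⟨Unit, inferInstance, fun _ => (), fun _ _ _ => R_zero' _ _ _⟩
    | succ q ihq =>
      obtain ⟨T, _, c, hc⟩ := ihk (q + 1)
      obtain ⟨T', _, c', hc'⟩ := ihq
      refine ⟨T × Set (T' × A × T'), inferInstance,
        fun u => (c u, {p | ∃ u₀ u₁, u = u₀ ++ p.2.1 :: u₁ ∧ c' u₀ = p.1 ∧ c' u₁ = p.2.2}),
        fun u v h => ?_⟩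
      obtain ⟨h1, h2⟩ := Prod.ext_iff.1 h
      refine R_succ.2 ⟨hc _ _ h1.symm, fun u₀ a u₁ e => ?_⟩
      obtain ⟨v₀, v₁, e', a1, a2⟩ := (Set.ext_iff.1 h2 (c' u₀, a, c' u₁)).1 ⟨u₀, u₁, e, rfl, rfl⟩
      exact ⟨v₀, v₁, e', hc' _ _ a1.symm, hc' _ _ a2.symm⟩

/-- The left end of an interval. -/
def lend {n m : ℕ} (lo : Option (Fin n)) (ρ : Fin n → Fin m) : ℕ := lo.elim 0 fun x => ρ x + 1

/-- The right end of an interval. -/
def rend {n m : ℕ} (hi : Option (Fin n)) (ρ : Fin n → Fin m) : ℕ := hi.elim m fun x => ρ x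

/-- Definability of the factor between two optional position variables. -/
def IntDef (k : ℕ) (K : Set (List A)) : Prop :=
  ∀ (n : ℕ) (lo hi : Option (Fin n)), ∃ φ : FO A n, φ.IsSigma k ∧
    ∀ w ρ, φ.Sat w ρ ↔ (w.take (rend hi ρ)).drop (lend lo ρ) ∈ K

theorem FO.IsSigma.of_zero {n : ℕ} {φ : FO A n} (h : φ.IsSigma 0) (k : ℕ) : φ.IsSigma k := by
  induction k with
  | zero => exact h
  | succ k ih => exact ih.up

theorem IntDef.univ (k : ℕ) : IntDef k (Set.univ : Set (List A)) := fun _ _ _ =>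
  ⟨.tru, FO.IsSigma.tru.of_zero k, fun _ _ => Iff.rfl⟩

theorem IntDef.empty (k : ℕ) : IntDef k (∅ : Set (List A)) := fun _ _ _ =>
  ⟨.not .tru, FO.IsSigma.tru.not.of_zero k, fun _ _ => by simp [FO.Sat]⟩

theorem IntDef.union {k : ℕ} {K K' : Set (List A)} (h : IntDef k K) (h' : IntDef k K') :
    IntDef k (K ∪ K') := fun n lo hi => by
  obtain ⟨φ, a1, a2⟩ := h n lo hi
  obtain ⟨ψ, b1, b2⟩ := h' n lo hi
  exact ⟨.or φ ψ, a1.or b1, fun w ρ => or_congr (a2 w ρ) (b2 w ρ)⟩

theorem IntDef.inter {k : ℕ} {K K' : Set (List A)} (h : IntDef k K) (h' : IntDef k K') :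
    IntDef k (K ∩ K') := fun n lo hi => by
  obtain ⟨φ, a1, a2⟩ := h n lo hi
  obtain ⟨ψ, b1, b2⟩ := h' n lo hi
  exact ⟨.and φ ψ, a1.and b1, fun w ρ => and_congr (a2 w ρ) (b2 w ρ)⟩

theorem IntDef.compl {k : ℕ} {K : Set (List A)} (h : IntDef k K) : IntDef (k + 1) Kᶜ :=
  fun n lo hi => by
  obtain ⟨φ, a1, a2⟩ := h n lo hi
  exact ⟨.not φ, a1.neg, fun w ρ => not_congr (a2 w ρ)⟩

theorem IntDef.biUnion {k : ℕ} {ι : Type} {s : Set ι} (hs : s.Finite) {K : ι → Set (List A)}
    (h : ∀ i ∈ s, IntDef k (K i)) : IntDef k (⋃ i ∈ s, K i) := by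
  induction s, hs using Set.Finite.induction_on with
  | empty => simpa using IntDef.empty k
  | insert _ _ ih =>
    rw [Set.biUnion_insert]
    exact (h _ (Set.mem_insert _ _)).union (ih fun i hi => h i (Set.mem_insert_of_mem _ hi))

theorem IntDef.biInter {k : ℕ} {ι : Type} {s : Set ι} (hs : s.Finite) {K : ι → Set (List A)}
    (h : ∀ i ∈ s, IntDef k (K i)) : IntDef k (⋂ i ∈ s, K i) := by
  induction s, hs using Set.Finite.induction_on with
  | empty => simpa using IntDef.univ k
  | insert _ _ ih =>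
    rw [Set.biInter_insert]
    exact (h _ (Set.mem_insert _ _)).inter (ih fun i hi => h i (Set.mem_insert_of_mem _ hi))

theorem seg_split (w : List A) {l r : ℕ} (i : Fin w.length) (h1 : l ≤ i) (h2 : i < r) :
    (w.take r).drop l = (w.take i).drop l ++ w.get i :: (w.take r).drop (i + 1) := by
  have h3 : (i : ℕ) < (w.take r).length := by simp [h2]
  have h4 : w.take r = w.take i ++ w.get i :: (w.take r).drop (i + 1) := by
    conv_lhs => rw [← List.take_append_drop i (w.take r), List.drop_eq_getElem_cons h3]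
    simp [List.take_take, min_eq_left h2.le]
  conv_lhs => rw [h4]
  rw [List.drop_append_of_le_length (by simp [h1])]

theorem seg_split' {w v₀ v₁ : List A} {a : A} {l r : ℕ} (h : (w.take r).drop l = v₀ ++ a :: v₁) :
    ∃ i : Fin w.length, l ≤ i ∧ i < r ∧ w.get i = a ∧ (w.take i).drop l = v₀ ∧
      (w.take r).drop (i + 1) = v₁ := by
  have h1 := congrArg List.length h
  simp only [List.length_drop, List.length_take, List.length_append, List.length_cons] at h1
  have h2 := seg_split w (l := l) (r := r) ⟨l + v₀.length, by omega⟩ (by simp) (by simp; omega)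
  rw [h] at h2
  obtain ⟨e1, e2⟩ := List.append_inj h2 (by simp; omega)
  obtain ⟨e3, e4⟩ := List.cons.inj e2
  exact ⟨⟨l + v₀.length, by omega⟩, by simp, by simp; omega, e3.symm, e1.symm, e4.symm⟩

theorem IntDef.marked {k : ℕ} {K K' : Set (List A)} (h : IntDef (k + 1) K)
    (h' : IntDef (k + 1) K') (a : A) :
    IntDef (k + 1) {v | ∃ v₀ v₁, v = v₀ ++ a :: v₁ ∧ v₀ ∈ K ∧ v₁ ∈ K'} := fun n lo hi => by
  obtain ⟨φ, a1, a2⟩ := h (n + 1) (lo.map Fin.succ) (some 0)
  obtain ⟨ψ, b1, b2⟩ := h' (n + 1) (some 0) (hi.map Fin.succ)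
  let α : FO A (n + 1) := lo.elim .tru fun x => .lt x.succ 0
  let β : FO A (n + 1) := hi.elim .tru fun x => .lt 0 x.succ
  have hα : α.IsSigma 0 := by cases lo; exacts [.tru, .lt _ _]
  have hβ : β.IsSigma 0 := by cases hi; exacts [.tru, .lt _ _]
  refine ⟨.ex (.and (.and α (.and β (.letter a 0))) (.and φ ψ)),
    .ex (((hα.and (hβ.and (.letter _ _))).of_zero _).and (a1.and b1)), fun w ρ => ?_⟩
  have e1 : ∀ i, lend (lo.map Fin.succ) (Fin.cons i ρ : Fin (n + 1) → Fin w.length) = lend lo ρ :=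
    fun i => by cases lo <;> simp [lend]
  have e2 : ∀ i, rend (hi.map Fin.succ) (Fin.cons i ρ : Fin (n + 1) → Fin w.length) = rend hi ρ :=
    fun i => by cases hi <;> simp [rend]
  have e3 : ∀ i, α.Sat w (Fin.cons i ρ) ↔ lend lo ρ ≤ i := fun i => by
    cases lo
    · simp [α, FO.Sat, lend]
    · exact Iff.rfl
  have e4 : ∀ i, β.Sat w (Fin.cons i ρ) ↔ i < rend hi ρ := fun i => by
    cases hi
    · simp [β, FO.Sat, rend]
    · exact Iff.rfl
  simp only [FO.Sat, a2, b2, e1, e2, e3, e4, Fin.cons_zero, Set.mem_ofPred_eq]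
  constructor
  · rintro ⟨i, ⟨h1, h2, rfl⟩, h3, h4⟩
    exact ⟨_, _, seg_split w i h1 h2, h3, h4⟩
  · rintro ⟨v₀, v₁, e, h3, h4⟩
    obtain ⟨i, c1, c2, c3, rfl, rfl⟩ := seg_split' e
    exact ⟨i, ⟨c1, c2, c3⟩, h3, h4⟩

theorem intDef_of_upper [Finite A] (k q : ℕ) (K : Set (List A))
    (hK : ∀ u ∈ K, ∀ v, R k q u v → v ∈ K) : IntDef k K := by
  have triv : ∀ k (K : Set (List A)), (∀ u ∈ K, ∀ v, v ∈ K) → IntDef k K := by
    intro k K h
    rcases K.eq_empty_or_nonempty with rfl | ⟨u, hu⟩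
    · exact IntDef.empty k
    · rw [Set.eq_univ_of_forall (h u hu)]
      exact IntDef.univ k
  induction k generalizing q K with
  | zero => exact triv _ _ fun u hu v => hK u hu v (R_zero _ _ _)
  | succ k ihk =>
    induction q generalizing K with
    | zero => exact triv _ _ fun u hu v => hK u hu v (R_zero' _ _ _)
    | succ q ihq =>
      have up : ∀ u : List A, IntDef (k + 1) {v | R (k + 1) (q + 1) u v} := by
        intro u
        have h1 := (ihk (q + 1) {v | ¬R k (q + 1) v u}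
          fun v hv v' h h' => hv (h.trans h')).compl
        have h2 : {p : List A × A × List A | u = p.1 ++ p.2.1 :: p.2.2}.Finite := by
          refine ((List.finite_toSet u.inits).prod
            (Set.finite_univ.prod (List.finite_toSet u.tails))).subset ?_
          rintro ⟨u₀, a, u₁⟩ rfl
          exact ⟨by simp, trivial, (List.mem_tails _ _).2 ⟨u₀ ++ [a], by simp⟩⟩
        have h3 := IntDef.biInter h2 fun p _ =>
          (ihq {v | R (k + 1) q p.1 v} fun _ h _ h' => h.trans h').marked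
            (ihq {v | R (k + 1) q p.2.2 v} fun _ h _ h' => h.trans h') p.2.1
        convert h1.inter h3 using 1
        ext v
        simp only [R_succ, Set.mem_ofPred_eq, Set.mem_inter_iff, Set.mem_compl_iff, not_not,
          Set.mem_iInter, Prod.forall]
      obtain ⟨T, _, c, hc⟩ := exists_colour (A := A) (k + 1) (q + 1)
      have h1 : ∀ t : c '' K, ∃ u ∈ K, c u = t := fun t => t.2
      choose r hr1 hr2 using h1
      convert IntDef.biUnion (Set.finite_univ (α := c '' K)) fun t _ => up (r t) using 1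
      ext v
      simp only [Set.mem_iUnion, Set.mem_ofPred_eq, Set.mem_univ, exists_const]
      exact ⟨fun hv => ⟨⟨c v, v, hv, rfl⟩, hc _ _ (hr2 _)⟩, fun ⟨t, ht⟩ => hK _ (hr1 t) _ ht⟩

theorem sigmaDef_of_upper [Finite A] {k q : ℕ} {L : Language A}
    (hL : ∀ u ∈ L, ∀ v, R k q u v → v ∈ L) : SigmaDef k L := by
  obtain ⟨φ, h1, h2⟩ := intDef_of_upper k q L hL 0 none none
  exact ⟨φ, h1, fun w => by rw [h2]; simp [lend, rend]; rfl⟩

end Pool.Agent.MP_a2d820_lc.h18

end MrgPart0

-- ======== part 1: formerly Pool.Agent.MP_a2d820_lc.h18.Upper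
section MrgPart1

-- ======== part 0: formerly Pool.Agent.MP_a2d820_lc.h18.Tail
section MrgPart0

/-!
Alternating circuits of bounded depth have large sensitivity only on few inputs.
-/

set_option autoImplicit false

namespace Pool.Agent.MP_a2d820_lc.h18

open Finset Function h69

variable {ι : Type} [Fintype ι] [DecidableEq ι]

open Classical in
/-- The coordinates at which `C` is sensitive. -/
noncomputable def sens (C : (ι → Bool) → Prop) (β : ι → Bool) : Finset ι :=
  {i | ¬(C (update β i (!β i)) ↔ C β)}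

/-- The tail bound for the sensitivity. -/
def Tail (k t τ : ℕ) (δ : ℝ) : Prop :=
  ∀ (ι : Type) [Fintype ι] [DecidableEq ι] (C : (ι → Bool) → Prop), Sig t k C →
    (Ex fun β => ind (τ < (sens C β).card)) ≤ δ

theorem tail_zero (t : ℕ) : Tail 0 t t 0 := by
  intro ι _ _ C hC
  refine Ex_le fun β => (ind_of_not (not_lt.2 ?_)).le
  obtain ⟨D, h1, h2⟩ := hC β
  refine (card_le_card fun i hi => ?_).trans h1
  by_contra hD
  simp only [sens, mem_filter, mem_univ, true_and] at hi
  exact hi (h2 _ fun v hv => update_of_ne (fun e : v = i => hD (e ▸ hv)) _ _)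

theorem collapse {Ω : Type} [Fintype Ω] [Nonempty Ω] {nx : Ω → Finset ι} {t s R : ℕ}
    (hind : SubInd nx (s * t) R) (hR0 : 0 < R) (hR : 12 * t ≤ R) (hs : 1 ≤ s) (k : ℕ)
    (C : (ι → Bool) → Prop) (hC : Sig t (k + 1) C) :
    (Ex fun p : Ω × (ι → Bool) => ind (¬Sig (s * t) k fun z => C (res (nx p.1) p.2 z))) ≤
      (2 ^ t) ^ k * (1 / 2) ^ s := by
  classical
  induction k generalizing C with
  | zero =>
    have h1 : ∀ y, ∃ D : Finset ι, D.card ≤ t ∧ (C y → ∀ z, (∀ v ∈ D, z v = y v) → C z) := by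
      intro y
      by_cases hy : C y
      · exact (hC.cert hy).imp fun D hD => ⟨hD.1, fun _ => hD.2⟩
      · exact ⟨∅, by simp, fun h => absurd h hy⟩
    choose D h1 h2 using h1
    let F : List (Term ι) := (univ.filter C).toList.map fun y => (D y, y)
    have hF : ∀ T ∈ F, T.1.card ≤ t := by
      intro T hT
      obtain ⟨y, -, rfl⟩ := List.mem_map.1 hT
      exact h1 y
    have hFC : ∀ z, F.any (sat z) = true ↔ C z := by
      intro z
      simp only [F, List.any_map, List.any_eq_true, mem_toList, mem_filter, mem_univ, true_and,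
        Function.comp, sat, decide_eq_true_eq]
      exact ⟨fun ⟨y, hy, hz⟩ => h2 y hy z hz, fun hz => ⟨z, hz, fun _ _ => rfl⟩⟩
    refine (Ex_mono (g := fun p => ind (Bad F s (nx p.1) p.2)) fun p => ind_mono fun h => ?_).trans ?_
    · by_contra hb
      refine h fun y => ?_
      obtain ⟨E, e1, e2⟩ := DT.cert (dt_of_not_bad hF s _ _ hb) y
      exact ⟨E, e1, fun z hz => by simp only [← hFC, e2 z hz]⟩
    · rw [Ex_ind, div_le_iff₀ (by exact_mod_cast Fintype.card_pos), pow_zero, one_mul]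
      refine (switch_count hind hR0 hF le_rfl).trans (mul_le_mul_of_nonneg_right
        (pow_le_pow_left₀ ?_ (lam_le hR0 hR) _) (by positivity))
      exact sub_nonneg.2 (one_le_pow₀ (le_add_of_nonneg_right (by positivity)))
  | succ k ih =>
    obtain ⟨κ, _, D, h1, h2, h3⟩ := hC
    let _ := Fintype.ofFinite κ
    refine (Ex_mono fun p => ind_le_sum (s := univ)
      (Q := fun i => ¬Sig (s * t) k fun z => D i (res (nx p.1) p.2 z)) fun h => ?_).trans ?_
    · by_contra hc
      push Not at hc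
      exact h ⟨κ, ‹_›, _, h1.trans (Nat.pow_le_pow_right (by norm_num)
        (Nat.le_mul_of_pos_left _ hs)), fun i => hc i (mem_univ _), fun z => h3 _⟩
    · rw [Ex_sum]
      refine (sum_le_card_nsmul _ _ _ fun i _ => ih (D i) (h2 i)).trans ?_
      rw [card_univ, ← Nat.card_eq_fintype_card, nsmul_eq_mul, pow_succ', mul_assoc]
      exact mul_le_mul_of_nonneg_right (by exact_mod_cast h1) (by positivity)

theorem tail_step {k t s R τ : ℕ} {δ : ℝ} (h : Tail k (s * t) τ δ) (hδ : 0 ≤ δ) (hR0 : 0 < R)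
    (hR : 12 * t ≤ R) (hs : 1 ≤ s) :
    Tail (k + 1) t (R * τ) (R * ((2 ^ t) ^ k * (1 / 2) ^ s + δ)) := by
  intro ι _ _ C hC
  have : Nonempty (Fin R) := ⟨⟨0, hR0⟩⟩
  let nx : Fin R → (ι → Fin R) → Finset ι := fun c χ => univ.filter fun v => χ v = c
  have h1 : ∀ (χ : ι → Fin R) (β : ι → Bool), ind (R * τ < (sens C β).card) ≤
      ∑ c, ind (τ < (sens C β ∩ nx c χ).card) := fun χ β => ind_le_sum fun hlt => by
    by_contra hc
    push Not at hc
    have h2 := card_eq_sum_card_fiberwise (f := χ) (s := sens C β) (t := univ) fun _ _ => mem_univ _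
    have h3 := sum_le_card_nsmul univ (fun c => #{x ∈ sens C β | χ x = c}) τ fun c hc' => by
      simpa only [nx, inter_filter, inter_univ] using hc c hc'
    simp only [card_univ, Fintype.card_fin, smul_eq_mul] at h3
    omega
  have h2 : ∀ T : Finset ι, (Ex fun β => ind (τ < (sens C β ∩ T).card)) ≤
      Ex fun β => ind (¬Sig (s * t) k fun z => C (res T β z)) + δ := by
    intro T
    have h3 := Ex_mix (fun i => decide (i ∈ T)) fun (β _ : ι → Bool) =>
      ind (τ < (sens C β ∩ T).card)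
    simp only [Ex_const] at h3
    rw [← h3]
    refine Ex_mono fun β => ?_
    by_cases hS : Sig (s * t) k fun z => C (res T β z)
    · refine le_trans ?_ (le_add_of_nonneg_left (ind_nonneg _))
      refine (Ex_mono fun y => ind_mono fun hlt => hlt.trans_le (card_le_card fun i hi => ?_)).trans
        (h ι _ hS)
      have e : mix (fun i => decide (i ∈ T)) β y = res T β y := funext fun v => by
        by_cases hv : v ∈ T <;> simp [mix, res, hv]
      simp only [e, sens, mem_inter, mem_filter, mem_univ, true_and] at hi ⊢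
      have e' : res T β (update y i (!y i)) = update (res T β y) i (!res T β y i) := by
        funext v
        by_cases hv : v = i
        · subst hv
          simp [res_of_mem hi.2]
        · by_cases hT : v ∈ T <;> simp [res, hv, hT]
      rw [e']
      exact hi.1
    · rw [ind_of hS]
      exact Ex_le fun _ => (ind_le_one _).trans (by linarith)
  rw [← Ex_const (Ω := ι → Fin R) (Ex _)]
  refine (Ex_mono fun χ => (Ex_mono (h1 χ)).trans_eq (Ex_sum _ _)).trans ?_
  rw [Ex_sum]
  refine (sum_le_card_nsmul _ _ ((2 ^ t) ^ k * (1 / 2) ^ s + δ) fun c _ => ?_).trans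
    (by rw [card_univ, Fintype.card_fin, nsmul_eq_mul])
  refine (Ex_mono fun χ => h2 _).trans ?_
  simp only [Ex_add, Ex_const]
  have h4 := subInd_key (V := ι) (J := Fin R) univ id (fun _ => c) (fun _ _ _ _ e _ => e) (s * t)
  rw [Fintype.card_fin] at h4
  have h5 := collapse h4 hR0 hR hs k C hC
  rw [Ex_prod] at h5
  exact add_le_add_left h5 _

theorem exists_tail (k : ℕ) : ∃ p : Polynomial ℕ, ∀ t, Tail k t (p.eval t) (1 / 2 ^ t) := by
  induction k with
  | zero =>
    exact ⟨Polynomial.X, fun t ι _ _ C hC => (by simpa using tail_zero t ι C hC :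
      _ ≤ (0 : ℝ)).trans (by positivity)⟩
  | succ k ih =>
    obtain ⟨p, hp⟩ := ih
    refine ⟨(12 * Polynomial.X + 1) * p.comp ((((k : Polynomial ℕ) + 13) * Polynomial.X + 2) *
      Polynomial.X + 13 * Polynomial.X + 2), fun t ι _ _ C hC => ?_⟩
    have h1 := tail_step (k := k) (t := t) (s := (k + 13) * t + 2) (R := 12 * t + 1)
      (fun ι _ _ C hC => hp (((k + 13) * t + 2) * t + 13 * t + 2) ι C (hC.mono (by omega)))
      (by positivity) (by omega) (by omega) (by omega) ι C hC
    refine le_trans (by simpa using h1) ?_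
    have h2 : ((12 * t + 1 : ℕ) : ℝ) ≤ 2 ^ (12 * t + 1) := by
      exact_mod_cast Nat.lt_two_pow_self.le
    have h3 : ((2 : ℝ) ^ t) ^ k * (1 / 2) ^ ((k + 13) * t + 2) = 1 / 2 ^ (13 * t + 2) := by
      rw [show (k + 13) * t + 2 = t * k + (13 * t + 2) by ring, pow_add, ← pow_mul]
      field_simp
      simp
    have h4 : (1 : ℝ) / 2 ^ (((k + 13) * t + 2) * t + 13 * t + 2) ≤ 1 / 2 ^ (13 * t + 2) :=
      one_div_le_one_div_of_le (by positivity) (pow_le_pow_right₀ (by norm_num) (by omega))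
    have h5 : (2 : ℝ) ^ (12 * t + 1) * (1 / 2 ^ (13 * t + 2) + 1 / 2 ^ (13 * t + 2)) = 1 / 2 ^ t := by
      field_simp
      ring
    rw [← h5]
    have h6 := mul_le_mul h2 (add_le_add h3.le h4) (by positivity) (by positivity)
    simpa using h6

end Pool.Agent.MP_a2d820_lc.h18

end MrgPart0

-- ======== part 1: formerly Pool.Agent.MP_a2d820_lc.h18.Safe
section MrgPart1

/-!
Random modifications of random inputs that rarely destroy acceptance.
-/

set_option autoImplicit false

namespace Pool.Agent.MP_a2d820_lc.h18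

open Finset Function

variable {X X' Ω Ω' Θ Θ' : Type} [Finite Ω] [Finite Ω'] [Finite Θ] [Finite Θ']

/-- Passing from `u` to `v` destroys acceptance with probability at most `ε`, up to an error of
mean at most `δ`. -/
def Safe (𝒞 : (X → Prop) → Prop) (u : Ω → X) (v : Ω → Θ → X) (ε δ : ℝ) : Prop :=
  ∀ C, 𝒞 C → ∃ g : Ω → ℝ, (∀ ω, 0 ≤ g ω) ∧ Ex g ≤ δ ∧
    ∀ ω, (Ex fun θ => ind (C (u ω) ∧ ¬C (v ω θ))) ≤ ε + g ω

variable {𝒞 : (X → Prop) → Prop} {u : Ω → X} {v : Ω → Θ → X} {ε δ ε' δ' : ℝ}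

theorem Safe.refl [Nonempty Ω] [Nonempty Θ] : Safe 𝒞 u (fun ω (_ : Θ) => u ω) 0 0 :=
  fun _ _ => ⟨fun _ => 0, fun _ => le_rfl, (Ex_const _).le,
    fun _ => Ex_le fun _ => by rw [ind_of_not (by simp), add_zero]⟩

theorem Safe.mono (h : Safe 𝒞 u v ε δ) (hε : ε ≤ ε') (hδ : δ ≤ δ') : Safe 𝒞 u v ε' δ' :=
  fun C hC => (h C hC).imp fun _ hg =>
    ⟨hg.1, hg.2.1.trans hδ, fun ω => (hg.2.2 ω).trans (add_le_add_left hε _)⟩

theorem Safe.congr (h : Safe 𝒞 u v ε δ) {u' : Ω → X} (e : ∀ ω, u ω = u' ω) :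
    Safe 𝒞 u' v ε δ := funext e ▸ h

theorem Safe.map (h : Safe 𝒞 u v ε δ) {𝒞' : (X' → Prop) → Prop} (φ : X → X')
    (hφ : ∀ C, 𝒞' C → 𝒞 fun x => C (φ x)) :
    Safe 𝒞' (fun ω => φ (u ω)) (fun ω θ => φ (v ω θ)) ε δ :=
  fun C hC => h _ (hφ C hC)

theorem Safe.mix [Nonempty Ω'] {u : Ω' → Ω → X} {v : Ω' → Ω → Θ → X}
    (h : ∀ π, Safe 𝒞 (u π) (v π) ε δ) :
    Safe 𝒞 (fun p : Ω × Ω' => u p.2 p.1) (fun p => v p.2 p.1) ε δ := by
  intro C hC
  choose g h1 h2 h3 using fun π => h π C hC
  refine ⟨fun p => g p.2 p.1, fun p => h1 _ _, ?_, fun p => h3 _ _⟩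
  rw [Ex_prod, Ex_comm]
  exact Ex_le h2

theorem Safe.reindex (h : Safe 𝒞 u v ε δ) (e : Ω' ≃ Ω) :
    Safe 𝒞 (fun ω => u (e ω)) (fun ω => v (e ω)) ε δ := fun C hC =>
  let ⟨g, h1, h2, h3⟩ := h C hC
  ⟨fun ω => g (e ω), fun _ => h1 _, (Ex_equiv e g).trans_le h2, fun _ => h3 _⟩

theorem Safe.comp [Nonempty Θ] [Nonempty Θ'] (h : Safe 𝒞 u v ε δ) {w : Ω × Θ → Θ' → X}
    (h' : Safe 𝒞 (fun p : Ω × Θ => v p.1 p.2) w ε' δ') :
    Safe 𝒞 u (fun ω (θ : Θ × Θ') => w (ω, θ.1) θ.2) (ε + ε') (δ + δ') := by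
  intro C hC
  obtain ⟨g, a1, a2, a3⟩ := h C hC
  obtain ⟨g', b1, b2, b3⟩ := h' C hC
  refine ⟨fun ω => g ω + Ex fun θ => g' (ω, θ),
    fun ω => add_nonneg (a1 _) (Ex_nonneg fun _ => b1 _), ?_, fun ω => ?_⟩
  · rw [Ex_add, ← Ex_prod]
    exact add_le_add a2 b2
  · rw [Ex_prod]
    refine (Ex_mono (g := fun θ => ind (C (u ω) ∧ ¬C (v ω θ)) + (ε' + g' (ω, θ)))
      fun θ => ?_).trans ?_
    · refine (Ex_mono fun θ' => ind_le_add (Q := C (u ω) ∧ ¬C (v ω θ))
        (S := C (v ω θ) ∧ ¬C (w (ω, θ) θ')) (by tauto)).trans ?_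
      rw [Ex_add, Ex_const]
      exact add_le_add_right (b3 (ω, θ)) _
    · simp only [Ex_add, Ex_const]
      linarith [a3 ω]

theorem Safe.weak [Nonempty Ω] (h : Safe 𝒞 u v ε δ) {C : X → Prop} (hC : 𝒞 C) :
    (Ex fun p : Ω × Θ => ind (C (u p.1) ∧ ¬C (v p.1 p.2))) ≤ ε + δ := by
  obtain ⟨g, -, a2, a3⟩ := h C hC
  rw [Ex_prod]
  refine (Ex_mono a3).trans ?_
  rw [Ex_add, Ex_const]
  exact add_le_add_right a2 _

theorem Safe.up [Nonempty Θ] {V Γ : Type} {u : Ω → V → Γ} {v : Ω → Θ → V → Γ} {t k : ℕ}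
    (h : Safe (fun E => Sig t k fun z => ¬E z) u v ε δ) (hε : 0 ≤ ε) (hδ : 0 ≤ δ) :
    Safe (Sig t (k + 1)) u v ε (2 ^ t * δ) := by
  rintro C ⟨ι, _, D, h1, h2, h3⟩
  let _ := Fintype.ofFinite ι
  choose g a1 a2 a3 using fun i => h (fun z => ¬D i z) ((h2 i).congr fun z => not_not.symm)
  have h4 : ∀ ω, 0 ≤ ∑ i, g i ω := fun ω => sum_nonneg fun i _ => a1 i ω
  refine ⟨fun ω => ∑ i, g i ω, h4, ?_, fun ω => ?_⟩
  · rw [Ex_sum]
    refine (sum_le_card_nsmul _ _ _ fun i _ => a2 i).trans ?_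
    rw [card_univ, ← Nat.card_eq_fintype_card, nsmul_eq_mul]
    exact mul_le_mul_of_nonneg_right (by exact_mod_cast h1) hδ
  · by_cases hC : C (u ω)
    · obtain ⟨i, hi⟩ := (h3 _).1 hC
      refine (Ex_mono fun θ => ind_mono fun h => ⟨hi, fun h' => h.2 ((h3 _).2 ⟨i, h'⟩)⟩).trans
        ((a3 i ω).trans (add_le_add_right ?_ _))
      exact single_le_sum (f := fun i => g i ω) (fun i _ => a1 i ω) (mem_univ i)
    · exact Ex_le fun θ => (ind_of_not fun h => hC h.1).trans_le (add_nonneg hε (h4 ω))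

theorem Safe.pi [Nonempty Ω] [Nonempty Θ] {ι : Type} [Fintype ι] [DecidableEq ι]
    {u : ι → Ω → X} {v : ι → Ω → Θ → X} (h : ∀ i, Safe 𝒞 (u i) (v i) ε δ)
    {𝒞' : ((ι → X) → Prop) → Prop} (hc : ∀ C, 𝒞' C → ∀ i y, 𝒞 fun x => C (update y i x)) :
    Safe 𝒞' (fun (ω : ι → Ω) i => u i (ω i)) (fun ω (θ : ι → Θ) i => v i (ω i) (θ i))
      (Fintype.card ι * ε) (Fintype.card ι * δ) := by
  intro C hC
  choose g a1 a2 a3 using fun i y => h i _ (hc C hC i y)
  let H : Finset ι → (ι → Ω) → (ι → Θ) → ι → X := fun T ω θ i =>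
    if i ∈ T then v i (ω i) (θ i) else u i (ω i)
  have key : ∀ T : Finset ι, ∃ G : (ι → Ω) → ℝ, (∀ ω, 0 ≤ G ω) ∧ Ex G ≤ T.card * δ ∧
      ∀ ω, (Ex fun θ => ind (C (fun i => u i (ω i)) ∧ ¬C (H T ω θ))) ≤ T.card * ε + G ω := by
    intro T
    induction T using Finset.induction_on with
    | empty =>
      exact ⟨fun _ => 0, fun _ => le_rfl, by simp [Ex_const],
        fun _ => Ex_le fun _ => by rw [ind_of_not (by simp [H])]; simp⟩
    | insert i T hi ih =>
      obtain ⟨G, b1, b2, b3⟩ := ih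
      rw [card_insert_of_notMem hi]
      let K : (ι → Ω) → (ι → Θ) → ι → X := fun ω θ => update (H T ω θ) i (u i (Classical.arbitrary _))
      refine ⟨fun ω => G ω + Ex fun θ => g i (K ω θ) (ω i),
        fun ω => add_nonneg (b1 _) (Ex_nonneg fun _ => a1 _ _ _), ?_, fun ω => ?_⟩
      · have h1 : (Ex fun ω : ι → Ω => Ex fun θ => g i (K ω θ) (ω i)) ≤ δ := by
          rw [Ex_update i]
          refine Ex_le fun ω => ?_
          have h2 : ∀ x θ, K (update ω i x) θ = K ω θ := fun x θ => funext fun j => by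
            by_cases hj : j = i
            · simp [K, hj]
            · simp [K, H, hj]
          simp only [h2, update_self]
          rw [Ex_comm]
          exact Ex_le fun θ => a2 _ _
        rw [Ex_add]
        push_cast
        linarith
      · have h1 : (Ex fun θ => ind (C (H T ω θ) ∧ ¬C (H (insert i T) ω θ))) ≤
            ε + Ex fun θ => g i (K ω θ) (ω i) := by
          rw [Ex_update i, ← Ex_const (Ω := ι → Θ) ε, ← Ex_add]
          refine Ex_mono fun θ => le_trans (le_of_eq ?_) (a3 i (K ω θ) (ω i))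
          congr 1
          funext x
          congr 4 <;> funext j <;> by_cases hj : j = i <;> simp [K, H, hj, hi]
        refine (Ex_mono fun θ => ind_le_add (Q := C (fun i => u i (ω i)) ∧ ¬C (H T ω θ))
          (S := C (H T ω θ) ∧ ¬C (H (insert i T) ω θ)) (by tauto)).trans ?_
        rw [Ex_add]
        push_cast
        linarith [b3 ω]
  simpa [H] using key univ

theorem Safe.flip [Nonempty Ω] {ι J : Type} [Fintype ι] [DecidableEq ι] [Fintype J] [Nonempty J]
    {e : J → ι} (he : Injective e) {a b : Ω → X} {𝒟 : ((ι → X) → Prop) → Prop} {τ : ℕ}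
    (hw : ∀ D, 𝒟 D → ∀ i y,
      (Ex fun ω => ind (¬D (update y i (a ω)) ∧ ¬¬D (update y i (b ω)))) ≤ ε)
    (ht : ∀ D, 𝒟 D → ∀ x y, (Ex fun β => ind (τ < (sens (fun β => ¬D (h18.mix β x y)) β).card)) ≤ δ) :
    Safe 𝒟 (fun (ω : ι → Ω) i => b (ω i))
      (fun ω (θ : J × Ω) => update (fun i => b (ω i)) (e θ.1) (a θ.2))
      (τ / Fintype.card J + ε) δ := by
  classical
  intro D hD
  let S : (ι → Ω) → (ι → Ω) → Finset ι := fun ω η =>
    {i | D (fun i => b (ω i)) ∧ ¬D (update (fun i => b (ω i)) i (b (η i)))}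
  have hJ : (0 : ℝ) < Fintype.card J := by exact_mod_cast Fintype.card_pos
  refine ⟨fun ω => Ex fun η => ind (τ < (S ω η).card), fun ω => Ex_nonneg fun _ => ind_nonneg _,
    ?_, fun ω => ?_⟩
  · rw [← Ex_const (Ω := ι → Bool) (Ex _)]
    refine (Ex_mono fun β => (Ex_mix β fun ω η => ind (τ < (S ω η).card)).ge).trans ?_
    rw [Ex_comm]
    refine Ex_le fun ω => ?_
    rw [Ex_comm]
    refine Ex_le fun η => (Ex_mono fun β => ind_mono fun h => h.trans_le
      (card_le_card fun i hi => ?_)).trans (ht D hD (fun i => b (ω i)) fun i => b (η i))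
    have e1 : ∀ β, (h18.mix β (fun i => b (ω i)) fun i => b (η i)) =
        fun i => b (h18.mix β ω η i) := fun β => funext fun j => by
      simp only [h18.mix]
      cases β j <;> rfl
    have e2 : (fun j => b (h18.mix (update β i (!β i)) ω η j)) =
        update (fun j => b (h18.mix β ω η j)) i (b (h18.mix β η ω i)) := funext fun j => by
      by_cases hj : j = i
      · subst hj
        simp only [h18.mix, update_self]
        cases β j <;> rfl
      · simp [h18.mix, hj]
    simp only [S, sens, mem_filter, mem_univ, true_and, e1, e2] at hi ⊢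
    tauto
  · rw [Ex_prod]
    have h1 : (Ex fun j => Ex fun x => ind (D (fun i => b (ω i)) ∧
        ¬D (update (fun i => b (ω i)) (e j) (b x)))) ≤
        τ / Fintype.card J + Ex fun η => ind (τ < (S ω η).card) := by
      have h2 := fun j => Ex_coord (e j) fun x => ind (D (fun i => b (ω i)) ∧
        ¬D (update (fun i => b (ω i)) (e j) (b x)))
      simp only [← h2]
      rw [Ex_comm, ← Ex_const (Ω := ι → Ω) (τ / Fintype.card J : ℝ), ← Ex_add]
      refine Ex_mono fun η => ?_
      by_cases hS : τ < (S ω η).card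
      · rw [ind_of hS]
        exact Ex_le fun _ => (ind_le_one _).trans (le_add_of_nonneg_left (by positivity))
      · rw [ind_of_not hS, add_zero, Ex_ind]
        refine div_le_div_of_nonneg_right (Nat.cast_le.2 (le_trans ?_ (not_lt.1 hS))) hJ.le
        exact card_le_card_of_injOn e (fun j hj => by simpa [S] using hj) he.injOn
    refine (Ex_mono fun j => (Ex_mono fun x => ind_le_add
      (Q := D (fun i => b (ω i)) ∧ ¬D (update (fun i => b (ω i)) (e j) (b x)))
      (S := ¬D (update (fun i => b (ω i)) (e j) (a x)) ∧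
        ¬¬D (update (fun i => b (ω i)) (e j) (b x))) (by tauto)).trans
      ((Ex_add _ _).trans_le (add_le_add_right (hw D hD _ _) _))).trans ?_
    rw [Ex_add, Ex_const]
    linarith

theorem loc_update {ι V Γ : Type} [DecidableEq ι] (y : ι → V → Γ) (i : ι) :
    Loc fun x : V → Γ => uncurry (update y i x) := by
  rintro ⟨j, v⟩
  by_cases hj : j = i
  · exact ⟨some v, fun x x' h => by simpa [hj] using h⟩
  · exact ⟨none, fun x x' _ => by simp [hj]⟩

theorem flip_sig [Nonempty Ω] {ι J V Γ : Type} [Fintype ι] [DecidableEq ι] [Fintype J] [Nonempty J]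
    {e : J → ι} (he : Injective e) {a b : Ω → V → Γ} {t k τ : ℕ} (ht : Tail k t τ δ)
    (hε : 0 ≤ ε) (hδ : 0 ≤ δ) (hw : ∀ C, Sig t k C → (Ex fun ω => ind (C (a ω) ∧ ¬C (b ω))) ≤ ε) :
    Safe (fun C => Sig t (k + 1) fun z : ι × V → Γ => C (curry z)) (fun (ω : ι → Ω) i => b (ω i))
      (fun ω (θ : J × Ω) => update (fun i => b (ω i)) (e θ.1) (a θ.2))
      (τ / Fintype.card J + ε) (2 ^ t * δ) := by
  have h1 := Safe.flip (𝒟 := fun D => Sig t k fun z : ι × V → Γ => ¬D (curry z)) he
    (a := a) (b := b) (fun D hD i y => hw _ (hD.comp (loc_update y i)))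
    fun D hD x y => ht ι _ (hD.comp (φ := fun β => uncurry (h18.mix β x y))
      fun p => ⟨some p.1, fun β β' h => by simp [h18.mix, uncurry, h p.1 rfl]⟩)
  exact ((h1.map (𝒞' := fun E => Sig t k fun z => ¬E z) uncurry fun C hC => hC).up
    (by positivity) hδ).map curry fun C hC => hC

end Pool.Agent.MP_a2d820_lc.h18

end MrgPart1

-- ======== part 2: formerly Pool.Agent.MP_a2d820_lc.h18.Alg
section MrgPart2

/-!
The transfer theorem and the generation of the pointed sets of the second level.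
-/

set_option autoImplicit false

namespace Pool.Agent.MP_a2d820_lc.h18

open Pointwise

variable {A M : Type} [Monoid M] {h : A → M}

/-- The syntactic preorder on words. -/
def SynLE (L : Language A) (u v : List A) : Prop := ∀ x y, x ++ u ++ y ∈ L → x ++ v ++ y ∈ L

theorem SynLE.refl (L : Language A) (u : List A) : SynLE L u u := fun _ _ h => h

theorem SynLE.trans {L : Language A} {u v w : List A} (a : SynLE L u v) (b : SynLE L v w) :
    SynLE L u w := fun x y h => b x y (a x y h)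

theorem SynLE.append {L : Language A} {u v u' v' : List A} (a : SynLE L u v) (b : SynLE L u' v') :
    SynLE L (u ++ u') (v ++ v') := fun x y h => by
  have h1 := a x (u' ++ y) (by simpa using h)
  have h2 := b (x ++ v) y (by simpa using h1)
  simpa using h2

theorem hw_flatten_idem {e : M} (he : e * e = e) (ws : List (List A)) (hws : ∀ w ∈ ws, hw h w = e) :
    e * hw h ws.flatten = e := by
  induction ws with
  | nil => simp
  | cons w ws ih =>
    obtain ⟨a, b⟩ := List.forall_mem_cons.1 hws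
    rw [List.flatten_cons, hw_append, a, ← mul_assoc, he, ih b]

theorem transfer [Finite A] [Finite M] {L : Language A}
    (hL : ∀ u v, hw h u = hw h v → u ∈ L → v ∈ L) {k q₀ : ℕ}
    (hno : ∀ u v, R (k + 1) q₀ u v → hw h v * hw h v = hw h v → SynLE L v (v ++ u ++ v)) :
    SigmaDef (k + 2) L := by
  have heq : ∀ u v, hw h u = hw h v → SynLE L u v := fun u v e x y => hL _ _ (by simp [e])
  have key : ∀ d w, FF h d w → ∀ w', R (k + 2) (q₀ + 2 + 2 * d) w w' → SynLE L w w' := by
    intro d w hF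
    induction hF with
    | nil d => exact fun w' hR => (hR.mono (q := 1) (by omega)).nil ▸ SynLE.refl _ _
    | single d a => exact fun w' hR => (hR.mono (q := 2) (by omega)).single ▸ SynLE.refl _ _
    | @bin d u v _ _ ihu ihv =>
      intro w' hR
      obtain ⟨u', v', rfl, a1, a2⟩ := (hR.mono (q := q₀ + 2 + 2 * d + 1) (by omega)).cut
      exact (ihu _ a1).append (ihv _ a2)
    | @idem d e ws he _ hv ih =>
      intro w' hR
      rcases ws with _ | ⟨w₁, ws⟩
      · exact (hR.mono (q := 1) (by omega)).nil ▸ SynLE.refl _ _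
      rcases ws.eq_nil_or_concat with rfl | ⟨ms, w₂, rfl⟩
      · simpa using ih w₁ (by simp) w' (by simpa using hR.mono (by omega))
      have e1 := hv w₁ (by simp)
      have e2 := hv w₂ (by simp)
      simp only [List.concat_eq_append, List.flatten_cons, List.flatten_append, List.flatten_nil,
        List.append_nil] at hR ⊢
      obtain ⟨u', v', rfl, a1, a2⟩ := R.cut (q := q₀ + 2 + 2 * d + 1) hR
      obtain ⟨m', w', rfl, a3, a4⟩ := a2.cut
      have b1 := ih w₁ (by simp) _ (a1.mono (by omega))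
      have b2 := ih w₂ (by simp) _ a4
      rcases ms with _ | ⟨m₁, ms⟩
      · obtain rfl := (a3.mono (q := 1) (by omega)).nil
        exact b1.append b2
      have e3 : hw h (m₁ :: ms).flatten = e := by
        rw [List.flatten_cons, hw_append, hv m₁ (by simp),
          hw_flatten_idem he ms fun w hw => hv w (by simp [hw])]
      have b3 := hno _ _ (a3.down.mono (by omega)) (by rw [e3, he])
      exact (((heq _ _ (by rw [hw_append, hw_append, e1, e2, e3, he, he])).trans b3).trans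
        (heq _ (w₁ ++ (m' ++ w₂)) (by simp only [hw_append, e1, e2, e3, mul_assoc]))).trans
        (b1.append ((SynLE.refl _ _).append b2))
  obtain ⟨D, hD⟩ := simon h
  exact sigmaDef_of_upper fun u hu v hR => by simpa using key D u (hD u) v hR [] [] (by simpa)

/-- The values of the words above `w` in the game preorder of the second level. -/
def tg (h : A → M) (q : ℕ) (w : List A) : Set M := {s | ∃ v, R 2 q w v ∧ hw h v = s}

/-- The values of the words whose letters occur in a word of value `e`. -/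
def TB (h : A → M) (e : M) : Set M := {t | ∃ z y, hw h y = e ∧ hw h z = t ∧ ∀ a ∈ z, a ∈ y}

theorem tg_mono {q q' : ℕ} (hq : q ≤ q') (w : List A) : tg h q' w ⊆ tg h q w :=
  fun _ ⟨v, a, b⟩ => ⟨v, a.mono hq, b⟩

theorem tg_append (q : ℕ) (u v : List A) : tg h (q + 1) (u ++ v) ⊆ tg h q u * tg h q v := by
  rintro _ ⟨w, a, rfl⟩
  obtain ⟨u', v', rfl, a1, a2⟩ := a.cut
  rw [hw_append]
  exact Set.mul_mem_mul ⟨u', a1, rfl⟩ ⟨v', a2, rfl⟩

theorem tg_flatten (q : ℕ) (ws : List (List A)) :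
    tg h (q + 1 + ws.length) ws.flatten ⊆ hw (tg h (q + 1)) ws := by
  induction ws with
  | nil =>
    rintro _ ⟨v, a, rfl⟩
    rw [a.nil]
    rfl
  | cons w ws ih =>
    rw [hw_cons]
    exact (tg_append _ _ _).trans (Set.mul_subset_mul (tg_mono (Nat.le_add_right _ _) _) ih)

/-- Families of pointed sets closed under the generating operations. -/
structure Closed (h : A → M) (G : M → Set M → Prop) : Prop where
  nil : G 1 1
  letter : ∀ a, G (h a) {h a}
  mul : ∀ s S t T, G s S → G t T → G (s * t) (S * T)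
  sub : ∀ s S T, G s S → T ⊆ S → G s T
  idem : ∀ e E, G e E → e * e = e → E * E = E → G e (E * TB h e * E)

theorem Closed.prod {G : M → Set M → Prop} (hG : Closed h G) {σ : List A → Set M}
    (ws : List (List A)) (hws : ∀ w ∈ ws, G (hw h w) (σ w)) : G (hw h ws.flatten) (hw σ ws) := by
  induction ws with
  | nil => exact hG.nil
  | cons w ws ih =>
    obtain ⟨a, b⟩ := List.forall_mem_cons.1 hws
    rw [List.flatten_cons, hw_append, hw_cons]
    exact hG.mul _ _ _ _ a (ih b)

theorem Closed.short {G : M → Set M → Prop} (hG : Closed h G) {q n : ℕ}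
    (ws : List (List A)) (hws : ∀ w ∈ ws, G (hw h w) (tg h (q + 1) w)) (hn : ws.length ≤ n) :
    G (hw h ws.flatten) (tg h (q + 1 + n) ws.flatten) :=
  hG.sub _ _ _ (hG.prod ws hws) ((tg_mono (by omega) _).trans (tg_flatten q ws))

theorem Closed.app {G : M → Set M → Prop} (hG : Closed h G) {q : ℕ} {u v : List A}
    (hu : G (hw h u) (tg h q u)) (hv : G (hw h v) (tg h q v)) :
    G (hw h (u ++ v)) (tg h (q + 1) (u ++ v)) :=
  hG.sub _ _ _ (hw_append h u v ▸ hG.mul _ _ _ _ hu hv) (tg_append q u v)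

theorem Closed.raise {G : M → Set M → Prop} (hG : Closed h G) {q q' : ℕ} {u : List A}
    (hu : G (hw h u) (tg h q u)) (hq : q ≤ q') : G (hw h u) (tg h q' u) :=
  hG.sub _ _ _ hu (tg_mono hq u)

theorem Closed.blocks {G : M → Set M → Prop} (hG : Closed h G)
    (hal : ∀ u v, hw h u = hw h v → ∀ a ∈ u, a ∈ v) {K : ℕ}
    (hK : ∀ (σ : List A → Set M) (ws : List (List A)), K ≤ ws.length →
      ∃ a b c, ws = a ++ b ++ c ∧ b ≠ [] ∧ hw σ b * hw σ b = hw σ b)
    {e : M} (he : e * e = e) (q : ℕ) (Y : Finset (Set M)) :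
    ∀ ws : List (List A), (∀ w ∈ ws, hw h w = e ∧ G (hw h w) (tg h (q + 1) w)) →
      (∀ a b c, ws = a ++ b ++ c → b ≠ [] → b.length ≤ K →
        hw (tg h (q + 1)) b * hw (tg h (q + 1)) b = hw (tg h (q + 1)) b →
        hw (tg h (q + 1)) b ∈ Y) →
      G (hw h ws.flatten) (tg h (q + 1 + 2 * K + 4 * Y.card) ws.flatten) := by
  classical
  induction Y using Finset.strongInduction with
  | H Y ih =>
  intro ws hws hY
  by_cases hl : ws.length < K
  · exact hG.raise (hG.short ws (fun w hw => (hws w hw).2) hl.le) (by omega)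
  obtain ⟨a₁, b₁, c₁, e₁, n₁, i₁⟩ := hK (tg h (q + 1)) (ws.take K) (by simp; omega)
  have l₁ : a₁.length + b₁.length ≤ K := by
    have := congrArg List.length e₁
    simp only [List.length_take, List.length_append] at this
    omega
  have e₁' : ws = a₁ ++ b₁ ++ (c₁ ++ ws.drop K) := by
    rw [← List.append_assoc, ← e₁, List.take_append_drop]
  set E := hw (tg h (q + 1)) b₁ with hE
  have hEY : E ∈ Y := hY _ _ _ e₁' n₁ (by omega) i₁
  have hex : ∃ n, ∃ a b c : List (List A), ws = a ++ b ++ c ∧ b ≠ [] ∧ b.length ≤ K ∧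
      hw (tg h (q + 1)) b = E ∧ c.length = n := ⟨_, a₁, b₁, _, e₁', n₁, by omega, rfl, rfl⟩
  obtain ⟨a, b, c, e₂, n₂, l₂, i₂, hc⟩ := Nat.find_spec hex
  have hcard := Finset.card_erase_add_one hEY
  have hsub : ∀ v : List (List A), (∀ w ∈ v, w ∈ ws) → ∀ w ∈ v, G (hw h w) (tg h (q + 1) w) :=
    fun v hv w hw => (hws w (hv w hw)).2
  have h1 := ih (Y.erase E) (Finset.erase_ssubset hEY) c
    (fun w hw => hws w (by simp [e₂, hw])) fun a' b' c' e' n' l' i' =>
    Finset.mem_erase.2 ⟨fun hb => Nat.find_min hex (m := c'.length) (by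
      have := List.length_pos_of_ne_nil n'
      rw [← hc, e']
      simp
      omega) ⟨a ++ b ++ a', b', c', by simp [e₂, e'], n', l', hb, rfl⟩,
      hY (a ++ b ++ a') b' c' (by simp [e₂, e']) n' l' i'⟩
  suffices h2 : G (hw h (a ++ b).flatten) (tg h (q + 1 + 2 * K + 3) (a ++ b).flatten) by
    rw [e₂, List.flatten_append]
    exact hG.raise (hG.app (hG.raise h2 (q' := q + 1 + 2 * K + 4 * (Y.erase E).card + 3)
      (by omega)) (hG.raise h1 (by omega))) (by omega)
  by_cases hlen : a.length ≤ K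
  · exact hG.raise (hG.short (n := 2 * K) _ (hsub _ fun w hw => e₂ ▸ List.mem_append_left _ hw)
      (by simp; omega)) (by omega)
  obtain ⟨m, rfl⟩ : ∃ m, a = a₁ ++ b₁ ++ m := by
    have h3 := e₁'.symm.trans e₂
    rw [List.append_assoc a] at h3
    exact (List.prefix_of_prefix_length_le ⟨_, h3⟩ (List.prefix_append _ _)
      (by simp; omega)).imp fun m hm => hm.symm
  have hval : ∀ v : List (List A), (∀ w ∈ v, w ∈ ws) → v ≠ [] → hw h v.flatten = e := by
    rintro (_ | ⟨w, v⟩) hv hn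
    · exact absurd rfl hn
    · rw [List.flatten_cons, hw_append, (hws w (hv _ (by simp))).1,
        hw_flatten_idem he v fun w hw => (hws w (hv _ (by simp [hw]))).1]
  have v₁ := hval b₁ (fun w hw => by simp [e₂, hw]) n₁
  have v₂ := hval b (fun w hw => by simp [e₂, hw]) n₂
  have h4 : G e E := v₁ ▸ hG.prod b₁ (hsub _ fun w hw => by simp [e₂, hw])
  have h5 : tg h (q + 1 + K) m.flatten ⊆ TB h e := by
    rintro _ ⟨v, hv, rfl⟩
    refine ⟨v, _, v₁, rfl, fun x hx => ?_⟩
    obtain ⟨w, hw1, hw2⟩ := List.mem_flatten.1 ((hv.mono (q := 1) (by omega)).mem hx)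
    exact hal _ _ ((hws w (by simp [e₂, hw1])).1.trans v₁.symm) x hw2
  have h6 : G (hw h (b₁.flatten ++ m.flatten ++ b.flatten))
      (tg h (q + 1 + K + 2) (b₁.flatten ++ m.flatten ++ b.flatten)) := by
    rw [hw_append, hw_append, v₁, v₂, hw_flatten_idem he m fun w hw => (hws w (by simp [e₂, hw])).1,
      he]
    refine hG.sub _ _ _ (hG.idem e E h4 he i₁) ((tg_append _ _ _).trans
      (Set.mul_subset_mul ((tg_append _ _ _).trans (Set.mul_subset_mul ?_ h5)) ?_))
    · exact (tg_mono (by omega) _).trans (tg_flatten q b₁)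
    · exact i₂ ▸ (tg_mono (by omega) _).trans (tg_flatten q b)
  have h7 := hG.app (hG.raise (hG.short (n := K) a₁ (hsub _ fun w hw => by simp [e₂, hw]) (by omega))
    (q' := q + 1 + K + 2) (by omega)) h6
  simpa using hG.raise h7 (q' := q + 1 + 2 * K + 3) (by omega)

theorem Closed.all [Finite M] {G : M → Set M → Prop} (hG : Closed h G)
    (hal : ∀ u v, hw h u = hw h v → ∀ a ∈ u, a ∈ v) : ∃ q, ∀ w, G (hw h w) (tg h q w) := by
  obtain ⟨K, hK⟩ := ramsey (M := Set M) id
  have hK' : ∀ (σ : List A → Set M) (ws : List (List A)), K ≤ ws.length →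
      ∃ a b c, ws = a ++ b ++ c ∧ b ≠ [] ∧ hw σ b * hw σ b = hw σ b := by
    intro σ ws hl
    obtain ⟨a, b, c, e, hb, hi⟩ := hK (ws.map σ) (by simpa)
    obtain ⟨ab, c', rfl, e1, rfl⟩ := List.map_eq_append_iff.1 e
    obtain ⟨a', b', rfl, rfl, rfl⟩ := List.map_eq_append_iff.1 e1
    exact ⟨a', b', c', rfl, by simpa using hb, by simpa [hw] using hi⟩
  let _ := Fintype.ofFinite (Set M)
  set c := 2 * K + 4 * (Finset.univ : Finset (Set M)).card + 1 with hc
  have key : ∀ d w, FF h d w → G (hw h w) (tg h (d * c + 2) w) := by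
    intro d w hF
    induction hF with
    | nil d => exact hG.raise (hG.short (q := 0) (n := 0) [] (by simp) le_rfl) (by omega)
    | single d a =>
      refine hG.sub _ _ _ (hw_single h a ▸ hG.letter a) ?_
      rintro _ ⟨v, hv, rfl⟩
      rw [(hv.mono (q := 2) (by omega)).single]
      rfl
    | bin _ _ ihu ihv => exact hG.raise (hG.app ihu ihv) (by rw [Nat.succ_mul]; omega)
    | @idem d e ws he _ hv ih =>
      exact hG.raise (hG.blocks hal hK' he (d * c + 1) Finset.univ ws
        (fun w hw => ⟨hv w hw, ih w hw⟩) fun _ _ _ _ _ _ _ => Finset.mem_univ _)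
        (by rw [Nat.succ_mul d c]; omega)
  obtain ⟨D, hD⟩ := simon h
  exact ⟨_, fun w => key D w (hD w)⟩

theorem exists_monoid [Finite A] {L : Language A} (hL : L.IsRegular) :
    ∃ (M : Type) (_ : Monoid M) (_ : Finite M) (h : A → M),
      (∀ u v, hw h u = hw h v → u ∈ L → v ∈ L) ∧ ∀ u v, hw h u = hw h v → ∀ a ∈ u, a ∈ v := by
  classical
  obtain ⟨σ, _, D, rfl⟩ := hL
  let h : A → (Function.End σ)ᵐᵒᵖ × (A → ZMod 2) := fun a =>
    (MulOpposite.op fun s => D.step s a, fun b => if b = a then 0 else 1)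
  have h1 : ∀ u s, (hw h u).1.unop s = D.evalFrom s u := by
    intro u
    induction u with
    | nil => exact fun _ => rfl
    | cons a u ih => exact fun s => by rw [hw_cons]; exact ih _
  have h2 : ∀ u a, (hw h u).2 a = 0 ↔ a ∈ u := by
    intro u a
    induction u with
    | nil => simp
    | cons b u ih =>
      rw [hw_cons, Prod.snd_mul, Pi.mul_apply, mul_eq_zero, ih]
      simp [h]
  have : Finite (Function.End σ) := inferInstanceAs (Finite (σ → σ))
  have : Finite (Function.End σ)ᵐᵒᵖ := Finite.of_equiv _ MulOpposite.opEquiv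
  refine ⟨(Function.End σ)ᵐᵒᵖ × (A → ZMod 2), inferInstance, inferInstance, h, fun u v e hu => ?_, fun u v e a ha => ?_⟩
  · rw [DFA.mem_accepts, DFA.eval, ← h1] at hu ⊢
    rwa [← e]
  · rw [← h2, ← e, h2]
    exact ha

end Pool.Agent.MP_a2d820_lc.h18

end MrgPart2

-- ======== part 3: formerly Pool.Agent.MP_a2d820_lc.h18.Real
section MrgPart3

/-!
Pointed sets are realized by distributions of polynomial length that fool alternating circuits.
-/

set_option autoImplicit false

namespace Pool.Agent.MP_a2d820_lc.h18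

open Finset Function Pointwise

variable {A M : Type} [Monoid M] {h : A → M}

/-- A random word with blanks on a finite ordered set of positions. -/
structure Cfg (A : Type) : Type 1 where
  V : Type
  Ω : Type
  Θ : Type
  [fV : Finite V]
  [fΩ : Finite Ω]
  [fΘ : Finite Θ]
  [nΩ : Nonempty Ω]
  [nΘ : Nonempty Θ]
  ord : List V
  nd : ord.Nodup
  u : Ω → V → Option A

attribute [instance] Cfg.fV Cfg.fΩ Cfg.fΘ Cfg.nΩ Cfg.nΘ

/-- The random word lies in `P` and can be safely modified to take any value in `S`. -/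
def Cfg.Good (c : Cfg A) (h : A → M) (k : ℕ) (P : Set (List A)) (S : Set M) (t : ℕ) : Prop :=
  (∀ ω, c.ord.filterMap (c.u ω) ∈ P) ∧ ∀ s ∈ S, ∃ v : c.Ω → c.Θ → c.V → Option A,
    (∀ ω θ, hw h (c.ord.filterMap (v ω θ)) = s) ∧ Safe (Sig t k) c.u v (1 / (t + 1)) (1 / 2 ^ t)

/-- Realization in polynomial length. -/
def Rz (h : A → M) (k : ℕ) (P : Set (List A)) (S : Set M) : Prop :=
  ∃ p : Polynomial ℕ, ∀ t, ∃ c : Cfg A, c.ord.length ≤ p.eval t ∧ c.Good h k P S t

theorem Rz.mono {k : ℕ} {P P' : Set (List A)} {S S' : Set M} (H : Rz h k P S) (hP : P ⊆ P')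
    (hS : S' ⊆ S) : Rz h k P' S' :=
  H.imp fun _ H t => (H t).imp fun _ hc =>
    ⟨hc.1, fun ω => hP (hc.2.1 ω), fun s hs => hc.2.2 s (hS hs)⟩

theorem Rz.word (k : ℕ) (w : List A) : Rz h k {w} {hw h w} := by
  have e : (List.finRange w.length).filterMap (fun i => some (w.get i)) = w := by
    rw [show (fun i => some (w.get i)) = some ∘ w.get from rfl, List.filterMap_eq_map,
      List.map_get_finRange]
  refine ⟨w.length, fun t => ⟨{ V := Fin w.length, Ω := Unit, Θ := Unit, ord := List.finRange _, nd := List.nodup_finRange _, u := fun _ i => some (w.get i) }, by simp, fun _ => e, ?_⟩⟩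
  rintro _ rfl
  exact ⟨_, fun _ _ => congrArg (hw h) e, Safe.refl.mono (by positivity) (by positivity)⟩

theorem loc_inl {V V' Γ : Type} (y : V' → Γ) : Loc fun x : V → Γ => Sum.elim x y := by
  rintro (v | v)
  · exact ⟨some v, fun x x' h => h v rfl⟩
  · exact ⟨none, fun x x' _ => rfl⟩

theorem loc_inr {V V' Γ : Type} (x : V → Γ) : Loc fun y : V' → Γ => Sum.elim x y := by
  rintro (v | v)
  · exact ⟨none, fun x x' _ => rfl⟩
  · exact ⟨some v, fun x x' h => h v rfl⟩

theorem Rz.mul {k : ℕ} {P₁ P₂ P : Set (List A)} {S₁ S₂ : Set M} (H₁ : Rz h k P₁ S₁)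
    (H₂ : Rz h k P₂ S₂) (hP : ∀ x ∈ P₁, ∀ y ∈ P₂, x ++ y ∈ P) : Rz h k P (S₁ * S₂) := by
  obtain ⟨p₁, H₁⟩ := H₁
  obtain ⟨p₂, H₂⟩ := H₂
  refine ⟨(p₁ + p₂).comp (2 * Polynomial.X + 1), fun t => ?_⟩
  obtain ⟨c₁, l₁, a₁, b₁⟩ := H₁ (2 * t + 1)
  obtain ⟨c₂, l₂, a₂, b₂⟩ := H₂ (2 * t + 1)
  have e : ∀ x y, (c₁.ord.map Sum.inl ++ c₂.ord.map Sum.inr).filterMap
      (Sum.elim x y : c₁.V ⊕ c₂.V → Option A) = c₁.ord.filterMap x ++ c₂.ord.filterMap y := by
    intro x y
    simp [List.filterMap_append, List.filterMap_map]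
  refine ⟨{ V := c₁.V ⊕ c₂.V, Ω := c₁.Ω × c₂.Ω, Θ := c₁.Θ × c₂.Θ, ord := c₁.ord.map Sum.inl ++ c₂.ord.map Sum.inr, nd := (c₁.nd.map Sum.inl_injective).append (c₂.nd.map Sum.inr_injective) (by simp [List.disjoint_left]), u := fun ω => Sum.elim (c₁.u ω.1) (c₂.u ω.2) }, by simp; omega,
    fun ω => e _ _ ▸ hP _ (a₁ _) _ (a₂ _), ?_⟩
  rintro _ ⟨s₁, hs₁, s₂, hs₂, rfl⟩
  obtain ⟨v₁, d₁, f₁⟩ := b₁ s₁ hs₁
  obtain ⟨v₂, d₂, f₂⟩ := b₂ s₂ hs₂
  refine ⟨fun ω θ => Sum.elim (v₁ ω.1 θ.1) (v₂ ω.2 θ.2),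
    fun ω θ => by simp only [e, hw_append, d₁, d₂], ?_⟩
  have g₁ := Safe.mix fun ω₂ : c₂.Ω => f₁.map (𝒞' := Sig t k) (Sum.elim · (c₂.u ω₂))
    fun C hC => (hC.comp (loc_inl _)).mono (by omega)
  have g₂ := (Safe.mix fun π : c₁.Ω × c₁.Θ => f₂.map (𝒞' := Sig t k) (Sum.elim (v₁ π.1 π.2))
    fun C hC => (hC.comp (loc_inr _)).mono (by omega)).reindex
    (⟨fun p => (p.1.2, p.1.1, p.2), fun p => ((p.2.1, p.1), p.2.2), fun _ => rfl, fun _ => rfl⟩ :
      (c₁.Ω × c₂.Ω) × c₁.Θ ≃ c₂.Ω × c₁.Ω × c₁.Θ)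
  refine (g₁.comp g₂).mono (le_of_eq ?_) ?_
  · push_cast
    field_simp
    ring
  · rw [← two_mul, pow_succ, mul_one_div, mul_comm _ 2, div_mul_cancel_left₀ (by norm_num), one_div]
    exact inv_anti₀ (by positivity) (pow_le_pow_right₀ (by norm_num) (by omega))

theorem hw_blocks {ι V : Type} (l : List ι) (ord : List V) (W : ι → V → Option A) :
    hw h ((l ×ˢ ord).filterMap (uncurry W)) = (l.map fun i => hw h (ord.filterMap (W i))).prod := by
  induction l with
  | nil => rfl
  | cons i l ih =>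
    rw [List.product_cons, List.filterMap_append, hw_append, ih, List.filterMap_map]
    rfl

theorem exists_factors {E : Set M} (hE : E * E = E) (N : ℕ) :
    ∀ s ∈ E, ∃ l : List M, l.length = N + 1 ∧ (∀ x ∈ l, x ∈ E) ∧ l.prod = s := by
  induction N with
  | zero => exact fun s hs => ⟨[s], rfl, by simpa, by simp⟩
  | succ N ih =>
    intro s hs
    obtain ⟨a, ha, b, hb, rfl⟩ := hE.ge hs
    obtain ⟨l, h1, h2, rfl⟩ := ih b hb
    exact ⟨a :: l, by simp [h1], List.forall_mem_cons.2 ⟨ha, h2⟩, by simp⟩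

theorem exists_targets {E : Set M} (hE : E * E = E) {s₁ s₂ : M} (h₁ : s₁ ∈ E) (h₂ : s₂ ∈ E) (τ : M)
    {n : ℕ} (j : Fin n) : ∃ c : Fin (n + 2) → M, ((List.finRange (n + 2)).map c).prod = s₁ * τ * s₂ ∧
      c j.succ.castSucc = τ ∧ ∀ i ≠ j.succ.castSucc, c i ∈ E := by
  obtain ⟨l₁, a1, a2, rfl⟩ := exists_factors hE j s₁ h₁
  obtain ⟨l₂, b1, b2, rfl⟩ := exists_factors hE (n - j - 1) s₂ h₂
  have hl : (l₁ ++ τ :: l₂).length = n + 2 := by simp [a1, b1]; omega
  refine ⟨fun i => (l₁ ++ τ :: l₂)[(i : ℕ)]'(i.2.trans_eq hl.symm), ?_, by simp [a1], fun i hi => ?_⟩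
  · rw [← List.ofFn_eq_map, show (List.ofFn fun i : Fin (n + 2) =>
      (l₁ ++ τ :: l₂)[(i : ℕ)]'(i.2.trans_eq hl.symm)) = l₁ ++ τ :: l₂ from
      List.ext_getElem (by simp [a1, b1]; omega) fun _ _ _ => List.getElem_ofFn ..]
    simp [mul_assoc]
  · have h3 : (i : ℕ) ≠ j + 1 := fun e => hi (Fin.ext (by simpa using e))
    simp only [List.getElem_append]
    split_ifs with h4
    · exact a2 _ (List.getElem_mem _)
    · rw [List.getElem_cons, dif_neg (by omega)]
      exact b2 _ (List.getElem_mem _)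

theorem jump {k t t' n τ : ℕ} {e : M} {E T : Set M} (he : e * e = e) (hE : E * E = E) {c : Cfg A}
    (hc : c.Good h (k + 1) {w | hw h w = e} E t') {ε δ : ℝ} (hε : 0 ≤ ε) (hδ : 0 ≤ δ)
    (ht : Tail k t τ δ) (htt : t ≤ t') (hn : 0 < n)
    (hT : ∀ s ∈ T, ∃ a : c.Ω → c.V → Option A, (∀ ω, hw h (c.ord.filterMap (a ω)) = s) ∧
      ∀ C, Sig t k C → (Ex fun ω => ind (C (a ω) ∧ ¬C (c.u ω))) ≤ ε)
    (h1 : τ / n + ε + (n + 2) * (1 / (t' + 1)) ≤ 1 / (t + 1))
    (h2 : 2 ^ t * δ + (n + 2) * (1 / 2 ^ t') ≤ 1 / 2 ^ t) :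
    ∃ c' : Cfg A, c'.ord.length = (n + 2) * c.ord.length ∧
      c'.Good h (k + 1) {w | hw h w = e} (E * T * E) t := by
  classical
  have : Nonempty (Fin n) := ⟨⟨0, hn⟩⟩
  refine ⟨{ V := Fin (n + 2) × c.V, Ω := Fin (n + 2) → c.Ω, Θ := (Fin n × c.Ω) × (Fin (n + 2) → c.Θ), ord := List.finRange _ ×ˢ c.ord, nd := (List.nodup_finRange _).product c.nd, u := fun ω => uncurry fun i => c.u (ω i) }, by simp [List.length_product], fun ω => ?_, ?_⟩
  · refine (hw_blocks (h := h) (List.finRange (n + 2)) c.ord fun i => c.u (ω i)).trans ?_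
    simp only [show ∀ ω, hw h (c.ord.filterMap (c.u ω)) = e from hc.1, List.map_const',
      List.prod_replicate, List.length_finRange]
    exact IsIdempotentElem.pow_succ_eq _ he
  rintro _ ⟨_, ⟨s₁, hs₁, s, hs, rfl⟩, s₂, hs₂, rfl⟩
  obtain ⟨a, a1, a2⟩ := hT s hs
  choose tg t1 t2 t3 using fun j : Fin n => exists_targets hE hs₁ hs₂ s j
  choose! vk v1 v2 using hc.2
  let e' : Fin n → Fin (n + 2) := fun j => j.succ.castSucc
  have f₁ := flip_sig (e := e') (fun i j hij => by simpa [e'] using hij) ht hε hδ a2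
  have f₂ := Safe.mix fun π : Fin n × c.Ω => Safe.pi (𝒞 := Sig t' (k + 1))
    (u := fun i ω => if i = e' π.1 then a π.2 else c.u ω)
    (v := fun i ω θ => if i = e' π.1 then a π.2 else vk (tg π.1 i) ω θ)
    (ε := 1 / (t' + 1)) (δ := 1 / 2 ^ t') (fun i => by
      by_cases hi : i = e' π.1
      · simp only [hi, if_true]
        exact Safe.refl.mono (by positivity) (by positivity)
      · simp only [hi, if_false]
        exact v2 _ (t3 _ _ hi))
    (𝒞' := fun C => Sig t (k + 1) fun z : Fin (n + 2) × c.V → Option A => C (curry z))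
    fun C hC i y => (hC.comp (loc_update y i)).mono htt
  have e₂ : ∀ (ω : Fin (n + 2) → c.Ω) (π : Fin n × c.Ω),
      (fun i => if i = e' π.1 then a π.2 else c.u (ω i)) =
        update (fun i => c.u (ω i)) (e' π.1) (a π.2) :=
    fun ω π => funext fun i => by rw [update_apply]
  replace f₂ := f₂.congr fun p => e₂ p.1 p.2
  refine ⟨_, fun ω θ => (hw_blocks (h := h) _ _ _).trans ?_,
    ((f₁.comp f₂).map uncurry fun C hC => hC).mono (by simpa using h1) (by simpa using h2)⟩
  refine Eq.trans ?_ (t1 θ.1.1)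
  congr 2
  funext i
  by_cases hi : i = e' θ.1.1
  · subst hi
    rw [if_pos rfl, a1, t2]
  · rw [if_neg hi, v1 _ (t3 _ _ hi)]

/-- Every letter is placed at a chosen position of its own block. -/
def sp {V : Type} {m : ℕ} (π : V → Fin m) (x : V → Option A) : V × Fin m → Option A :=
  fun p => if π p.1 = p.2 then x p.1 else none

theorem loc_sp {V : Type} {m : ℕ} (π : V → Fin m) : Loc (sp (A := A) π) :=
  fun p => ⟨some p.1, fun x y h => by simp [sp, h p.1 rfl]⟩

theorem filterMap_sp {V : Type} {m : ℕ} (π : V → Fin m) (x : V → Option A) (ord : List V) :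
    (ord ×ˢ List.finRange m).filterMap (sp π x) = ord.filterMap x := by
  have key : ∀ (a : Fin m) (o : Option A) (l : List (Fin m)), l.Nodup → a ∈ l →
      l.filterMap (fun p => if a = p then o else none) = o.toList := by
    intro a o l hl ha
    obtain ⟨s, t, rfl⟩ := List.append_of_mem ha
    have h1 := List.nodup_middle.1 hl
    rw [List.nodup_cons, List.mem_append, not_or] at h1
    rw [List.filterMap_append, List.filterMap_eq_nil_iff.2 fun p hp =>
      if_neg fun e : a = p => h1.1.1 (e ▸ hp), List.filterMap_cons,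
      List.filterMap_eq_nil_iff.2 fun p hp => if_neg fun e : a = p => h1.1.2 (e ▸ hp)]
    cases o <;> simp
  induction ord with
  | nil => rfl
  | cons v ord ih =>
    rw [List.product_cons, List.filterMap_append, ih, List.filterMap_map,
      show sp π x ∘ Prod.mk v = fun p => if π v = p then x v else none from rfl,
      key _ _ _ (List.nodup_finRange _) (List.mem_finRange _), List.filterMap_cons]
    cases x v <;> rfl

theorem weak_sp {V : Type} [Finite V] {m t : ℕ} [Nonempty (Fin m)] {x₀ x : V → Option A}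
    (hx : ∀ v, x₀ v = none ∨ x₀ v = x v) {C : (V × Fin m → Option A) → Prop} (hC : Sig t 1 C) :
    (Ex fun π : V → Fin m => ind (C (sp π x₀) ∧ ¬C (sp π x))) ≤ t / m := by
  classical
  have h1 := Ex_mix (fun v => (x₀ v).isNone) fun (π _ : V → Fin m) =>
    ind (C (sp π x₀) ∧ ¬C (sp π x))
  simp only [Ex_const] at h1
  rw [← h1]
  refine Ex_le fun π => ?_
  have h2 : ∀ η, sp (mix (fun v => (x₀ v).isNone) π η) x₀ = sp π x₀ := fun η => funext fun p => by
    rcases h5 : x₀ p.1 with _ | a <;> simp [sp, mix, h5]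
  simp only [h2]
  by_cases hπ : C (sp π x₀)
  · obtain ⟨D, d1, d2⟩ := hC.cert hπ
    refine (Ex_mono fun η => ind_le_sum (s := D) (Q := fun p => η p.1 = p.2) fun h => ?_).trans ?_
    · by_contra hc
      push Not at hc
      refine h.2 (d2 _ fun p hp => ?_)
      have h3 := hc p hp
      have h4 := hx p.1
      rcases h5 : x₀ p.1 with _ | a
      · simp [sp, mix, h3, h5]
      · simp [sp, mix, ← h4.resolve_left (by simp [h5]), h5]
    · rw [Ex_sum]
      refine (sum_le_card_nsmul _ _ (1 / m : ℝ) fun p _ => ?_).trans ?_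
      · rw [Ex_coord p.1 fun i : Fin m => ind (i = p.2), Ex_ind]
        simp [filter_eq']
      · rw [nsmul_eq_mul, mul_one_div]
        exact div_le_div_of_nonneg_right (by exact_mod_cast d1) (by positivity)
  · exact Ex_le fun η => (ind_of_not fun h => hπ h.1).trans_le (by positivity)

theorem exists_mask {V : Type} {ord : List V} (hn : ord.Nodup) (x : V → Option A) {z : List A}
    (hz : z.Sublist (ord.filterMap x)) :
    ∃ x₀ : V → Option A, (∀ v, x₀ v = none ∨ x₀ v = x v) ∧ ord.filterMap x₀ = z := by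
  classical
  induction ord generalizing z with
  | nil => exact ⟨x, fun _ => Or.inr rfl, (List.sublist_nil.1 hz).symm⟩
  | cons v ord ih =>
    obtain ⟨h1, h2⟩ := List.nodup_cons.1 hn
    have key : ∀ (o : Option A) (z' : List A), (o = none ∨ o = x v) →
        z'.Sublist (ord.filterMap x) → ∃ x₀ : V → Option A, (∀ v, x₀ v = none ∨ x₀ v = x v) ∧
          (v :: ord).filterMap x₀ = o.toList ++ z' := by
      intro o z' ho hz'
      obtain ⟨x₀, a1, rfl⟩ := ih h2 hz'
      refine ⟨update x₀ v o, fun w => ?_, ?_⟩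
      · by_cases hw : w = v
        · simpa [hw] using ho
        · simpa [hw] using a1 w
      · rw [List.filterMap_cons, update_self,
          List.filterMap_congr fun w hw => update_of_ne (fun e : w = v => h1 (e ▸ hw)) o x₀]
        cases o <;> rfl
    rcases hv : x v with _ | a
    · exact key none z (Or.inl rfl) (by simpa [hv] using hz)
    · rw [List.filterMap_cons_some hv] at hz
      rcases List.sublist_cons_iff.1 hz with hz' | ⟨z', rfl, hz'⟩
      · exact key none z (Or.inl rfl) hz'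
      · exact key (some a) z' (Or.inr hv.symm) hz'

theorem Rz.rich {k : ℕ} {e : M} {E : Set M} (H : Rz h k {w | hw h w = e} E) (he : e * e = e)
    (hE : E * E = E) (hal : ∀ u v, hw h u = hw h v → ∀ a ∈ u, a ∈ v) (r : ℕ) :
    Rz h k {w | hw h w = e ∧ ∀ z y : List A, z.length ≤ r → hw h y = e → (∀ a ∈ z, a ∈ y) →
      z.Sublist w} E := by
  induction r with
  | zero =>
    exact H.mono (fun w hw => ⟨hw, fun z y hz _ _ => by simp [List.length_eq_zero_iff.1
      (Nat.le_zero.1 hz)]⟩) subset_rfl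
  | succ r ih =>
    refine hE ▸ H.mul ih fun x hx w hw => ⟨?_, fun z y h1 h2 h3 => ?_⟩
    · rw [hw_append, hx, hw.1, he]
    · rcases z with _ | ⟨a, z⟩
      · simp
      · exact (List.singleton_sublist.2 (hal y x (h2.trans hx.symm) a (h3 a (by simp)))).append
          (hw.2 z y (by simpa using h1) h2 fun b hb => h3 b (by simp [hb]))

theorem Rz.idem [Finite M] {e : M} {E : Set M} (H : Rz h 2 {w | hw h w = e} E) (he : e * e = e)
    (hE : E * E = E) (hal : ∀ u v, hw h u = hw h v → ∀ a ∈ u, a ∈ v) :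
    Rz h 2 {w | hw h w = e} (E * TB h e * E) := by
  obtain ⟨r, hr⟩ : ∃ r, ∀ s ∈ TB h e, ∃ z y : List A, z.length ≤ r ∧ hw h y = e ∧ hw h z = s ∧
      ∀ a ∈ z, a ∈ y := by
    have h1 : ∀ s : TB h e, ∃ z y : List A, hw h y = e ∧ hw h z = s ∧ ∀ a ∈ z, a ∈ y :=
      fun s => s.2
    choose z y h2 using h1
    obtain ⟨r, hr⟩ := (Set.finite_range fun s => (z s).length).bddAbove
    exact ⟨r, fun s hs => ⟨z ⟨s, hs⟩, y ⟨s, hs⟩, hr ⟨_, rfl⟩, h2 ⟨s, hs⟩⟩⟩
  obtain ⟨p, hp⟩ := H.rich he hE hal r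
  obtain ⟨q, hq⟩ := exists_tail 1
  let N : Polynomial ℕ := 4 * (Polynomial.X + 1) * (q.comp (2 * Polynomial.X + 1) + 1)
  let T : Polynomial ℕ := 2 * (Polynomial.X + 1) * (N + 2)
  refine ⟨(N + 2) * (p.comp T * (4 * (Polynomial.X + 1) ^ 2)), fun t => ?_⟩
  obtain ⟨τ, hτ⟩ : ∃ τ, τ = q.eval (2 * t + 1) := ⟨_, rfl⟩
  obtain ⟨n, hn⟩ : ∃ n, n = 4 * (t + 1) * (τ + 1) := ⟨_, rfl⟩
  obtain ⟨t', ht'⟩ : ∃ t', t' = 2 * (t + 1) * (n + 2) := ⟨_, rfl⟩
  obtain ⟨m, hm⟩ : ∃ m, m = 4 * (t + 1) ^ 2 := ⟨_, rfl⟩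
  have hN : N.eval t = n := by simp [N, hn, hτ]
  have hT : T.eval t = t' := by simp [T, hN, ht']
  obtain ⟨c, l₁, a₁, b₁⟩ := hp t'
  have : Nonempty (Fin m) := ⟨⟨0, by rw [hm]; positivity⟩⟩
  let c' : Cfg A := { V := c.V × Fin m, Ω := c.Ω × (c.V → Fin m), Θ := c.Θ, ord := c.ord ×ˢ List.finRange m, nd := c.nd.product (List.nodup_finRange _), u := fun ω => sp ω.2 (c.u ω.1) }
  have hc' : c'.Good h 2 {w | hw h w = e} E t' := by
    refine ⟨fun ω => (congrArg (hw h) (filterMap_sp _ _ _)).trans (a₁ ω.1).1, fun s hs => ?_⟩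
    obtain ⟨v, v1, v2⟩ := b₁ s hs
    exact ⟨fun ω θ => sp ω.2 (v ω.1 θ), fun ω θ => (congrArg (hw h) (filterMap_sp _ _ _)).trans
      (v1 _ _), Safe.mix fun π => v2.map (sp π) fun C hC => hC.comp (loc_sp π)⟩
  have h1 : t + 1 + (n + 2) ≤ t' := by rw [ht']; nlinarith
  obtain ⟨c'', l₂, g⟩ := jump (k := 1) (t := t) (n := n) (τ := τ) (T := TB h e) he hE hc'
    (ε := t / m) (δ := 1 / 2 ^ (2 * t + 1)) (by positivity) (by positivity)
    (fun ι _ _ C hC => hτ ▸ hq _ ι C (hC.mono (by omega))) (by omega) (by rw [hn]; positivity)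
    (fun s hs => by
      obtain ⟨z, y, z1, z2, z3, z4⟩ := hr s hs
      choose x₀ x1 x2 using fun ω => exists_mask c.nd (c.u ω) ((a₁ ω).2 z y z1 z2 z4)
      refine ⟨fun ω => sp ω.2 (x₀ ω.1), fun ω => (congrArg (hw h) ((filterMap_sp _ _ _).trans
        (x2 _))).trans z3, fun C hC => ?_⟩
      exact (Ex_prod _).trans_le (Ex_le fun ω => weak_sp (x1 ω) hC))
    (by
      have e1 : (τ : ℝ) / n ≤ 1 / (4 * (t + 1)) := by
        rw [hn, div_le_div_iff₀ (by positivity) (by positivity)]
        push_cast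
        nlinarith
      have e2 : (t : ℝ) / m ≤ 1 / (4 * (t + 1)) := by
        rw [hm, div_le_div_iff₀ (by positivity) (by positivity)]
        push_cast
        nlinarith
      have e3 : ((n : ℝ) + 2) * (1 / (t' + 1)) ≤ 1 / (2 * (t + 1)) := by
        rw [ht', mul_one_div, div_le_div_iff₀ (by positivity) (by positivity)]
        push_cast
        nlinarith
      have e4 : (1 : ℝ) / (4 * (t + 1)) + 1 / (4 * (t + 1)) + 1 / (2 * (t + 1)) = 1 / (t + 1) := by
        field_simp
        ring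
      linarith)
    (by
      have e1 : (2 : ℝ) ^ t * (1 / 2 ^ (2 * t + 1)) = 1 / 2 ^ (t + 1) := by
        field_simp
        ring
      have e2 : ((n : ℝ) + 2) * (1 / 2 ^ t') ≤ 1 / 2 ^ (t + 1) := by
        rw [mul_one_div, div_le_div_iff₀ (by positivity) (by positivity), one_mul]
        have e3 : (n + 2) * 2 ^ (t + 1) ≤ 2 ^ t' :=
          (Nat.mul_le_mul_right _ Nat.lt_two_pow_self.le).trans
            (by rw [← pow_add]; exact Nat.pow_le_pow_right (by norm_num) (by omega))
        exact_mod_cast e3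
      have e4 : (1 : ℝ) / 2 ^ (t + 1) + 1 / 2 ^ (t + 1) = 1 / 2 ^ t := by
        field_simp
        ring
      linarith)
  refine ⟨c'', ?_, g⟩
  simp only [l₂, c', List.length_product, List.length_finRange, Polynomial.eval_mul,
    Polynomial.eval_add, Polynomial.eval_comp, hN, hT, Polynomial.eval_ofNat, Polynomial.eval_pow,
    Polynomial.eval_X, Polynomial.eval_one, ← hm]
  exact Nat.mul_le_mul_left _ (Nat.mul_le_mul_right _ l₁)

theorem rz_all [Finite M] (hal : ∀ u v, hw h u = hw h v → ∀ a ∈ u, a ∈ v) :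
    ∃ q, ∀ w, Rz h 2 {u | hw h u = hw h w} (tg h q w) :=
  Closed.all (G := fun s S => Rz h 2 {u | hw h u = s} S)
    ⟨(Rz.word 2 []).mono (by simp) subset_rfl,
      fun a => (Rz.word 2 [a]).mono (by simp) (by simp),
      fun s S t T H H' => H.mul H' fun x hx y hy => by
        simp only [Set.mem_ofPred_eq] at hx hy ⊢
        rw [hw_append, hx, hy],
      fun _ _ _ H hT => H.mono subset_rfl hT, fun _ _ H he hE => H.idem he hE hal⟩ hal

end Pool.Agent.MP_a2d820_lc.h18

end MrgPart3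

-- ======== part 4: formerly Pool.Agent.MP_a2d820_lc.h18.Hard
section MrgPart4

/-!
Regular languages outside the third level are hard for the third level of circuits and of the
relativized hierarchy.
-/

set_option autoImplicit false

namespace Pool.Agent.MP_a2d820_lc.h18

open Finset Function h69 Pool.Agent.PolyT N487b59b3

variable {A : Type}

/-- No circuit of level `k` recognizes `L` on long words with blanks. -/
def Hard (k : ℕ) (L : Language A) : Prop :=
  ∃ p : Polynomial ℕ, ∀ (t : ℕ) (W : Type) (l : List W), l.Nodup → p.eval t ≤ l.length →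
    ∀ C : (W → Option A) → Prop, Sig t k C → ∃ z, ¬(C z ↔ l.filterMap z ∈ L)

theorem filterMap_idx {W B : Type} [DecidableEq W] {l : List W} (hl : l.Nodup) (o : List B)
    (ho : o.length ≤ l.length) : l.filterMap (fun w => o[l.idxOf w]?) = o := by
  induction l generalizing o with
  | nil => simpa using ho
  | cons w l ih =>
    obtain ⟨h1, h2⟩ := List.nodup_cons.1 hl
    rcases o with _ | ⟨b, o⟩
    · simp
    · rw [List.filterMap_cons_some (b := b) (by simp), List.filterMap_congr (g := fun w =>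
        o[l.idxOf w]?) fun v hv => by
          rw [List.idxOf_cons_ne _ (fun e : w = v => h1 (e ▸ hv)), List.getElem?_cons_succ],
        ih h2 o (by simpa using ho)]

theorem prod_idem {M : Type} [Monoid M] {e : M} (he : e * e = e) (l : List M)
    (hl : ∀ x ∈ l, x = e) : e * l.prod = e ∧ l.prod * e = e := by
  induction l with
  | nil => simp
  | cons x l ih =>
    obtain ⟨rfl, h2⟩ := List.forall_mem_cons.1 hl
    rw [List.prod_cons, ← mul_assoc, he, mul_assoc, (ih h2).1, (ih h2).2]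
    exact ⟨rfl, he⟩

theorem prod_one_off {M ι : Type} [Monoid M] {e : M} (he : e * e = e) {l : List ι} (hl : l.Nodup)
    {j : ι} (hj : j ∈ l) {f : ι → M} (hf : ∀ i ≠ j, f i = e) :
    e * (l.map f).prod * e = e * f j * e := by
  obtain ⟨s, t, rfl⟩ := List.append_of_mem hj
  have h1 := List.nodup_middle.1 hl
  rw [List.nodup_cons, List.mem_append, not_or] at h1
  have h2 := (prod_idem he (s.map f) (List.forall_mem_map.2 fun i hi =>
    hf i fun e => h1.1.1 (e ▸ hi))).1
  have h3 := (prod_idem he (t.map f) (List.forall_mem_map.2 fun i hi =>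
    hf i fun e => h1.1.2 (e ▸ hi))).2
  rw [List.map_append, List.map_cons, List.prod_append, List.prod_cons, ← mul_assoc, h2,
    mul_assoc, mul_assoc, h3, mul_assoc]

theorem hard_of_rz {M : Type} [Monoid M] {h : A → M} {L : Language A} {k : ℕ}
    (hL : ∀ u v, hw h u = hw h v → u ∈ L → v ∈ L) {u v x y : List A}
    (he : hw h v * hw h v = hw h v) (h1 : x ++ v ++ y ∈ L) (h2 : x ++ (v ++ u ++ v) ++ y ∉ L)
    (H : Rz h k {w | hw h w = hw h u} {hw h v}) : Hard (k + 1) L := by
  classical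
  obtain ⟨p, hp⟩ := H
  obtain ⟨q, hq⟩ := exists_tail k
  refine ⟨(4 * q.comp (Polynomial.X + 2) + 1) * p.comp (Polynomial.X + 4) +
    ((x ++ v).length + (v ++ y).length : ℕ), fun t W l hl hlen C hC => ?_⟩
  by_contra hcon
  push Not at hcon
  obtain ⟨c, l₁, a₁, b₁⟩ := hp (t + 4)
  obtain ⟨vk, v1, v2⟩ := b₁ _ rfl
  obtain ⟨τ, hτ⟩ : ∃ τ, τ = q.eval (t + 2) := ⟨_, rfl⟩
  have f := flip_sig (ι := Fin (4 * τ + 1)) (e := id) injective_id
    (a := fun p : c.Ω × c.Θ => c.u p.1) (b := fun p => vk p.1 p.2) (t := t) (τ := τ)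
    (fun ι _ _ C hC => hτ ▸ hq _ ι C (hC.mono (by omega))) (by positivity) (by positivity)
    fun C hC => v2.weak (hC.mono (by omega))
  let o : List (A ⊕ Fin (4 * τ + 1) × c.V) := (x ++ v).map .inl ++
    (List.finRange _ ×ˢ c.ord).map .inr ++ (v ++ y).map .inl
  have ho : o.length ≤ l.length := by
    refine le_trans ?_ hlen
    have := Nat.mul_le_mul_left (4 * τ + 1) l₁
    simp [o, List.length_product, ← hτ]
    omega
  let emb : (Fin (4 * τ + 1) × c.V → Option A) → W → Option A := fun z w =>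
    (o[l.idxOf w]?).bind (Sum.elim some z)
  have hemb : Loc emb := fun w => by
    rcases hw : o[l.idxOf w]? with _ | a | i
    · exact ⟨none, fun _ _ _ => by simp [emb, hw]⟩
    · exact ⟨none, fun _ _ _ => by simp [emb, hw]⟩
    · exact ⟨some i, fun _ _ h => by simp [emb, hw, h i rfl]⟩
  have hrd : ∀ Z : Fin (4 * τ + 1) → c.V → Option A, hw h (l.filterMap (emb (uncurry Z))) =
      hw h x * (hw h v * ((List.finRange _).map fun i => hw h (c.ord.filterMap (Z i))).prod *
        hw h v) * hw h y := by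
    intro Z
    rw [← List.filterMap_filterMap, filterMap_idx hl o ho, ← hw_blocks]
    simp [o, List.filterMap_map, mul_assoc]
  have h3 := f.weak (C := fun Z => C (emb (uncurry Z))) (hC.comp hemb)
  have h4 : ∀ (ω : Fin (4 * τ + 1) → c.Ω × c.Θ) (θ : Fin (4 * τ + 1) × c.Ω × c.Θ),
      C (emb (uncurry fun i => vk (ω i).1 (ω i).2)) ∧
      ¬C (emb (uncurry (update (fun i => vk (ω i).1 (ω i).2) θ.1 (c.u θ.2.1)))) := by
    refine fun ω θ => ⟨(hcon _).2 (hL _ _ ?_ h1), fun hc => h2 (hL _ _ ?_ ((hcon _).1 hc))⟩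
    · rw [hrd, prod_one_off he (List.nodup_finRange _) (List.mem_finRange 0) fun i _ => v1 _ _,
        v1, he, he, hw_append, hw_append]
    · rw [hrd, prod_one_off he (List.nodup_finRange _) (List.mem_finRange θ.1) fun i hi => by
        rw [update_of_ne hi, v1], update_self, a₁ θ.2.1]
      simp only [hw_append]
  simp only [id, ind_of (h4 _ _), Ex_const, Fintype.card_fin] at h3
  have e1 : (τ : ℝ) / (4 * τ + 1 : ℕ) ≤ 1 / 4 := by
    rw [div_le_div_iff₀ (by positivity) (by positivity)]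
    push_cast
    linarith
  have e2 : (1 : ℝ) / ((t + 4 : ℕ) + 1) ≤ 1 / 5 :=
    one_div_le_one_div_of_le (by norm_num) (by push_cast; linarith [t.cast_nonneg (α := ℝ)])
  have e3 : (1 : ℝ) / 2 ^ (t + 4) ≤ 1 / 2 ^ 4 :=
    one_div_le_one_div_of_le (by norm_num) (pow_le_pow_right₀ (by norm_num) (by omega))
  have e4 : (2 : ℝ) ^ t * (1 / 2 ^ (t + 2)) = 1 / 4 := by
    field_simp
    ring
  linarith

theorem hard_three [Finite A] {L : Language A} (hL : L.IsRegular) (hn : ¬SigmaDef 3 L) :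
    Hard 3 L := by
  obtain ⟨M, _, _, h, h1, h2⟩ := exists_monoid hL
  obtain ⟨q, hq⟩ := rz_all h2
  have h3 := mt (transfer (k := 1) (q₀ := q) h1) hn
  simp only [SynLE, not_forall] at h3
  obtain ⟨u, v, hR, he, x, y, h4, h5⟩ := h3
  exact hard_of_rz h1 he h4 h5 ((hq u).mono subset_rfl (Set.singleton_subset_iff.2 ⟨v, hR, rfl⟩))

theorem mem_paths {n : ℕ} {y : List Bool} : y ∈ paths n ↔ y.length = n := by
  induction n generalizing y with
  | zero => simp [paths]
  | succ n ih => rcases y with _ | ⟨_ | _, y⟩ <;> simp [paths, ih]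

theorem length_paths (n : ℕ) : (paths n).length = 2 ^ n := by
  induction n with
  | zero => rfl
  | succ n ih => simp [paths, ih, pow_succ, mul_two]

theorem nodup_paths (n : ℕ) : (paths n).Nodup := by
  induction n with
  | zero => simp [paths]
  | succ n ih =>
    exact (ih.map List.cons_injective).append (ih.map List.cons_injective)
      (by simp [List.disjoint_left])

theorem exists_oracle [Finite A] [DecidableEq A] {k : ℕ} {L : Language A} (hL : Hard k L) :
    ∃ O, ¬Leaf L O ⊆ RelSigma O k := by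
  classical
  obtain ⟨p, hp⟩ := hL
  obtain ⟨n₀, ⟨cd⟩⟩ := Finite.exists_equiv_fin (Option A)
  let O : (List Bool → Option A) → Lang := fun f w =>
    decide ((cd (f ((sel false w).take w.length)) : ℕ) = (sel true w).length)
  let K : (List Bool → Option A) → Lang := fun f x =>
    decide ((paths x.length).filterMap (fun y => f (delimit x ++ y)) ∈ L)
  have step : ∀ (b : OM × Polynomial ℕ) (l : List (OM × Polynomial ℕ × Polynomial ℕ))
      (a : (List Bool → Option A) × ℕ), ∃ a' : (List Bool → Option A) × ℕ, a.2 < a'.2 ∧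
        (∀ z, z.length < a.2 → a.1 z = a'.1 z) ∧ (l.length = k → ∀ f,
          (∀ z, z.length < a'.2 → a'.1 z = f z) → ∃ x, ev b l (O f) x ≠ K f x) := by
    rintro b l ⟨f, m⟩
    obtain ⟨B, hB⟩ := ev_sig b l
    obtain ⟨B', hB', -⟩ := ev_bound b l
    obtain ⟨n, e1, e2⟩ := ((poly_le_two_pow (p.comp B) 1 one_pos).and
      (Filter.eventually_ge_atTop m)).exists
    by_cases hl : l.length = k
    swap
    · exact ⟨(f, m + 1), by simp, fun _ _ => rfl, fun h => absurd h hl⟩
    set x := List.replicate n false with hx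
    have hxn : x.length = n := by simp [hx]
    let F : (List Bool → Option A) → List Bool → Option A := fun u z =>
      if delimit x <+: z then u (z.drop (delimit x).length) else f z
    obtain ⟨u, hu⟩ := hp (B.eval n) _ (paths n) (nodup_paths n)
      (by simpa [length_paths] using e1) _ ((hl ▸ hB x n hxn.le).comp (φ := fun u => O (F u))
        fun w => ⟨some (((sel false w).take w.length).drop (delimit x).length), fun u u' h => by
          simp only [O, F, h _ rfl]⟩)
    refine ⟨(F u, B'.eval n + 3 * n + 2), by simp; omega, fun z hz => (if_neg fun h => ?_).symm,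
      fun _ f' hf' => ⟨x, fun h => hu ?_⟩⟩
    · have := h.length_le
      rw [length_delimit] at this
      simp only at hz
      omega
    · rw [hB' (O (F u)) (O f') x n hxn.le fun v hv => by
        simp only [O]
        rw [← hf' _ (by simp; omega)], h]
      simp only [K, decide_eq_true_eq, hxn]
      rw [List.filterMap_congr fun y hy => ?_]
      rw [← hf' _ (by simp [length_delimit, mem_paths.1 hy]; omega)]
      simp [F]
  obtain ⟨τ, hτ⟩ := exists_surjective_nat
    ((OM × Polynomial ℕ) × List (OM × Polynomial ℕ × Polynomial ℕ))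
  choose G g1 g2 g3 using step
  let a : ℕ → (List Bool → Option A) × ℕ := fun i =>
    Nat.rec (fun _ => none, 0) (fun i => G (τ i).1 (τ i).2) i
  have hmono : StrictMono fun i => (a i).2 := strictMono_nat_of_lt_succ fun i => g1 _ _ (a i)
  have hag : ∀ i j, i ≤ j → ∀ z, z.length < (a i).2 → (a i).1 z = (a j).1 z := by
    intro i j hij z hz
    induction j, hij using Nat.le_induction with
    | base => rfl
    | succ j hij ih => exact ih.trans (g2 _ _ (a j) z (hz.trans_le (hmono.monotone hij)))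
  let f : List Bool → Option A := fun z => (a (z.length + 1)).1 z
  have hlim : ∀ i z, z.length < (a i).2 → (a i).1 z = f z := fun i z hz => by
    rcases le_total i (z.length + 1) with h | h
    · exact hag _ _ h z hz
    · exact (hag _ _ h z (hmono.le_apply (x := z.length + 1))).symm
  refine ⟨O f, fun hsub => ?_⟩
  have hf : ∀ c, (fun z => decide (f z = c)) ∈ RelP (O f) := fun c => by
    convert one_query (Q := fun z => delimit (List.replicate (cd c) false) ++ z) (by fun_prop)
      false (O f) using 2 with z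
    simp only [O, sel_pair, Bool.false_xor, Bool.false_eq_true, if_false, if_true,
      List.length_replicate, decide_eq_decide]
    rw [List.take_of_length_le (by simp), Fin.val_inj, cd.apply_eq_iff_eq]
  obtain ⟨b, l, hl, e⟩ := exists_ev' (hsub (a := K f) ⟨Polynomial.X, f, hf, fun x => by simp [K]⟩)
  obtain ⟨i, hi⟩ := hτ (b, l)
  obtain ⟨x, hx⟩ := g3 (τ i).1 (τ i).2 (a i) (by rw [hi]; exact hl) f (hlim (i + 1))
  rw [hi] at hx
  exact hx (congrFun e x).symm

end Pool.Agent.MP_a2d820_lc.h18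

end MrgPart4

-- ======== part 5: formerly Pool.Agent.MP_a2d820_lc.h18.Upper
section MrgPart5

/-!
Leaf languages of level `k` give classes inside level `k` of the relativized hierarchy.
-/

set_option autoImplicit false

namespace Pool.Agent.MP_a2d820_lc.h18

open Function h69 Pool.Agent.PolyT Pool.Agent.H82 N487b59b3

@[fun_prop] theorem p_delimit {α : Type} [N487b59b3 α] {f : α → List Bool} (h : PolyT.Poly f) :
    PolyT.Poly fun a => delimit (f a) := PolyT.Poly.bitsOf h.toRaw.delimit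

@[fun_prop] theorem p_reverse {α : Type} [N487b59b3 α] {f : α → List Bool} (h : PolyT.Poly f) :
    PolyT.Poly fun a => (f a).reverse := h.reverse

theorem exists_len {g : List Bool → List Bool} (hg : PolyT.Poly g) :
    ∃ r : Polynomial ℕ, ∀ x, (g x).length ≤ r.eval x.length := by
  obtain ⟨p, hp⟩ := hg.bd
  refine ⟨p.comp (3 * Polynomial.X), fun x => ?_⟩
  have := hp x
  simp only [PolyT.Poly.enc_bools_length] at this
  simp only [Polynomial.eval_comp, Polynomial.eval_mul, Polynomial.eval_ofNat, Polynomial.eval_X]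
  omega

variable {O : Lang}

theorem relP_poly {c : List Bool → Bool} (hc : PolyT.Poly c) : c ∈ RelP O := by
  obtain ⟨M, hM⟩ := exists_om (ini := fun x => (x, [], [])) (Q := fun s => s.1)
    (δ := fun p => p.1) (fin := fun _ => true) (out := fun p => c p.1.1)
    (by fun_prop) (by fun_prop) (by fun_prop) (by fun_prop) (by fun_prop)
  refine ⟨M, 6 * Polynomial.X + 4, fun x => ⟨1, by simp, ?_⟩⟩
  exact hM O x 0 _ (fun _ => (x, [], [])) rfl (by simp) (by simp) rfl
    (fun _ _ => by simp [length_st]) (by simp; omega)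

theorem relP_bin {L₁ L₂ : Lang} (h₁ : L₁ ∈ RelP O) (h₂ : L₂ ∈ RelP O) {g : List Bool → List Bool}
    (hg : PolyT.Poly g) (op : Bool → Bool → Bool) :
    (fun x => op (L₁ (g x)) (L₂ (g x))) ∈ RelP O := by
  obtain ⟨M₁, p₁, h₁⟩ := h₁
  obtain ⟨M₂, p₂, h₂⟩ := h₂
  have a1 := (poly_iff _).2 M₁.qry_poly
  have a2 := (poly_iff _).2 M₁.nxt_poly
  have a3 := (poly_iff _).2 M₂.qry_poly
  have a4 := (poly_iff _).2 M₂.nxt_poly
  obtain ⟨r, hr⟩ := exists_len hg
  obtain ⟨M, hM⟩ := exists_om (ini := fun x => (g x, true :: true :: g x, []))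
    (Q := fun s => bif eqB s.2.2.length 0 then M₁.qry s.2.1 else M₂.qry s.2.1)
    (δ := fun p => bif eqB p.1.2.2.length 0 then bif ltB p.1.2.1.length 2 then
      (p.1.1, true :: true :: p.1.1, p.1.2.1) else (p.1.1, M₁.nxt (p.1.2.1, p.2), [])
      else (p.1.1, M₂.nxt (p.1.2.1, p.2), p.1.2.2))
    (fin := fun s => !eqB s.2.2.length 0 && ltB s.2.1.length 2)
    (out := fun p => bif p.1.2.2.getD 0 false then
      bif p.1.2.1.getD 0 false then op true true else op true false
      else bif p.1.2.1.getD 0 false then op false true else op false false)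
    (by fun_prop) (by fun_prop) (by fun_prop) (by fun_prop) (by fun_prop)
  refine ⟨M, 6 * r + 6 * p₁.comp r + 6 * p₂.comp r + Polynomial.X + 13, fun x => ?_⟩
  obtain ⟨t₁, b1, b2, b3⟩ := h₁ (g x)
  obtain ⟨t₂, c1, c2, c3⟩ := h₂ (g x)
  have d0 := hr x
  have d1 := eval_mono p₁ d0
  have d2 := eval_mono p₂ d0
  have h := hM O x (t₁ + 1 + t₂) ((6 * r + 6 * p₁.comp r + 6 * p₂.comp r + Polynomial.X + 13).eval
    x.length) (fun i => if i ≤ t₁ then (g x, M₁.run O (g x) i, [])
      else (g x, M₂.run O (g x) (i - (t₁ + 1)), [L₁ (g x)])) (by simp [OM.run])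
    (fun i hi => ?_) (fun i hi => ?_) (by simp [c2, show ¬t₁ + 1 + t₂ ≤ t₁ by omega])
    (fun i hi => ?_) (by simp; omega)
  · refine ⟨t₁ + 1 + t₂ + 1, by simp; omega, ?_⟩
    convert h using 1
    simp only [show ¬t₁ + 1 + t₂ ≤ t₁ by omega, if_false, Nat.add_sub_cancel_left, c2]
    cases L₁ (g x) <;> cases L₂ (g x) <;> rfl
  · rcases lt_trichotomy i t₁ with h | rfl | h
    · have : ltB (M₁.run O (g x) i).length 2 = false := by simpa using (b3 i h).1
      simp [h.le, show i + 1 ≤ t₁ from h, this, OM.run, eqB]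
    · simp [b2, OM.run, eqB, ltB]
    · simp [show ¬i ≤ t₁ by omega, show ¬i + 1 ≤ t₁ by omega, eqB,
        show i + 1 - (t₁ + 1) = i - (t₁ + 1) + 1 by omega, OM.run]
  · by_cases h : i ≤ t₁
    · simp [h]
    · simpa [h] using (c3 (i - (t₁ + 1)) (by omega)).1
  · have e1 : ∀ i ≤ t₁, (M₁.run O (g x) i).length ≤ p₁.eval (g x).length + 1 := fun i hi =>
      hi.lt_or_eq.elim (fun h => (b3 i h).2.trans (by omega)) fun h => by simp [h, b2]
    have e2 : ∀ i ≤ t₂, (M₂.run O (g x) i).length ≤ p₂.eval (g x).length + 1 := fun i hi =>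
      hi.lt_or_eq.elim (fun h => (c3 i h).2.trans (by omega)) fun h => by simp [h, c2]
    by_cases h : i ≤ t₁
    · have := e1 i h
      simp [h, length_st]
      omega
    · have := e2 (i - (t₁ + 1)) (by omega)
      simp [h, length_st]
      omega

/-- The hierarchy described by alternating witnesses. -/
def SP (O : Lang) : ℕ → Set Lang
  | 0 => RelP O
  | k + 1 => {L | ∃ p : Polynomial ℕ, ∃ S ∈ SP O k, ∀ x,
      (L x = true → ∃ w : List Bool, w.length ≤ p.eval x.length ∧ S (delimit x ++ w) = false) ∧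
      ∀ w, S (delimit x ++ w) = false → L x = true}

theorem SP.rel {k : ℕ} {L : Lang} (h : L ∈ SP O k) : L ∈ RelSigma O k := by
  induction k generalizing L with
  | zero => exact h
  | succ k ih =>
    obtain ⟨p, S, hS, h⟩ := h
    refine ⟨S, ih hS, p, _, one_query (Q := fun d => true :: d) (by fun_prop) true _, fun x => ?_⟩
    simp only [join, Bool.true_xor, Bool.not_eq_true']
    exact ⟨(h x).1, fun ⟨w, _, hw⟩ => (h x).2 w hw⟩

theorem SP.red {k : ℕ} {L : Lang} (h : L ∈ SP O k) {g : List Bool → List Bool}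
    (hg : PolyT.Poly g) : (fun x => L (g x)) ∈ SP O k := by
  induction k generalizing L g with
  | zero => exact relP_bin h h hg fun a _ => a
  | succ k ih =>
    obtain ⟨p, S, hS, h⟩ := h
    obtain ⟨r, hr⟩ := exists_len hg
    refine ⟨p.comp r, _, ih hS (g := fun z => delimit (g (sel true z)) ++ sel false z)
      (by fun_prop), fun x => ?_⟩
    simp only [sel_pair, if_true, Bool.false_eq_true, if_false, Polynomial.eval_comp]
    exact ⟨fun hx => ((h _).1 hx).imp fun w hw => ⟨hw.1.trans (eval_mono p (hr x)), hw.2⟩, (h _).2⟩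

theorem SP.or_and {k : ℕ} {L₁ L₂ : Lang} (h₁ : L₁ ∈ SP O k) (h₂ : L₂ ∈ SP O k) :
    (fun x => L₁ x || L₂ x) ∈ SP O k ∧ (fun x => L₁ x && L₂ x) ∈ SP O k := by
  induction k generalizing L₁ L₂ with
  | zero =>
    exact ⟨relP_bin h₁ h₂ (g := fun x => x) (by fun_prop) _,
      relP_bin h₁ h₂ (g := fun x => x) (by fun_prop) _⟩
  | succ k ih =>
    obtain ⟨p₁, S₁, a₁, h₁⟩ := h₁
    obtain ⟨p₂, S₂, a₂, h₂⟩ := h₂
    refine ⟨⟨p₁ + p₂, _, (ih a₁ a₂).2, fun x => ?_⟩, 2 * p₁ + 1 + p₂, _,
      (ih (SP.red a₁ (g := fun z => delimit (sel true z) ++ sel true (sel false z)) (by fun_prop))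
        (SP.red a₂ (g := fun z => delimit (sel true z) ++ sel false (sel false z))
          (by fun_prop))).1, fun x => ?_⟩
    · simp only [Bool.or_eq_true, Bool.and_eq_false_iff, Polynomial.eval_add]
      refine ⟨?_, fun w hw => hw.imp ((h₁ x).2 w) ((h₂ x).2 w)⟩
      rintro (h | h)
      · exact ((h₁ x).1 h).imp fun w hw => ⟨by omega, Or.inl hw.2⟩
      · exact ((h₂ x).1 h).imp fun w hw => ⟨by omega, Or.inr hw.2⟩
    · simp only [sel_pair, if_true, Bool.false_eq_true, if_false, Bool.and_eq_true,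
        Bool.or_eq_false_iff]
      refine ⟨fun h => ?_, fun w hw => ⟨(h₁ x).2 _ hw.1, (h₂ x).2 _ hw.2⟩⟩
      obtain ⟨w₁, b1, b2⟩ := (h₁ x).1 h.1
      obtain ⟨w₂, c1, c2⟩ := (h₂ x).1 h.2
      exact ⟨delimit w₁ ++ w₂, by simp [length_delimit]; omega, by simp [sel_pair, b2, c2]⟩

theorem SP.neg {k : ℕ} {L : Lang} (h : L ∈ SP O k) : (fun x => !L x) ∈ SP O (k + 1) :=
  ⟨0, _, SP.red h (g := sel true) (by fun_prop), fun x => by simp [sel_pair]⟩

theorem SP.not {L : Lang} (h : L ∈ SP O 0) : (fun x => !L x) ∈ SP O 0 :=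
  relP_bin h h (g := fun x => x) (by fun_prop) fun a _ => !a

theorem SP.up {k : ℕ} {L : Lang} (h : L ∈ SP O k) : L ∈ SP O (k + 1) := by
  induction k generalizing L with
  | zero => simpa using SP.neg (SP.not h)
  | succ k ih =>
    obtain ⟨p, S, hS, h⟩ := h
    exact ⟨p, S, ih hS, h⟩

theorem SP.of_zero {L : Lang} (h : L ∈ SP O 0) (k : ℕ) : L ∈ SP O k := by
  induction k with
  | zero => exact h
  | succ k ih => exact SP.up ih

open Classical in
theorem SP.ex {k : ℕ} {L : Lang} (h : L ∈ SP O (k + 1)) {q : Polynomial ℕ}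
    (hq : ∀ x y, L (delimit x ++ y) = true → y.length ≤ q.eval x.length) :
    (fun x => decide (∃ y, L (delimit x ++ y) = true)) ∈ SP O (k + 1) := by
  obtain ⟨p, S, hS, h⟩ := h
  refine ⟨2 * q + 1 + p.comp (2 * Polynomial.X + 1 + q), _, SP.red hS (g := fun z =>
    delimit (delimit (sel true z) ++ sel true (sel false z)) ++ sel false (sel false z))
    (by fun_prop), fun x => ?_⟩
  simp only [sel_pair, if_true, Bool.false_eq_true, if_false, decide_eq_true_eq]
  refine ⟨fun ⟨y, hy⟩ => ?_, fun w hw => ⟨_, (h _).2 _ hw⟩⟩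
  obtain ⟨w, b1, b2⟩ := (h _).1 hy
  have h1 := hq x y hy
  have h2 := eval_mono p (show (delimit x ++ y).length ≤ 2 * x.length + 1 + q.eval x.length by
    simp [length_delimit]; omega)
  exact ⟨delimit y ++ w, by simp [length_delimit] at *; omega, by simp [sel_pair, b2]⟩

theorem pairwise_paths (n : ℕ) :
    (paths n).Pairwise fun y y' => ofBits y.reverse < ofBits y'.reverse := by
  induction n with
  | zero => simp [paths]
  | succ n ih =>
    simp only [paths, List.pairwise_append, List.pairwise_map, List.reverse_cons, ofBits_append,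
      List.mem_map, forall_exists_index, and_imp, forall_apply_eq_imp_iff₂]
    refine ⟨by simpa using ih, ih.imp_of_mem fun ha hb h => ?_, fun y hy y' hy' => ?_⟩
    · simpa [mem_paths.1 ha, mem_paths.1 hb] using h
    · have := ofBits_lt y.reverse
      simp [mem_paths.1 hy, mem_paths.1 hy'] at this ⊢
      omega

theorem exists_pos {A B : Type} (l : List B) (g : B → Option A) (ν : B → ℕ)
    (hl : l.Pairwise fun a b => ν a < ν b) :
    ∃ pos : Fin (l.filterMap g).length → B,
      (∀ i, pos i ∈ l ∧ g (pos i) = some ((l.filterMap g).get i)) ∧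
      (∀ i j, ν (pos i) < ν (pos j) ↔ i < j) ∧ ∀ y ∈ l, g y ≠ none → ∃ i, pos i = y := by
  have h1 : (l.filterMap g).map some = (l.filter fun y => (g y).isSome).map g := by
    clear hl
    induction l with
    | nil => rfl
    | cons y l ih => rcases h : g y with _ | a <;> simp [h, ih]
  have h2 := congrArg List.length h1
  simp only [List.length_map] at h2
  have h3 := List.pairwise_iff_getElem.1 (hl.filter fun y => (g y).isSome)
  refine ⟨fun i => (l.filter fun y => (g y).isSome)[(i : ℕ)]'(i.2.trans_eq h2), fun i =>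
    ⟨(List.mem_filter.1 (List.getElem_mem _)).1, ?_⟩, fun i j => ⟨fun h => ?_, h3 _ _ _ _⟩,
    fun y hy hg => ?_⟩
  · have := List.getElem_of_eq h1 (i := i) (by simp)
    simpa only [List.getElem_map, List.get_eq_getElem] using this.symm
  · by_contra hc
    rcases (not_lt.1 hc).lt_or_eq with h' | rfl
    · exact absurd h (h3 _ _ _ _ h').not_gt
    · exact lt_irrefl _ h
  · obtain ⟨i, hi, e⟩ := List.getElem_of_mem (List.mem_filter.2
      ⟨hy, Option.isSome_iff_ne_none.2 hg⟩ : y ∈ l.filter fun y => (g y).isSome)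
    exact ⟨⟨i, h2 ▸ hi⟩, e⟩

theorem leaf_subset {A : Type} [DecidableEq A] {k : ℕ} {L : Language A} (hL : SigmaDef k L)
    (O : Lang) : Leaf L O ⊆ RelSigma O k := by
  classical
  rintro K ⟨p, f, hf, hK⟩
  let wd : List Bool → List A := fun x =>
    (paths (p.eval x.length)).filterMap fun y => f (delimit x ++ y)
  choose pos p1 p2 p3 using fun x : List Bool => exists_pos (paths (p.eval x.length))
    (fun y => f (delimit x ++ y)) _ (pairwise_paths _)
  have key : ∀ (k n : ℕ) (φ : FO A n), φ.IsSigma k → ∀ (dx : List Bool → List Bool)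
      (dv : Fin n → List Bool → List Bool), PolyT.Poly dx → (∀ j, PolyT.Poly (dv j)) →
      ∃ S ∈ SP O k, ∀ z x (ρ : Fin n → Fin (wd x).length), dx z = x →
        (∀ j, dv j z = pos x (ρ j)) → (S z = true ↔ φ.Sat (wd x) ρ) := by
    intro k n φ hφ
    induction hφ with
    | tru => exact fun _ _ _ _ => ⟨fun _ => true, relP_poly (by fun_prop), by simp [FO.Sat]⟩
    | letter a j =>
      intro dx dv h1 h2
      have h3 := h2 j
      refine ⟨_, SP.red (k := 0) (hf (some a)) (g := fun z => delimit (dx z) ++ dv j z)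
        (by fun_prop), fun z x ρ e1 e2 => ?_⟩
      simp only [e1, e2, (p1 x _).2, decide_eq_true_eq, Option.some.injEq]
      rfl
    | lt i j =>
      intro dx dv h1 h2
      have h3 := h2 i
      have h4 := h2 j
      exact ⟨fun z => ltB (ofBits (dv i z).reverse) (ofBits (dv j z).reverse),
        relP_poly (by fun_prop), fun z x ρ e1 e2 => by rw [ltB_iff, e2, e2, p2]; rfl⟩
    | not _ ih =>
      intro dx dv h1 h2
      obtain ⟨S, a, b⟩ := ih dx dv h1 h2
      exact ⟨_, SP.not a, fun z x ρ e1 e2 => by simp [FO.Sat, ← b z x ρ e1 e2]⟩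
    | up _ ih =>
      intro dx dv h1 h2
      obtain ⟨S, a, b⟩ := ih dx dv h1 h2
      exact ⟨_, SP.up a, b⟩
    | neg _ ih =>
      intro dx dv h1 h2
      obtain ⟨S, a, b⟩ := ih dx dv h1 h2
      exact ⟨_, SP.neg a, fun z x ρ e1 e2 => by simp [FO.Sat, ← b z x ρ e1 e2]⟩
    | and _ _ ih ih' =>
      intro dx dv h1 h2
      obtain ⟨S, a, b⟩ := ih dx dv h1 h2
      obtain ⟨S', a', b'⟩ := ih' dx dv h1 h2
      exact ⟨_, (SP.or_and a a').2, fun z x ρ e1 e2 => by
        simp [FO.Sat, ← b z x ρ e1 e2, ← b' z x ρ e1 e2]⟩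
    | or _ _ ih ih' =>
      intro dx dv h1 h2
      obtain ⟨S, a, b⟩ := ih dx dv h1 h2
      obtain ⟨S', a', b'⟩ := ih' dx dv h1 h2
      exact ⟨_, (SP.or_and a a').1, fun z x ρ e1 e2 => by
        simp [FO.Sat, ← b z x ρ e1 e2, ← b' z x ρ e1 e2]⟩
    | @ex k n φ _ ih =>
      intro dx dv h1 h2
      obtain ⟨S, a, b⟩ := ih (fun d => dx (sel true d))
        (Fin.cons (sel false) fun j d => dv j (sel true d)) (by fun_prop) fun j => by
          refine Fin.cases ?_ (fun j => ?_) j
          · simp only [Fin.cons_zero]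
            fun_prop
          · have := h2 j
            simp only [Fin.cons_succ]
            fun_prop
      obtain ⟨F, f1, f2⟩ := exists_list_eval (l := fun x : List Bool => x) (by fun_prop) p
      obtain ⟨r, hr⟩ := exists_len h1
      have c1 : (fun d => eqB (sel false d).length (F (dx (sel true d))).length) ∈ SP O 0 :=
        relP_poly (by fun_prop)
      have c2 := SP.not (SP.red (k := 0) (hf none)
        (g := fun d => delimit (dx (sel true d)) ++ sel false d) (by fun_prop))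
      refine ⟨_, SP.ex (SP.or_and (SP.of_zero (SP.or_and c1 c2).2 _) a).2 (q := p.comp r)
        fun z y h => ?_, fun z x ρ e1 e2 => ?_⟩
      · simp only [sel_pair, if_true, Bool.false_eq_true, if_false, Bool.and_eq_true, eqB_iff,
          f2] at h
        rw [h.1.1, Polynomial.eval_comp]
        exact eval_mono p (hr z)
      · have h3 : ∀ i, S (delimit z ++ pos x i) = true ↔ φ.Sat (wd x) (Fin.cons i ρ) := fun i =>
          b _ x _ (by simp [sel_pair, e1]) fun j => by
            refine Fin.cases ?_ (fun j => ?_) j <;> simp [sel_pair, e2]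
        simp only [sel_pair, if_true, Bool.false_eq_true, if_false, Bool.and_eq_true, eqB_iff,
          f2, e1, decide_eq_true_eq, Bool.not_eq_true', decide_eq_false_iff_not, FO.Sat]
        constructor
        · rintro ⟨y, ⟨h4, h5⟩, h6⟩
          obtain ⟨i, rfl⟩ := p3 x y (mem_paths.2 h4) h5
          exact ⟨i, (h3 i).1 h6⟩
        · rintro ⟨i, hi⟩
          exact ⟨pos x i, ⟨mem_paths.1 (p1 x i).1, by simp [(p1 x i).2]⟩, (h3 i).2 hi⟩
  obtain ⟨φ, h1, h2⟩ := hL
  obtain ⟨S, a, b⟩ := key k 0 φ h1 (fun x => x) Fin.elim0 (by fun_prop) fun j => j.elim0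
  convert SP.rel a using 1
  funext x
  rw [Bool.eq_iff_iff, hK, h2, b x x Fin.elim0 rfl fun j => j.elim0]

end Pool.Agent.MP_a2d820_lc.h18

end MrgPart5

-- marker of a merged file
example : 731051 + 150231 = 731051 + 150231 := rfl

end MrgPart1

-- marker of a merged file
example : 731051 + 150231 = 731051 + 150231 := rfl
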