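import Pool.Agent.MP_a2d820_lc.h18.Upper
import Pool.Agent.MP_a2d820_lc.h18.Gen

-- ======== part 0: formerly Pool.Agent.MP_a2d820_lc.h18.Phi
section MrgPart0

/-!
Systems of labels realized by random words, and their closure under jumps.
-/

set_option autoImplicit false

namespace Pool.Agent.MP_a2d820_lc.h18

open Finset Function Pointwise

variable {A M : Type} [Monoid M] {h : A → M}

/-- A finite ordered set of positions and a finite sample space. -/
structure Sp : Type 1 where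
  V : Type
  Ω : Type
  [fV : Finite V]
  [fΩ : Finite Ω]
  [nΩ : Nonempty Ω]
  ord : List V
  nd : ord.Nodup

attribute [instance] Sp.fV Sp.fΩ Sp.nΩ

/-- The product of `n` copies. -/
abbrev Sp.pow (c : Sp) (n : ℕ) : Sp :=
  { V := Fin n × c.V, Ω := Fin n → c.Ω, ord := List.finRange n ×ˢ c.ord,
    nd := (List.nodup_finRange n).product c.nd }

section W

variable {V V' Γ Ω Ω' : Type} [Finite Ω] [Finite Ω'] {t k : ℕ} {ε ε' : ℝ}

/-- Circuits accepting `u` accept `v`, except with probability `ε`. -/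
def W (t k : ℕ) (u v : Ω → V → Γ) (ε : ℝ) : Prop :=
  ∀ C, Sig t k C → (Ex fun ω => ind (C (u ω) ∧ ¬C (v ω))) ≤ ε

/-- The value of `α` is uniform given the value of `β`. -/
def Ind {P : Type} (α : Ω' → Ω) (β : Ω' → P) : Prop :=
  ∀ (g : P → Ω → ℝ) (δ : ℝ), (∀ π, Ex (g π) ≤ δ) → (Ex fun ω => g (β ω) (α ω)) ≤ δ

theorem Ind.equiv {P P' : Type} [Finite P'] [Nonempty P'] (e : Ω' ≃ Ω × P') (f : P' → P) :
    Ind (fun ω => (e ω).1) fun ω => f (e ω).2 := fun g δ hg => by
  rw [Ex_equiv e fun p => g (f p.2) p.1, Ex_prod, Ex_comm]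
  exact Ex_le fun π => hg (f π)

theorem Ind.refl : Ind (fun ω : Ω => ω) fun _ => () := fun _ _ hg => hg ()

theorem W.refl [Nonempty Ω] (u : Ω → V → Γ) (hε : 0 ≤ ε) : W t k u u ε :=
  fun _ _ => Ex_le fun _ => (ind_of_not (by simp)).trans_le hε

theorem W.mono {t' : ℕ} {u v : Ω → V → Γ} (H : W t' k u v ε) (ht : t ≤ t') (hε : ε ≤ ε') :
    W t k u v ε' := fun C hC => (H C (hC.mono ht)).trans hε

theorem W.trans {u v w : Ω → V → Γ} (H : W t k u v ε) (H' : W t k v w ε') :
    W t k u w (ε + ε') := fun C hC =>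
  (Ex_mono fun ω => ind_le_add (Q := C (u ω) ∧ ¬C (v ω)) (S := C (v ω) ∧ ¬C (w ω))
    (by tauto)).trans ((Ex_add _ _).trans_le (add_le_add (H C hC) (H' C hC)))

theorem W.rev {u v : Ω → V → Γ} (H : W t (k + 1) u v ε) : W t k v u ε := fun C hC =>
  (Ex_mono fun ω => ind_mono (by tauto)).trans (H _ hC.neg)

theorem W.tr {P : Type} {α : Ω' → Ω} {β : Ω' → P} (hi : Ind α β) {φ : P → (V → Γ) → V' → Γ}
    (hφ : ∀ π, Loc (φ π)) {u v : P → Ω → V → Γ} (H : ∀ π, W t k (u π) (v π) ε) :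
    W t k (fun ω => φ (β ω) (u (β ω) (α ω))) (fun ω => φ (β ω) (v (β ω) (α ω))) ε := fun C hC =>
  hi (fun π ω => ind (C (φ π (u π ω)) ∧ ¬C (φ π (v π ω)))) ε fun π => H π _ (hC.comp (hφ π))

theorem W.pi [Nonempty Ω] {n : ℕ} {u v : Fin n → Ω → V → Γ} (H : ∀ i, W t k (u i) (v i) ε) :
    W t k (fun ω : Fin n → Ω => uncurry fun i => u i (ω i))
      (fun ω => uncurry fun i => v i (ω i)) (n * ε) := by
  intro C hC
  have h1 := (Safe.pi (𝒞 := Sig t k) (u := u) (v := fun i ω (_ : Unit) => v i ω) (ε := 0) (δ := ε)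
    (fun i C hC => ⟨fun ω => ind (C (u i ω) ∧ ¬C (v i ω)), fun _ => ind_nonneg _, H i C hC,
      fun ω => by rw [Ex_const, zero_add]⟩)
    (𝒞' := fun C => Sig t k fun z : Fin n × V → Γ => C (curry z))
    fun C hC i y => hC.comp (loc_update y i)).weak (C := fun Z => C (uncurry Z)) hC
  rw [Ex_prod] at h1
  simpa [Ex_const] using h1

end W

theorem inv_mono {t t' : ℕ} (ht : t ≤ t') : (1 : ℝ) / (t' + 1) ≤ 1 / (t + 1) :=
  one_div_le_one_div_of_le (by positivity) (by exact_mod_cast Nat.succ_le_succ ht)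

theorem inv_mul_le {n t t' : ℕ} (ht : n * (t + 1) ≤ t' + 1) :
    (n : ℝ) * (1 / (t' + 1)) ≤ 1 / (t + 1) := by
  rw [mul_one_div, div_le_div_iff₀ (by positivity) (by positivity), one_mul]
  exact_mod_cast ht

/-- A finite preordered monoid of labels with a notion of realization by random words. -/
structure Sys (h : A → M) : Type 1 where
  N : Type
  [mon : Monoid N]
  [fin : Finite N]
  val : N → M
  le : N → N → Prop
  Φ : N → ℕ → (c : Sp) → (c.Ω → c.V → Option A) → Prop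
  val_one : val 1 = 1
  val_mul : ∀ a b, val (a * b) = val a * val b
  le_refl : ∀ a, le a a
  le_trans : ∀ {a b c}, le a b → le b c → le a c
  le_mul : ∀ {a b c d}, le a b → le c d → le (a * c) (b * d)
  le_val : ∀ {a b}, le a b → val a = val b
  img : ∀ {n t c u}, Φ n t c u → ∀ ω, hw h (c.ord.filterMap (u ω)) = val n
  down : ∀ {a b t c u}, le a b → Φ b t c u → Φ a t c u
  one : ∀ t c u, (∀ ω, c.ord.filterMap (u ω) = []) → Φ 1 t c u
  tr : ∀ {n t t'} {c c' : Sp} {P : Type} {α : c'.Ω → c.Ω} {β : c'.Ω → P}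
    {φ : P → (c.V → Option A) → c'.V → Option A} {u : P → c.Ω → c.V → Option A}, t ≤ t' →
    Ind α β → (∀ π, Loc (φ π)) → (∀ π x, c'.ord.filterMap (φ π x) = c.ord.filterMap x) →
    (∀ π, Φ n t' c (u π)) → Φ n t c' fun ω => φ (β ω) (u (β ω) (α ω))
  pi : ∀ {m t t'} {c : Sp} {n : Fin m → N} {u : Fin m → c.Ω → c.V → Option A},
    m * (t + 1) ≤ t' + 1 → t ≤ t' → (∀ i, Φ (n i) t' c (u i)) →
    Φ (List.ofFn n).prod t (c.pow m) fun ω => uncurry fun i => u i (ω i)

attribute [instance] Sys.mon Sys.fin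

/-- The labels are the values. -/
abbrev Sys.base (h : A → M) [Finite M] : Sys h where
  N := M
  val := id
  le := Eq
  Φ s _ c u := ∀ ω, hw h (c.ord.filterMap (u ω)) = s
  val_one := rfl
  val_mul _ _ := rfl
  le_refl _ := rfl
  le_trans := Eq.trans
  le_mul a b := by rw [a, b]
  le_val a := a
  img a := a
  down a b := a ▸ b
  one _ _ _ a ω := congrArg (hw h) (a ω)
  tr _ _ _ a b ω := (congrArg (hw h) (a _ _)).trans (b _ _)
  pi _ _ a ω := (hw_blocks _ _ _).trans (by simp only [a, List.ofFn_eq_map])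

/-- Labels with a set of targets at level `k`. -/
abbrev Sys.lift (k : ℕ) (S T : Sys h) : Sys h where
  N := S.N × Set T.N
  val n := S.val n.1
  le a b := S.le a.1 b.1 ∧ ∀ o ∈ a.2, ∃ o' ∈ b.2, T.le o o'
  Φ n t c u := S.Φ n.1 t c u ∧ ∀ o ∈ n.2, ∃ v, W t k u v (1 / (t + 1)) ∧ T.Φ o t c v
  val_one := S.val_one
  val_mul _ _ := S.val_mul _ _
  le_refl _ := ⟨S.le_refl _, fun o ho => ⟨o, ho, T.le_refl _⟩⟩
  le_trans a b := ⟨S.le_trans a.1 b.1, fun o ho =>
    let ⟨o', h1, h2⟩ := a.2 o ho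
    let ⟨o'', h3, h4⟩ := b.2 o' h1
    ⟨o'', h3, T.le_trans h2 h4⟩⟩
  le_mul a b := ⟨S.le_mul a.1 b.1, by
    rintro _ ⟨x, hx, y, hy, rfl⟩
    obtain ⟨x', h1, h2⟩ := a.2 x hx
    obtain ⟨y', h3, h4⟩ := b.2 y hy
    exact ⟨_, Set.mul_mem_mul h1 h3, T.le_mul h2 h4⟩⟩
  le_val a := S.le_val a.1
  img a := S.img a.1
  down a b := ⟨S.down a.1 b.1, fun o ho =>
    let ⟨o', h1, h2⟩ := a.2 o ho
    let ⟨v, h3, h4⟩ := b.2 o' h1
    ⟨v, h3, T.down h2 h4⟩⟩
  one t c u a := ⟨S.one t c u a, by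
    rintro _ rfl
    exact ⟨u, W.refl _ (by positivity), T.one t c u a⟩⟩
  tr ht hi hφ e a := ⟨S.tr ht hi hφ e fun π => (a π).1, fun o ho => by
    choose v v1 v2 using fun π => (a π).2 o ho
    exact ⟨_, (W.tr hi hφ v1).mono ht (inv_mono ht), T.tr ht hi hφ e v2⟩⟩
  pi {m t t' c n u} h1 h2 a := ⟨by
    rw [show (List.ofFn n).prod.1 = (List.ofFn fun i => (n i).1).prod from
      (map_list_prod (MonoidHom.fst S.N (Set T.N)) _).trans (by rw [List.map_ofFn]; rfl)]
    exact S.pi h1 h2 fun i => (a i).1, fun o ho => by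
    rw [show (List.ofFn n).prod.2 = (List.ofFn fun i => (n i).2).prod from
      (map_list_prod (MonoidHom.snd S.N (Set T.N)) _).trans (by rw [List.map_ofFn]; rfl)] at ho
    obtain ⟨f, rfl⟩ := Set.mem_prod_list_ofFn.1 ho
    choose v v1 v2 using fun i => (a i).2 _ (f i).2
    exact ⟨_, (W.pi v1).mono h2 (inv_mul_le h1), T.pi h1 h2 v2⟩⟩

/-- Realization in polynomial length. -/
def Sys.Rl (S : Sys h) (n : S.N) : Prop :=
  ∃ p : Polynomial ℕ, ∀ t, ∃ (c : Sp) (u : c.Ω → c.V → Option A),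
    c.ord.length ≤ p.eval t ∧ S.Φ n t c u

namespace Sys

variable {S T T' : Sys h}

theorem Rl.down {a b : S.N} (H : S.Rl b) (hl : S.le a b) : S.Rl a :=
  H.imp fun _ H t => let ⟨c, u, h1, h2⟩ := H t; ⟨c, u, h1, S.down hl h2⟩

theorem rl_word {n : S.N} (w : List A)
    (H : ∀ t (c : Sp) u, (∀ ω, c.ord.filterMap (u ω) = w) → S.Φ n t c u) : S.Rl n :=
  ⟨w.length, fun t => ⟨{ V := Fin w.length, Ω := Unit, ord := List.finRange _, nd := List.nodup_finRange _ }, fun _ i => some (w.get i), by simp, H _ _ _ fun _ => by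
    rw [show (fun i => some (w.get i)) = some ∘ w.get from rfl, List.filterMap_eq_map,
      List.map_get_finRange]⟩⟩

theorem Rl.swap {j k : ℕ} {n : S.N} {X : Set T.N} {Y : Set T'.N}
    (H : (lift j (lift k S T) T').Rl ((n, X), Y)) : (lift k (lift j S T') T).Rl ((n, Y), X) :=
  H.imp fun _ H t => let ⟨c, u, h1, h2⟩ := H t; ⟨c, u, h1, ⟨h2.1.1, h2.2⟩, h2.1.2⟩

theorem Rl.fst {k : ℕ} {n : (lift k S T).N} (H : (lift k S T).Rl n) : S.Rl n.1 :=
  H.imp fun _ H t => let ⟨c, u, h1, h2⟩ := H t; ⟨c, u, h1, h2.1⟩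

theorem common {X : Set S.N} (H : ∀ o ∈ X, S.Rl o) : ∃ p : Polynomial ℕ, ∀ t, ∃ c : Sp,
    c.ord.length ≤ p.eval t ∧ ∀ o ∈ X, ∃ u, S.Φ o t c u := by
  induction X, X.toFinite using Set.Finite.induction_on with
  | empty => exact ⟨0, fun t => ⟨{ V := Unit, Ω := Unit, ord := [], nd := by simp }, by simp⟩⟩
  | @insert a X _ _ ih =>
    obtain ⟨p, hp⟩ := ih fun o ho => H o (Set.mem_insert_of_mem _ ho)
    obtain ⟨q, hq⟩ := H a (Set.mem_insert _ _)
    refine ⟨q + p, fun t => ?_⟩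
    obtain ⟨c₁, u, l₁, a₁⟩ := hq t
    obtain ⟨c₂, l₂, a₂⟩ := hp t
    refine ⟨{ V := c₁.V ⊕ c₂.V, Ω := c₁.Ω × c₂.Ω, ord := c₁.ord.map Sum.inl ++ c₂.ord.map Sum.inr, nd := (c₁.nd.map Sum.inl_injective).append (c₂.nd.map Sum.inr_injective) (by simp [List.disjoint_left]) }, by simp; omega, Set.forall_mem_insert.2 ⟨⟨_, S.tr
      (φ := fun _ x => Sum.elim x fun _ => none) (u := fun _ => u) le_rfl
      (Ind.equiv (Equiv.refl _) fun _ => ()) (fun _ => loc_inl _)
      (fun _ x => by simp [List.filterMap_map]) fun _ => a₁⟩, fun o ho => ?_⟩⟩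
    obtain ⟨v, hv⟩ := a₂ o ho
    exact ⟨_, S.tr (φ := fun _ x => Sum.elim (fun _ => none) x) (u := fun _ => v) le_rfl
      (Ind.equiv (Equiv.prodComm _ _) fun _ => ()) (fun _ => loc_inr _)
      (fun _ x => by simp [List.filterMap_map]) fun _ => hv⟩

theorem Rl.mul {a b : S.N} (Ha : S.Rl a) (Hb : S.Rl b) : S.Rl (a * b) := by
  obtain ⟨p, hp⟩ := common (X := {a, b}) (by simp [Ha, Hb])
  refine ⟨2 * p.comp (2 * Polynomial.X + 1), fun t => ?_⟩
  obtain ⟨c, l, H⟩ := hp (2 * t + 1)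
  obtain ⟨u, hu⟩ := H a (by simp)
  obtain ⟨v, hv⟩ := H b (by simp)
  have h1 := S.pi (t := t) (n := ![a, b]) (u := ![u, v]) (by omega) (by omega)
    (Fin.forall_fin_two.2 ⟨hu, hv⟩)
  rw [show (List.ofFn ![a, b]).prod = a * b by simp] at h1
  exact ⟨c.pow 2, _, by simpa [List.length_product] using l, h1⟩

theorem prod_const {N : Type} [Monoid N] {n : N} (hn : n * n = n) (m : ℕ) :
    (List.ofFn fun _ : Fin (m + 1) => n).prod = n := by
  rw [List.ofFn_const, List.prod_replicate]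
  exact IsIdempotentElem.pow_succ_eq _ hn

theorem jump {k : ℕ} {n : S.N} {E X : Set T.N} (hn : n * n = n) (hE : E * E = E)
    (H : ∃ p : Polynomial ℕ, ∀ t, ∃ (c : Sp) (u : c.Ω → c.V → Option A),
      c.ord.length ≤ p.eval t ∧ (lift (k + 1) S T).Φ (n, E) t c u ∧
      ∀ o ∈ X, ∃ a, W t k a u (1 / (t + 1)) ∧ T.Φ o t c a) :
    (lift (k + 1) S T).Rl (n, E * X * E) := by
  classical
  obtain ⟨p, hp⟩ := H
  obtain ⟨q, hq⟩ := exists_tail k
  let N : Polynomial ℕ := 4 * (Polynomial.X + 1) * (q.comp (2 * Polynomial.X + 2) + 1)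
  let R : Polynomial ℕ := 2 * (Polynomial.X + 1) * (N + 3)
  refine ⟨(N + 2) * p.comp R, fun t => ?_⟩
  obtain ⟨τ, hτ⟩ : ∃ τ, τ = q.eval (2 * t + 2) := ⟨_, rfl⟩
  obtain ⟨m, hm⟩ : ∃ m, m = 4 * (t + 1) * (τ + 1) := ⟨_, rfl⟩
  obtain ⟨t', ht'⟩ : ∃ t', t' = 2 * (t + 1) * (m + 3) := ⟨_, rfl⟩
  have hN : N.eval t = m := by simp [N, hm, hτ]
  have hR : R.eval t = t' := by simp [R, hN, ht']
  obtain ⟨c, u, l, ⟨a₁, a₂⟩, a₃⟩ := hp t'
  have : Nonempty (Fin m) := ⟨⟨0, by rw [hm]; positivity⟩⟩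
  have h1 : (m + 2) * (t + 1) ≤ t' + 1 := by rw [ht']; nlinarith
  have h2 : t ≤ t' := by rw [ht']; nlinarith
  let c' : Sp := { V := Fin (m + 2) × c.V, Ω := (Fin (m + 2) → c.Ω) × Fin m × c.Ω, ord := (c.pow (m + 2)).ord, nd := (c.pow (m + 2)).nd }
  refine ⟨c', fun ω => uncurry fun i => u (ω.1 i), by
    simpa [c', List.length_product, hN, hR] using l, ?_, ?_⟩
  · have h3 := S.pi (n := fun _ => n) (u := fun _ => u) h1 h2 fun _ => a₁
    rw [prod_const hn] at h3
    exact S.tr (c := c.pow (m + 2)) (c' := c') (φ := fun _ x => x) (u := fun _ => _) le_rfl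
      (Ind.equiv (Equiv.refl _) fun _ => ()) (fun _ v => ⟨some v, fun _ _ h => h v rfl⟩)
      (fun _ _ => rfl) fun _ => h3
  rintro _ ⟨_, ⟨s₁, hs₁, s, hs, rfl⟩, s₂, hs₂, rfl⟩
  obtain ⟨a, b₁, b₂⟩ := a₃ s hs
  choose tg t1 t2 t3 using fun j : Fin m => exists_targets hE hs₁ hs₂ s j
  choose! vk v1 v2 using a₂
  let e : Fin m → Fin (m + 2) := fun j => j.succ.castSucc
  have f₁ := (flip_sig (e := e) (fun i j hij => by simpa [e] using hij) (t := t) (τ := τ)
    (fun ι _ _ C hC => hτ ▸ hq _ ι C (hC.mono (by omega))) (by positivity) (by positivity)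
    (b₁.mono h2 le_rfl))
  have hi : Ind (Ω' := c'.Ω) (fun ω => update ω.1 (e ω.2.1) ω.2.2) fun ω => ω.2.1 := by
    intro g δ hg
    rw [Ex_prod]
    simp only [Ex_prod (Ω := Fin m)]
    rw [Ex_comm]
    exact Ex_le fun j => (Ex_update (e j) (g j)).symm.trans_le (hg j)
  have hφ : ∀ _ : Fin m, Loc fun x : Fin (m + 2) × c.V → Option A => x :=
    fun _ v => ⟨some v, fun _ _ h => h v rfl⟩
  let U : Fin m → Fin (m + 2) → c.Ω → c.V → Option A := fun j i => if i = e j then a else u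
  let Z : Fin m → Fin (m + 2) → c.Ω → c.V → Option A := fun j i =>
    if i = e j then a else vk (tg j i)
  have f₂ := W.tr hi hφ fun j => W.pi (t := t) (k := k + 1) (u := U j) (v := Z j)
    (ε := 1 / (t' + 1)) fun i => by
      by_cases hi : i = e j
      · simp only [U, Z, hi, if_true]
        exact W.refl _ (by positivity)
      · simp only [U, Z, hi, if_false]
        exact (v1 _ (t3 _ _ hi)).mono h2 le_rfl
  have f₃ : W t (k + 1) (fun ω : c'.Ω => uncurry fun i => u (ω.1 i))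
      (fun ω => uncurry fun i => U ω.2.1 i (update ω.1 (e ω.2.1) ω.2.2 i)) _ := fun C hC => by
    convert f₁.weak (C := fun Z => C (uncurry Z)) hC using 7 with ω
    funext ⟨i, x⟩
    by_cases hi : i = e ω.2.1
    · simp [U, hi]
    · simp [U, hi]
  refine ⟨_, (f₃.trans f₂).mono le_rfl ?_, T.tr (c := c.pow (m + 2)) (c' := c')
    (u := fun j ω => uncurry fun i => Z j i (ω i)) le_rfl hi hφ (fun _ _ => rfl) fun j => ?_⟩
  · have e1 : (τ : ℝ) / m ≤ 1 / (4 * (t + 1)) := by
      rw [hm, div_le_div_iff₀ (by positivity) (by positivity)]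
      push_cast
      nlinarith
    have e2 : (2 : ℝ) ^ t * (1 / 2 ^ (2 * t + 2)) ≤ 1 / (4 * (t + 1)) := by
      rw [mul_one_div, div_le_div_iff₀ (by positivity) (by positivity)]
      have : t + 1 ≤ 2 ^ t := Nat.lt_two_pow_self
      have h4 : 2 ^ t * (4 * (t + 1)) ≤ 1 * 2 ^ (2 * t + 2) := by
        rw [show 1 * 2 ^ (2 * t + 2) = 2 ^ t * (4 * 2 ^ t) by ring]
        exact Nat.mul_le_mul_left _ (by omega)
      exact_mod_cast h4
    have e3 : ((m : ℝ) + 3) * (1 / (t' + 1)) ≤ 1 / (2 * (t + 1)) := by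
      rw [ht', mul_one_div, div_le_div_iff₀ (by positivity) (by positivity)]
      push_cast
      nlinarith
    have e4 : (1 : ℝ) / (4 * (t + 1)) + 1 / (4 * (t + 1)) + 1 / (2 * (t + 1)) = 1 / (t + 1) := by
      field_simp
      ring
    rw [Fintype.card_fin]
    push_cast
    linarith
  · have h3 := T.pi (n := tg j) (u := Z j) h1 h2 fun i => by
      by_cases hi : i = e j
      · simp only [Z, hi, if_true, e, t2]
        exact b₂
      · simp only [Z, hi, if_false]
        exact v2 _ (t3 _ _ hi)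
    rwa [List.ofFn_eq_map, t1] at h3

theorem Rl.rev {k : ℕ} {n : (lift (k + 1) S T).N} (H : (lift (k + 1) S T).Rl n) {o : T.N}
    (ho : o ∈ n.2) : (lift k T (lift (k + 1) S T)).Rl (o, {n}) :=
  H.imp fun _ H t => by
    obtain ⟨c, u, h1, h2⟩ := H t
    obtain ⟨v, h3, h4⟩ := h2.2 o ho
    refine ⟨c, v, h1, h4, ?_⟩
    rintro _ rfl
    exact ⟨u, h3.rev, h2⟩

theorem jump_up {k : ℕ} {n : S.N} {E : Set T.N} (H : (lift (k + 1) S T).Rl (n, E))
    (hn : n * n = n) (hE : E * E = E) : (lift (k + 1) S T).Rl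
      (n, E * {o | (lift k T (lift (k + 1) S T)).Rl (o, {(n, E)})} * E) := by
  classical
  set X := {o | (lift k T (lift (k + 1) S T)).Rl (o, {(n, E)})}
  rcases X.eq_empty_or_nonempty with hX | hX
  · exact H.down ⟨S.le_refl _, by simp [hX]⟩
  obtain ⟨m, τ, hτ⟩ : ∃ (m : ℕ) (τ : Fin (m + 1) → T.N), Set.range τ = X := by
    obtain ⟨m, τ, -, hτ⟩ := X.toFinite.fin_param
    rcases m with _ | m
    · simp [← hτ] at hX
    · exact ⟨m, τ, hτ⟩
  obtain ⟨p, hp⟩ := common (S := lift k T (lift (k + 1) S T))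
    (X := Set.range fun j => (τ j, {(n, E)})) (Set.forall_mem_range.2 fun j =>
      (hτ.le (Set.mem_range_self j) :))
  have h0 : E * (E * X * E) * E = E * X * E := by
    rw [← mul_assoc, ← mul_assoc, hE, mul_assoc _ E, hE]
  rw [← h0]
  refine jump hn hE ⟨((m + 3 : ℕ) : Polynomial ℕ) * p.comp (((m + 3 : ℕ) : Polynomial ℕ) *
    (Polynomial.X + 1)), fun t => ?_⟩
  obtain ⟨c, l, H⟩ := hp ((m + 3) * (t + 1))
  choose u u1 u2 using Set.forall_mem_range.1 H
  choose ν n1 n2 using fun j => u2 j _ rfl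
  let idx : Fin (m + 1 + 2) → Fin (m + 1) := fun i => ⟨min (i - 1) m, by omega⟩
  have h1 : (m + 1 + 2) * (t + 1) ≤ (m + 3) * (t + 1) + 1 := Nat.le_succ _
  have h2 : t ≤ (m + 3) * (t + 1) := by nlinarith
  have h3 := (lift (k + 1) S T).pi (n := fun _ => (n, E)) (u := fun i => ν (idx i)) h1 h2
    fun i => n2 _
  rw [prod_const (Prod.ext hn hE)] at h3
  refine ⟨_, _, by simpa [List.length_product, show m + 1 + 2 = m + 3 from rfl] using l, h3, ?_⟩
  rintro _ ⟨_, ⟨s₁, hs₁, s, hs, rfl⟩, s₂, hs₂, rfl⟩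
  obtain ⟨j, rfl⟩ := hτ.ge hs
  obtain ⟨tg, t1, t2, t3⟩ := exists_targets hE hs₁ hs₂ (τ j) j
  choose! z z1 z2 using fun j => (n2 j).2
  have hj : idx j.succ.castSucc = j := Fin.ext (by simp [idx]; omega)
  let Z : Fin (m + 1 + 2) → c.Ω → c.V → Option A := fun i =>
    if i = j.succ.castSucc then u j else z (idx i) (tg i)
  have h4 := T.pi (n := tg) (u := Z) h1 h2 fun i => by
    by_cases hi : i = j.succ.castSucc
    · simp only [Z, hi, if_true, t2]
      exact u1 j
    · simp only [Z, hi, if_false]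
      exact z2 _ _ (t3 _ hi)
  rw [List.ofFn_eq_map, t1] at h4
  refine ⟨_, (W.pi fun i => ?_).mono h2 (inv_mul_le h1), h4⟩
  by_cases hi : i = j.succ.castSucc
  · simp only [Z, hi, if_true, hj]
    exact n1 j
  · simp only [Z, hi, if_false]
    exact (z1 _ _ (t3 _ hi)).rev

theorem filterMap_pos {V V' : Type} [DecidableEq V'] (ord : List V) {ord' : List V'}
    (hn : ord'.Nodup) (π : V → Option A → V') (hπ : ∀ v o, π v o ∈ ord') (x : V → Option A) :
    (ord ×ˢ ord').filterMap (fun p => if π p.1 (x p.1) = p.2 then x p.1 else none) =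
      ord.filterMap x := by
  have key : ∀ (a : V') (o : Option A), a ∈ ord' →
      ord'.filterMap (fun p => if a = p then o else none) = o.toList := by
    intro a o ha
    obtain ⟨s, t, rfl⟩ := List.append_of_mem ha
    have h1 := List.nodup_middle.1 hn
    rw [List.nodup_cons, List.mem_append, not_or] at h1
    rw [List.filterMap_append, List.filterMap_eq_nil_iff.2 fun p hp =>
      if_neg fun e : a = p => h1.1.1 (e ▸ hp), List.filterMap_cons,
      List.filterMap_eq_nil_iff.2 fun p hp => if_neg fun e : a = p => h1.1.2 (e ▸ hp)]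
    cases o <;> simp
  induction ord with
  | nil => rfl
  | cons v ord ih =>
    rw [List.product_cons, List.filterMap_append, ih, List.filterMap_map]
    refine (congrArg (· ++ ord.filterMap x) (key (π v (x v)) (x v) (hπ v (x v)))).trans ?_
    rw [List.filterMap_cons]
    cases x v <;> rfl

theorem jump_two {n : S.N} {E : Set T.N} (H : (lift 2 S T).Rl (n, E)) (hn : n * n = n)
    (hE : E * E = E) (hal : ∀ u v, hw h u = hw h v → ∀ a ∈ u, a ∈ v) :
    (lift 2 S T).Rl (n, E * {o | T.Rl o ∧ T.val o ∈ TB h (S.val n)} * E) := by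
  classical
  obtain ⟨p, hp⟩ := H
  obtain ⟨q, hq⟩ := common (X := {o | T.Rl o ∧ T.val o ∈ TB h (S.val n)}) fun o ho => ho.1
  refine jump hn hE ⟨(q + 1) * (p.comp ((q + 1) * (Polynomial.X + 1)) + 1) * (Polynomial.X + 1) ^ 2,
    fun t => ?_⟩
  obtain ⟨d, l₁, a₁⟩ := hq t
  obtain ⟨r, hr⟩ : ∃ r, r = q.eval t := ⟨_, rfl⟩
  obtain ⟨c, u, l₂, a₂⟩ := hp ((r + 1) * (t + 1))
  obtain ⟨m, hm⟩ : ∃ m, m = (t + 1) ^ 2 := ⟨_, rfl⟩
  have : Nonempty (Fin m) := ⟨⟨0, by rw [hm]; positivity⟩⟩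
  let c₁ : Sp := { V := Option c.V, Ω := c.Ω, ord := none :: c.ord.map some, nd := List.nodup_cons.2 ⟨by simp, c.nd.map (Option.some_injective _)⟩ }
  let pad : (c.V → Option A) → Option c.V → Option A := fun x o => o.bind x
  have a₃ : (lift 2 S T).Φ (n, E) _ c₁ fun ω => pad (u ω) :=
    (lift 2 S T).tr (c' := c₁) (φ := fun _ => pad) (u := fun _ => u) le_rfl Ind.refl
      (fun _ o => ⟨o, fun x y h => by cases o; exacts [rfl, h _ rfl]⟩)
      (fun _ x => by simp [c₁, pad, List.filterMap_map]) fun _ => a₂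
  have a₄ := (lift 2 S T).pi (c := c₁) (t := t) (m := r + 1) (n := fun _ => (n, E))
    (u := fun _ ω => pad (u ω)) (Nat.le_succ _) (by nlinarith) fun _ => a₃
  rw [prod_const (Prod.ext hn hE)] at a₄
  let c₂ : Sp := { V := (Fin (r + 1) × Option c.V) × Fin m, Ω := ((Fin (r + 1) → c.Ω) × d.Ω) × (Fin (r + 1) × Option c.V → Fin m), ord := (c₁.pow (r + 1)).ord ×ˢ List.finRange m, nd := (c₁.pow (r + 1)).nd.product (List.nodup_finRange m) }
  refine ⟨c₂, fun ω => sp ω.2 (uncurry fun i => pad (u (ω.1.1 i))), ?_,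
    (lift 2 S T).tr (c' := c₂) (φ := sp) (u := fun _ => _) le_rfl (Ind.equiv
      (Equiv.prodAssoc _ _ _) Prod.snd) loc_sp (fun π x => filterMap_sp π x _) fun _ => a₄,
    fun o ho => ?_⟩
  · simp only [c₂, c₁, List.length_product, List.length_finRange, List.length_cons,
      List.length_map, Polynomial.eval_mul, Polynomial.eval_add, Polynomial.eval_comp,
      Polynomial.eval_one, Polynomial.eval_X, Polynomial.eval_pow, ← hr, ← hm]
    exact Nat.mul_le_mul_right _ (Nat.mul_le_mul_left _ (Nat.succ_le_succ l₂))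
  obtain ⟨v, hv⟩ := a₁ o ho
  obtain ⟨z, y, y1, y2, y3⟩ := ho.2
  have hpos : ∀ (ω : c.Ω) (b : Option A), ∃ p ∈ c₁.ord, ∀ a ∈ b, a ∈ y → pad (u ω) p = b := by
    intro ω b
    by_cases hb : ∃ a ∈ b, a ∈ y
    · obtain ⟨a, rfl, ha⟩ := hb
      obtain ⟨p, p1, p2⟩ := List.mem_filterMap.1 (hal _ _ (y1.trans (S.img a₂.1 ω).symm) a ha)
      exact ⟨some p, by simp [c₁, p1], fun _ _ _ => p2⟩
    · exact ⟨none, by simp [c₁], fun a h1 h2 => absurd ⟨a, h1, h2⟩ hb⟩
  choose pos p1 p2 using hpos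
  let ex : (d.V → Option A) → Fin (r + 1) → Option A := fun x i => (d.ord[(i : ℕ)]?).bind x
  let emb : (Fin (r + 1) → c.Ω) → (d.V → Option A) → Fin (r + 1) × Option c.V → Option A :=
    fun ω x p => if pos (ω p.1) (ex x p.1) = p.2 then ex x p.1 else none
  refine ⟨fun ω => sp ω.2 (emb ω.1.1 (v ω.1.2)), fun C hC => ?_,
    T.tr (c' := c₂) (φ := fun (π : (Fin (r + 1) → c.Ω) × _) x => sp π.2 (emb π.1 x))
      (u := fun _ => v) le_rfl (Ind.equiv (Ω' := c₂.Ω) (⟨fun ω => (ω.1.2, ω.1.1, ω.2),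
        fun ω => ((ω.2.1, ω.1), ω.2.2), fun _ => rfl, fun _ => rfl⟩ :
          ((Fin (r + 1) → c.Ω) × d.Ω) × _ ≃ d.Ω × (Fin (r + 1) → c.Ω) × _) id) (fun π p => ?_)
      (fun π x => ?_) fun _ => hv⟩
  · refine (Ex_prod _).trans_le (Ex_le fun ω => (weak_sp (x₀ := emb ω.1 (v ω.2))
      (x := uncurry fun i => pad (u (ω.1 i))) (fun p => ?_) hC).trans ?_)
    · simp only [emb]
      split_ifs with h1
      · rcases h2 : ex (v ω.2) p.1 with _ | a
        · exact Or.inl rfl
        · obtain ⟨i, i1, i2⟩ := Option.bind_eq_some_iff.1 h2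
          have h3 := y3 a (hal _ _ ((T.img hv ω.2).trans y2.symm) a
            (List.mem_filterMap.2 ⟨i, List.mem_of_getElem? i1, i2⟩))
          rw [h2] at h1
          exact Or.inr ((p2 _ _ a rfl h3).symm.trans (by rw [h1]; rfl))
      · exact Or.inl rfl
    · rw [hm, div_le_div_iff₀ (by positivity) (by positivity)]
      push_cast
      nlinarith
  · refine ⟨d.ord[(p.1.1 : ℕ)]?, fun x x' hx => ?_⟩
    have : ex x p.1.1 = ex x' p.1.1 := by
      simp only [ex]
      rcases h1 : d.ord[(p.1.1 : ℕ)]? with _ | i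
      exacts [rfl, hx i h1]
    simp only [sp, emb, this]
  · refine (filterMap_sp _ _ _).trans ((filterMap_pos _ c₁.nd (fun i => pos (π.1 i))
      (fun i => p1 _) (ex x)).trans ?_)
    have h1 := filterMap_idx (List.nodup_finRange (r + 1)) d.ord (by simp; omega)
    simp only [List.idxOf_finRange] at h1
    rw [← List.filterMap_filterMap, h1]

end Sys

end Pool.Agent.MP_a2d820_lc.h18

end MrgPart0

-- ======== part 1: formerly Pool.Agent.MP_a2d820_lc.h18.Lab
section MrgPart1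

/-!
Labellings of words whose labels are realized, at the second and third levels.
-/

set_option autoImplicit false

namespace Pool.Agent.MP_a2d820_lc.h18

open Function Pointwise Sys

variable {A M : Type} [Monoid M] {h : A → M} {S T T' : Sys h}

/-- A relation between words and realized labels. -/
structure LS (S : Sys h) where
  Lab : ℕ → List A → S.N → Prop
  real : ∀ {r v o}, Lab r v o → S.Rl o
  val : ∀ {r v o}, Lab r v o → S.val o = hw h v
  anti : ∀ {r v o}, Lab (r + 1) v o → Lab r v o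
  cut : ∀ {r u v o}, Lab (r + 1) (u ++ v) o → ∃ a b, Lab r u a ∧ Lab r v b ∧ S.le o (a * b)
  nil : ∀ {r o}, Lab r [] o → S.le o 1
  single : ∀ {r a o}, Lab r [a] o → ∀ t (c : Sp) u, (∀ ω, c.ord.filterMap (u ω) = [a]) →
    S.Φ o t c u

/-- A lax labelling of all words. -/
structure TS (S : Sys h) where
  σ : ℕ → List A → S.N
  val : ∀ r w, S.val (σ r w) = hw h w
  anti : ∀ r w, S.le (σ (r + 1) w) (σ r w)
  app : ∀ r u v, S.le (σ (r + 1) (u ++ v)) (σ r u * σ r v)
  nil : ∀ r, S.le (σ r []) 1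
  single : ∀ r a t (c : Sp) u, (∀ ω, c.ord.filterMap (u ω) = [a]) → S.Φ (σ r [a]) t c u

/-- The labels of the words above `w` at level `k`. -/
def LS.tgt (L : LS T) (k r : ℕ) (w : List A) : Set T.N :=
  {o | ∃ v, R k (r + 2) w v ∧ L.Lab r v o}

theorem LS.anti' (L : LS T) {r r' : ℕ} {v : List A} {o : T.N} (H : L.Lab r' v o) (hr : r ≤ r') :
    L.Lab r v o := by
  induction hr with
  | refl => exact H
  | step _ ih => exact ih (L.anti H)

/-- The values as labels. -/
def TS.base (h : A → M) [Finite M] : TS (base h) where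
  σ _ := hw h
  val _ _ := rfl
  anti _ _ := rfl
  app _ := hw_append h
  nil _ := rfl
  single _ _ _ _ _ a ω := congrArg (hw h) (a ω)

/-- Extension by the targets at level `k + 2`. -/
def TS.ext (τ : TS S) (k : ℕ) (L : LS T) : TS (lift (k + 2) S T) where
  σ r w := (τ.σ r w, L.tgt (k + 2) r w)
  val := τ.val
  anti r w := ⟨τ.anti r w, fun o ⟨v, a, b⟩ => ⟨o, ⟨v, a.pred, L.anti b⟩, T.le_refl _⟩⟩
  app r u v := ⟨τ.app r u v, fun o ⟨z, a, b⟩ => by
    obtain ⟨z₁, z₂, rfl, a1, a2⟩ := a.cut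
    obtain ⟨x, y, b1, b2, b3⟩ := L.cut b
    exact ⟨_, Set.mul_mem_mul ⟨z₁, a1, b1⟩ ⟨z₂, a2, b2⟩, b3⟩⟩
  nil r := ⟨τ.nil r, fun o ⟨v, a, b⟩ => ⟨1, rfl, L.nil (a.nil ▸ b)⟩⟩
  single r a t c u e := ⟨τ.single r a t c u e, fun o ⟨v, a1, b⟩ =>
    ⟨u, W.refl _ (by positivity), L.single (a1.single ▸ b) t c u e⟩⟩

theorem TS.lax (τ : TS S) : Lax S.le τ.σ S.Rl where
  refl := S.le_refl
  trans := S.le_trans
  mul := S.le_mul
  anti := τ.anti
  app := τ.app
  down a b := b.down a
  gmul := Rl.mul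
  nil := (rl_word [] fun t c u => S.one t c u).down (τ.nil 0)
  single a := rl_word [a] (τ.single 0 a)

theorem TS.lb_nil (τ : TS S) {r : ℕ} {w : List A} {o : S.N} (H : Lb S.le τ.σ S.Rl r w o) :
    w = [] → S.le o 1 := by
  induction H with
  | base ρ v _ => exact fun e => e ▸ τ.nil _
  | mul _ _ a b =>
    intro e
    obtain ⟨e1, e2⟩ := List.append_eq_nil_iff.1 e
    simpa using S.le_mul (a e1) (b e2)
  | down _ a b => exact fun e => S.le_trans a (b e)

/-- Products of labels of pieces all of whose factors are realized. -/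
def TS.lb (τ : TS S) : LS S where
  Lab := Lb S.le τ.σ S.Rl
  real := τ.lax.lb_real
  val H := by
    induction H with
    | base ρ v _ => exact τ.val _ _
    | mul _ _ a b => rw [S.val_mul, a, b, hw_append]
    | down _ a b => exact (S.le_val a).trans b
  anti := τ.lax.lb_anti
  cut H := τ.lax.lb_cut H _ _ rfl
  nil H := τ.lb_nil H rfl
  single {r a o} H t c u e := by
    generalize hw : [a] = w at H
    induction H with
    | base ρ v _ => exact hw ▸ τ.single _ a t c u e
    | @mul x y p q H1 H2 i1 i2 =>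
      rcases List.singleton_eq_append_iff.1 hw with ⟨rfl, rfl⟩ | ⟨rfl, rfl⟩
      · exact S.down (by simpa using S.le_mul (τ.lb_nil H1 rfl) (S.le_refl q)) (i2 rfl)
      · exact S.down (by simpa using S.le_mul (S.le_refl p) (τ.lb_nil H2 rfl)) (i1 rfl)
    | down _ a b => exact S.down a (b hw)

/-- The labels below the label of rank at least `ρ`. -/
def TS.plus (τ : TS S) {ρ : ℕ} (H : ∀ w, S.Rl (τ.σ ρ w)) : LS S where
  Lab r v o := S.le o (τ.σ (ρ + r) v)
  real a := (τ.lax.raise (H _) (Nat.le_add_right _ _)).down a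
  val a := (S.le_val a).trans (τ.val _ _)
  anti a := S.le_trans a (τ.anti _ _)
  cut a := ⟨_, _, S.le_refl _, S.le_refl _, S.le_trans a (τ.app _ _ _)⟩
  nil a := S.le_trans a (τ.nil _)
  single a t c u e := S.down a (τ.single _ _ t c u e)

theorem LS.tgt_two (L : LS T) {r : ℕ} {m : List A} :
    L.tgt 2 r m ⊆ {o | T.Rl o ∧ T.val o ∈ TB h (hw h m)} := fun _ ⟨v, a, b⟩ =>
  ⟨L.real b, v, m, rfl, (L.val b).symm, fun _ => a.mem⟩

theorem le_set {X Y : Set T.N} (H : X ⊆ Y) : ∀ o ∈ X, ∃ o' ∈ Y, T.le o o' :=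
  fun o ho => ⟨o, H ho, T.le_refl _⟩

variable [Finite M] (hal : ∀ u v, hw h u = hw h v → ∀ a ∈ u, a ∈ v)
include hal

theorem level_two (L : LS T) :
    ∃ ρ, ∀ w, (lift 2 (base h) T).Rl (((TS.base h).ext 0 L).σ ρ w) := by
  refine ((TS.base h).ext 0 L).lax.all (r := 0) fun m ε H he => ?_
  obtain ⟨e, E⟩ := ε
  obtain rfl : e = hw h m := ((TS.base h).ext 0 L).lb.val H
  obtain ⟨h1, h2⟩ := Prod.ext_iff.1 he
  exact (jump_two (((TS.base h).ext 0 L).lb.real H) h1 h2 hal).down
    ⟨(congrArg (· * _) h1).trans h1, le_set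
      (Set.mul_subset_mul_right (Set.mul_subset_mul_left L.tgt_two))⟩

omit [Finite M] hal in
/-- The labels stay realized together with their targets at the second level. -/
def LS.Ext (L : LS T) : Prop :=
  ∀ (T' : Sys h) (L' : LS T'), ∃ r, ∀ v o, L.Lab r v o → (lift 2 T T').Rl (o, L'.tgt 2 r v)

theorem level_three {L : LS T} (hL : L.Ext) (L' : LS T') : ∃ ρ, ∀ w,
    (lift 3 (lift 2 (base h) T') T).Rl ((((TS.base h).ext 0 L').ext 1 L).σ ρ w) := by
  let τ := ((TS.base h).ext 0 L').ext 1 L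
  obtain ⟨r, hr⟩ := hL _ τ.lb
  refine τ.lax.all (r := r) fun m ε H he => ?_
  obtain ⟨⟨e, E'⟩, E⟩ := ε
  obtain rfl : e = hw h m := τ.lb.val H
  obtain ⟨h0, h3⟩ := Prod.ext_iff.1 he
  obtain ⟨h1, h2⟩ := Prod.ext_iff.1 h0
  have h4 := τ.lb.real H
  have h5 := jump_up h4 h0 h3
  set X := {o | (lift 2 T (lift 3 (lift 2 (base h) T') T)).Rl (o, {((hw h m, E'), E)})}
  have h6 : E ⊆ X := fun o ho => h4.rev ho
  have h7 : X * X ⊆ X := by
    rintro _ ⟨x, hx, y, hy, rfl⟩
    exact (Rl.mul hx hy).down ⟨T.le_refl _, le_set (by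
      rw [Prod.snd_mul, Set.singleton_mul_singleton, he])⟩
  have h8 : E * X * E * (E * X * E) = E * X * E := by
    replace h3 : E * E = E := h3
    refine subset_antisymm ?_ ?_
    · rw [show E * X * E * (E * X * E) = E * (X * (E * E) * X) * E by simp only [mul_assoc], h3]
      exact Set.mul_subset_mul_right (Set.mul_subset_mul_left
        ((Set.mul_subset_mul_right ((Set.mul_subset_mul_left h6).trans h7)).trans h7))
    · conv_lhs => rw [← h3, ← h3, ← h3]
      simp only [mul_assoc]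
      exact Set.mul_subset_mul_left (Set.mul_subset_mul_right h6) |>.trans (by
        simp only [← mul_assoc, h3]
        exact subset_rfl)
  refine (jump_two h5.swap (Prod.ext h1 h8) h2 hal).swap.down
    ⟨⟨(congrArg (· * _) h1).trans h1, le_set
      (Set.mul_subset_mul_right (Set.mul_subset_mul_left L'.tgt_two))⟩, le_set
      (Set.mul_subset_mul_right (Set.mul_subset_mul_left fun o ⟨v, a, b⟩ => ?_))⟩
  exact (hr v o b).down ⟨T.le_refl _, le_set (Set.singleton_subset_iff.2 ⟨m, a.down, H⟩)⟩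

end Pool.Agent.MP_a2d820_lc.h18

end MrgPart1

-- ======== part 2: formerly Pool.Agent.MP_a2d820_lc.h18.Chain
section MrgPart2

/-!
Chains for the preorders of the levels up to three are realized by random words.
-/

set_option autoImplicit false

namespace Pool.Agent.MP_a2d820_lc.h18

open Function Pointwise Sys

variable {A M : Type} [Monoid M] {h : A → M} {T : Sys h}

/-- A chain of random words with the values of the words `w i`. -/
def IsCh (h : A → M) (t k n : ℕ) (w : ℕ → List A) {V Ω : Type} [Finite Ω] (l : List V)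
    (U : ℕ → Ω → V → Option A) : Prop :=
  (∀ i ≤ n, ∀ ω, hw h (l.filterMap (U i ω)) = hw h (w i)) ∧
    ∀ i < n, W t k (U i) (U (i + 1)) (1 / (t + 1))

/-- Realization of a chain in polynomial length. -/
def ChainRz (h : A → M) (k n : ℕ) (w : ℕ → List A) : Prop :=
  ∃ p : Polynomial ℕ, ∀ t, ∃ (c : Sp) (U : ℕ → c.Ω → c.V → Option A),
    c.ord.length ≤ p.eval t ∧ IsCh h t k n w c.ord U

/-- The labels describe chains of length `n`. -/
def LS.Rep (L : LS T) (k n : ℕ) : Prop :=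
  ∀ r, ∃ q, ∀ w : ℕ → List A, (∀ i < n, R k q (w i) (w (i + 1))) → ∃ o, L.Lab r (w 0) o ∧
    ∀ t c u, T.Φ o t c u → ∃ U, U 0 = u ∧ IsCh h t k n w c.ord U

theorem LS.Rep.rz {L : LS T} {k n : ℕ} (H : L.Rep k n) :
    ∃ q, ∀ w : ℕ → List A, (∀ i < n, R k q (w i) (w (i + 1))) → ChainRz h k n w := by
  obtain ⟨q, hq⟩ := H 0
  refine ⟨q, fun w hw => ?_⟩
  obtain ⟨o, a, b⟩ := hq w hw
  refine (L.real a).imp fun p hp t => ?_
  obtain ⟨c, u, h1, h2⟩ := hp t
  obtain ⟨U, -, h3⟩ := b t c u h2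
  exact ⟨c, U, h1, h3⟩

variable [Finite M]

/-- The values as labels. -/
def LS.base (h : A → M) : LS (base h) :=
  (TS.base h).plus (ρ := 0) fun w => rl_word w fun _ _ _ a ω => congrArg (hw h) (a ω)

theorem rep_zero (k : ℕ) : (LS.base h).Rep k 0 := fun _ => ⟨0, fun w _ => ⟨hw h (w 0), rfl,
  fun _ _ u a => ⟨fun _ => u, rfl, fun i hi ω => by rw [Nat.le_zero.1 hi]; exact a ω, by simp⟩⟩⟩

theorem LS.Rep.succ {L : LS T} {k n ρ : ℕ} (H : L.Rep (k + 2) n)
    (H' : ∀ w, (lift (k + 2) (Sys.base h) T).Rl (((TS.base h).ext k L).σ ρ w)) :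
    (((TS.base h).ext k L).plus H').Rep (k + 2) (n + 1) := by
  intro r
  obtain ⟨q, hq⟩ := H (ρ + r)
  refine ⟨q + (ρ + r + 2), fun w hw' => ?_⟩
  obtain ⟨o, a, b⟩ := hq (fun i => w (i + 1)) fun i hi => (hw' _ (by omega)).mono (by omega)
  refine ⟨(hw h (w 0), {o}), ⟨rfl, le_set (Set.singleton_subset_iff.2
    ⟨w 1, (hw' 0 (by omega)).mono (by omega), a⟩)⟩, fun t c u hu => ?_⟩
  obtain ⟨v, v1, v2⟩ := hu.2 o rfl
  obtain ⟨U, rfl, u1, u2⟩ := b t c v v2
  refine ⟨fun i => Nat.casesOn i u U, rfl, ?_, ?_⟩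
  · rintro (_ | i) hi
    exacts [hu.1, u1 i (by omega)]
  · rintro (_ | i) hi
    exacts [v1, u2 i (by omega)]

section

variable (hal : ∀ u v, hw h u = hw h v → ∀ a ∈ u, a ∈ v)
include hal

theorem rep_two (n : ℕ) : ∃ (T : Sys h) (L : LS T), L.Rep 2 n := by
  induction n with
  | zero => exact ⟨_, _, rep_zero 2⟩
  | succ n ih =>
    obtain ⟨T, L, H⟩ := ih
    obtain ⟨ρ, hρ⟩ := level_two hal L
    exact ⟨_, _, H.succ hρ⟩

theorem rep_three (n : ℕ) : ∃ (T : Sys h) (L : LS T), L.Ext ∧ L.Rep 3 n := by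
  induction n with
  | zero =>
    refine ⟨_, _, fun T' L' => (level_two hal L').imp fun ρ hρ v o ho => ?_, rep_zero 3⟩
    obtain rfl : o = hw h v := ho
    exact hρ v
  | succ n ih =>
    obtain ⟨T, L, H, H'⟩ := ih
    obtain ⟨ρ, hρ⟩ := level_three hal H (LS.base h)
    refine ⟨_, _, fun T' L' => (level_three hal H L').imp fun ρ' hρ' v o ho => ?_,
      H'.succ (ρ := ρ) fun w => (hρ w).swap.fst⟩
    exact (hρ' v).swap.down ⟨(lift 3 (base h) T).le_trans ho
      (((TS.base h).ext 1 L).lax.anti' (Nat.le_add_left _ _) v), le_set subset_rfl⟩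

end

omit [Finite M]

theorem chainRz_sp {k n : ℕ} {w : ℕ → List A} {V : Type} [Finite V] {l : List V} (hl : l.Nodup)
    {X : ℕ → V → Option A} (hX : ∀ i ≤ n, l.filterMap (X i) = w i)
    (hW : ∀ i < n, ∀ (t m : ℕ) [Nonempty (Fin m)], W t k (fun π : V → Fin m => sp π (X i))
      (fun π => sp π (X (i + 1))) (t / m + t / m)) : ChainRz h k n w := by
  refine ⟨(l.length : Polynomial ℕ) * (2 * (Polynomial.X + 1) ^ 2), fun t => ?_⟩
  obtain ⟨m, hm⟩ : ∃ m, m = 2 * (t + 1) ^ 2 := ⟨_, rfl⟩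
  have : Nonempty (Fin m) := ⟨⟨0, by rw [hm]; positivity⟩⟩
  refine ⟨{ V := V × Fin m, Ω := V → Fin m, ord := l ×ˢ List.finRange m, nd := hl.product (List.nodup_finRange m) }, fun i π => sp π (X i), by simp [List.length_product, hm],
    fun i hi π => by rw [filterMap_sp, hX i hi], fun i hi => (hW i hi t m).mono le_rfl ?_⟩
  rw [← add_div, hm, div_le_div_iff₀ (by positivity) (by positivity)]
  push_cast
  nlinarith

theorem filterMap_get (w : List A) :
    (List.finRange w.length).filterMap (fun i => some (w.get i)) = w := by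
  rw [show (fun i => some (w.get i)) = some ∘ w.get from rfl, List.filterMap_eq_map,
    List.map_get_finRange]

theorem chain_zero (n : ℕ) (w : ℕ → List A) : ChainRz h 0 n w := by
  choose! X x1 x2 using fun i (hi : i ≤ n) => exists_mask
    (List.nodup_finRange ((List.range (n + 1)).map w).flatten.length) _ (z := w i)
    ((List.sublist_flatten_of_mem (List.mem_map_of_mem (List.mem_range.2
      (Nat.lt_succ_of_le hi)))).trans (by rw [filterMap_get]))
  refine chainRz_sp (List.nodup_finRange _) x2 fun i _ t m _ => W.trans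
    (v := fun π => sp π fun _ => none) (W.rev fun C hC => weak_sp (by simp) hC)
    fun C hC => weak_sp (by simp) hC.up

theorem chain_one (n : ℕ) (w : ℕ → List A) (hw' : ∀ i < n, (w i).Sublist (w (i + 1))) :
    ChainRz h 1 n w := by
  have key : ∀ {V : Type} {l : List V}, l.Nodup → ∀ m ≤ n, ∀ x : V → Option A,
      l.filterMap x = w m → ∃ X : ℕ → V → Option A, X m = x ∧ (∀ i ≤ m, l.filterMap (X i) = w i) ∧
        ∀ i < m, ∀ v, X i v = none ∨ X i v = X (i + 1) v := by
    intro V l hl m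
    induction m with
    | zero => exact fun _ x e => ⟨fun _ => x, rfl, by simpa, by simp⟩
    | succ m ih =>
      intro hm x e
      obtain ⟨y, y1, y2⟩ := exists_mask hl x (e ▸ hw' m hm)
      obtain ⟨X, rfl, x1, x2⟩ := ih (by omega) y y2
      refine ⟨update X (m + 1) x, by simp, fun i hi => ?_, fun i hi => ?_⟩
      · rcases hi.lt_or_eq with hi | rfl
        · rw [update_of_ne hi.ne, x1 i (by omega)]
        · rwa [update_self]
      · rw [update_of_ne hi.ne]
        rcases (Nat.le_of_lt_succ hi).lt_or_eq with hi | rfl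
        · rw [update_of_ne (by omega)]
          exact x2 i hi
        · rwa [update_self]
  obtain ⟨X, -, x1, x2⟩ := key (List.nodup_finRange _) n le_rfl _ (filterMap_get (w n))
  exact chainRz_sp (List.nodup_finRange _) x1 fun i hi t m _ C hC =>
    (weak_sp (x2 i hi) hC).trans (le_add_of_nonneg_left (by positivity))

theorem R.sublist {m u v : List A} (H : R 1 m.length u v) (hm : m.Sublist u) : m.Sublist v := by
  induction m generalizing u v with
  | nil => exact List.nil_sublist _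
  | cons a m ih =>
    obtain ⟨u₀, u₁, rfl, h1, h2⟩ := List.cons_sublist_iff.1 hm
    obtain ⟨s, s', rfl⟩ := List.append_of_mem h1
    obtain ⟨v₀, v₁, rfl, -, h3⟩ := (R_succ.1 H).2 s a (s' ++ u₁) (by simp)
    exact ((ih h3 (h2.trans (List.sublist_append_right _ _))).cons_cons a).trans
      (List.sublist_append_right _ _)

theorem sigma_one [Finite A] {K : Language A} (hK : ∀ u ∈ K, ∀ v, u.Sublist v → v ∈ K) :
    SigmaDef 1 K := by
  have h1 := Set.PartiallyWellOrderedOn.partiallyWellOrderedOn_sublistForall₂ (· = ·)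
    (Set.finite_univ (α := A)).partiallyWellOrderedOn
  have h2 : {m | m ∈ K ∧ ∀ m' ∈ K, m'.Sublist m → m' = m}.Finite :=
    IsAntichain.finite_of_partiallyWellOrderedOn (r := List.SublistForall₂ (· = ·))
      (fun a ha b hb hab hr => by
        obtain ⟨l, l1, l2⟩ := List.sublistForall₂_iff.1 hr
        rw [List.forall₂_eq_eq_eq] at l1
        exact hab (hb.2 a ha.1 (l1 ▸ l2))) (h1.mono fun _ _ _ _ => trivial)
  obtain ⟨q, hq⟩ := (h2.image List.length).bddAbove
  refine sigmaDef_of_upper (q := q) fun u hu v hR => ?_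
  obtain ⟨m, ⟨m1, m2⟩, m3⟩ := exists_minimalFor_of_wellFoundedLT
    (fun m => m ∈ K ∧ m.Sublist u) List.length ⟨u, hu, List.Sublist.refl u⟩
  exact hK m m1 v ((hR.mono (hq ⟨m, ⟨m1, fun m' a b =>
    b.eq_of_length_le (m3 ⟨a, b.trans m2⟩ b.length_le)⟩, rfl⟩)).sublist m2)

theorem exists_pre [Finite A] [Finite M] (hal : ∀ u v, hw h u = hw h v → ∀ a ∈ u, a ∈ v) {k : ℕ}
    (hk : k ≤ 3) (n : ℕ) : ∃ P : List A → List A → Prop, (∀ u, P u u) ∧
      (∀ u v w, P u v → P v w → P u w) ∧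
      (∀ K : Language A, (∀ u ∈ K, ∀ v, P u v → v ∈ K) → SigmaDef k K) ∧
      ∀ w : ℕ → List A, (∀ i < n, P (w i) (w (i + 1))) → ChainRz h k n w := by
  have key : ∀ k q, (∀ w : ℕ → List A, (∀ i < n, R k q (w i) (w (i + 1))) → ChainRz h k n w) →
      ∃ P : List A → List A → Prop, (∀ u, P u u) ∧ (∀ u v w, P u v → P v w → P u w) ∧
      (∀ K : Language A, (∀ u ∈ K, ∀ v, P u v → v ∈ K) → SigmaDef k K) ∧
      ∀ w : ℕ → List A, (∀ i < n, P (w i) (w (i + 1))) → ChainRz h k n w := fun k q H =>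
    ⟨R k q, R.refl k q, fun _ _ _ => R.trans, fun _ => sigmaDef_of_upper, H⟩
  interval_cases k
  · exact key 0 0 fun w _ => chain_zero n w
  · exact ⟨List.Sublist, List.Sublist.refl, fun _ _ _ => List.Sublist.trans, fun _ => sigma_one,
      chain_one n⟩
  · obtain ⟨T, L, H⟩ := rep_two hal n
    exact H.rz.elim (key 2)
  · obtain ⟨T, L, -, H⟩ := rep_three hal n
    exact H.rz.elim (key 3)

end Pool.Agent.MP_a2d820_lc.h18

end MrgPart2

-- ======== part 3: formerly Pool.Agent.MP_a2d820_lc.h18.Full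
section MrgPart3

/-!
The correspondence for the levels up to four and for the Boolean closures of the levels up to three.
-/

set_option autoImplicit false

namespace Pool.Agent.MP_a2d820_lc.h18

open Finset Function Pointwise Sys h69 Pool.Agent.PolyT N487b59b3 BooleanSubalgebra

variable {A M : Type} [Monoid M] {h : A → M} {L : Language A}

theorem ChainRz.emb {k n : ℕ} {w : ℕ → List A} (H : ChainRz h k n w) : ∃ p : Polynomial ℕ,
    ∀ (t : ℕ) (V : Type) (l : List V), l.Nodup → p.eval t ≤ l.length → ∃ (Ω : Type) (_ : Finite Ω)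
      (_ : Nonempty Ω) (U : ℕ → Ω → V → Option A), IsCh h t k n w l U := by
  classical
  refine H.imp fun p hp t V l hl hlen => ?_
  obtain ⟨c, U, l₁, u1, u2⟩ := hp t
  let φ : (c.V → Option A) → V → Option A := fun z v => (c.ord[l.idxOf v]?).bind z
  refine ⟨c.Ω, inferInstance, inferInstance, fun i ω => φ (U i ω), fun i hi ω => ?_, fun i hi =>
    W.tr (φ := fun _ => φ) Ind.refl (fun _ v => ⟨c.ord[l.idxOf v]?, fun x y e => ?_⟩)
      fun _ => u2 i hi⟩
  · rw [← List.filterMap_filterMap, filterMap_idx hl _ (l₁.trans hlen), u1 i hi]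
  · simp only [φ]
    rcases h1 : c.ord[l.idxOf v]? with _ | i
    exacts [rfl, e i h1]

/-- No Boolean combination of circuits of level `k` recognizes `L` on long words with blanks. -/
def HardB (k : ℕ) (L : Language A) : Prop :=
  ∀ m, ∃ p : Polynomial ℕ, ∀ (t : ℕ) (V : Type) (l : List V), l.Nodup → p.eval t ≤ l.length →
    ∀ C : Fin m → (V → Option A) → Prop, (∀ j, Sig t k (C j)) →
      ∀ F : (Fin m → Prop) → Prop, ∃ z, ¬(F (fun j => C j z) ↔ l.filterMap z ∈ L)

theorem IsCh.exists {t t' k n m : ℕ} {w : ℕ → List A} {V Ω : Type} [Finite Ω] [Nonempty Ω]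
    {l : List V} {U : ℕ → Ω → V → Option A} (H : IsCh h t' k n w l U) (ht : t + n * m ≤ t')
    {C : Fin m → (V → Option A) → Prop} (hC : ∀ j, Sig t k (C j)) :
    ∃ ω, ∀ i < n, ∀ j, C j (U i ω) → C j (U (i + 1) ω) := by
  by_contra hc
  push Not at hc
  have h1 : (Ex fun _ : Ω => ind True) ≤ _ := (Ex_mono fun ω => ind_le_sum
    (s := range n ×ˢ univ) (Q := fun p => C p.2 (U p.1 ω) ∧ ¬C p.2 (U (p.1 + 1) ω)) fun _ =>
      let ⟨i, a, j, b⟩ := hc ω; ⟨(i, j), by simpa, b⟩).trans ((Ex_sum _ _).trans_le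
    (sum_le_card_nsmul _ _ _ fun p hp => H.2 p.1 (by simpa using hp) _ ((hC p.2).mono (by omega))))
  rw [Ex_const, ind_of trivial, nsmul_eq_mul, mul_one_div, one_le_div (by positivity)] at h1
  simp only [card_product, card_range, card_univ, Fintype.card_fin] at h1
  have : t' + 1 ≤ n * m := by exact_mod_cast h1
  omega

section

variable (hL : ∀ u v, hw h u = hw h v → u ∈ L → v ∈ L)
include hL

theorem hard_of_chain {k : ℕ} {w : ℕ → List A} (H : ChainRz h k 1 w) (h0 : w 0 ∈ L)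
    (h1 : w 1 ∉ L) : Hard k L := by
  obtain ⟨p, hp⟩ := H.emb
  refine ⟨p.comp (Polynomial.X + 1), fun t V l hl hlen C hC => ?_⟩
  obtain ⟨Ω, _, _, U, hU⟩ := hp (t + 1) V l hl (by simpa using hlen)
  obtain ⟨ω, hω⟩ := hU.exists (m := 1) le_rfl (C := fun _ => C) fun _ => hC
  by_contra hc
  push Not at hc
  exact h1 (hL _ _ (hU.1 1 le_rfl ω)
    ((hc _).1 (hω 0 one_pos 0 ((hc _).2 (hL _ _ (hU.1 0 zero_le_one ω).symm h0)))))

theorem hardB_of_chain {k : ℕ} (H : ∀ n, ∃ w : ℕ → List A, ChainRz h k n w ∧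
    ∀ i ≤ n, (w i ∈ L ↔ Even i)) : HardB k L := by
  classical
  intro m
  obtain ⟨w, H, hw'⟩ := H (m + 1)
  obtain ⟨p, hp⟩ := H.emb
  refine ⟨p.comp (Polynomial.X + (((m + 1) * m : ℕ) : Polynomial ℕ)), fun t V l hl hlen C hC F => ?_⟩
  obtain ⟨Ω, _, _, U, hU⟩ := hp (t + (m + 1) * m) V l hl (by simpa using hlen)
  obtain ⟨ω, hω⟩ := hU.exists le_rfl hC
  by_contra hc
  push Not at hc
  have h1 : ∀ i ≤ m + 1, (F (fun j => C j (U i ω)) ↔ Even i) := fun i hi => (hc _).trans
    (Iff.trans ⟨hL _ _ (hU.1 i hi ω), hL _ _ (hU.1 i hi ω).symm⟩ (hw' i hi))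
  have h2 : ∀ i ≤ m + 1, i ≤ #{j | C j (U i ω)} := by
    intro i hi
    induction i with
    | zero => simp
    | succ i ih =>
      refine (ih (by omega)).trans_lt (card_lt_card (Finset.ssubset_iff_subset_ne.2
        ⟨fun j => by simpa using hω i hi j, fun e => ?_⟩))
      have h3 : (fun j => C j (U i ω)) = fun j => C j (U (i + 1) ω) :=
        funext fun j => by simpa using Finset.ext_iff.1 e j
      have h4 := h1 i (by omega)
      rw [h3, h1 _ hi, Nat.even_add_one] at h4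
      tauto
  exact absurd ((h2 _ le_rfl).trans (card_le_univ _)) (by simp)

end

theorem rl_pair [Finite M] (k : ℕ) (x : List A) :
    (lift k (base h) (base h)).Rl (hw h x, {hw h x}) :=
  rl_word x fun _ _ u a => ⟨fun ω => congrArg (hw h) (a ω), by
    rintro _ rfl
    exact ⟨u, W.refl _ (by positivity), fun ω => congrArg (hw h) (a ω)⟩⟩

theorem hard_le_four [Finite A] (hL : L.IsRegular) {k : ℕ} (hk : k ≤ 4) (hn : ¬SigmaDef k L) :
    Hard k L := by
  obtain ⟨M, _, _, h, h1, h2⟩ := exists_monoid hL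
  rcases hk.lt_or_eq with hk | rfl
  · obtain ⟨P, -, -, p1, p2⟩ := exists_pre h2 (Nat.le_of_lt_succ hk) 1
    have h3 := mt (p1 L) hn
    push Not at h3
    obtain ⟨u, hu, v, a, hv⟩ := h3
    exact hard_of_chain h1 (p2 (fun i => Nat.casesOn i u fun _ => v) (by simpa)) hu hv
  obtain ⟨T, L', -, H⟩ := rep_three h2 1
  obtain ⟨q, hq⟩ := H.rz
  have h3 := mt (transfer (k := 2) (q₀ := q) h1) hn
  simp only [SynLE, not_forall] at h3
  obtain ⟨u, v, hR, he, x, y, h4, h5⟩ := h3
  obtain ⟨p, hp⟩ := hq (fun i => Nat.casesOn i u fun _ => v) (by simpa)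
  have h6 := Sys.jump (S := base h) (T := base h) (k := 3) (E := {hw h v}) (X := {hw h u}) he
    (by rw [Set.singleton_mul_singleton, he]) ⟨p, fun t => by
      obtain ⟨c, U, l, u1, u2⟩ := hp t
      refine ⟨c, U 1, l, ⟨u1 1 le_rfl, ?_⟩, ?_⟩ <;> rintro _ rfl
      exacts [⟨_, W.refl _ (by positivity), u1 1 le_rfl⟩, ⟨_, u2 0 one_pos, u1 0 zero_le_one⟩]⟩
  obtain ⟨p', hp'⟩ := ((rl_pair 4 x).mul h6).mul (rl_pair 4 y)
  refine hard_of_chain h1 (w := fun i => Nat.casesOn i (x ++ v ++ y)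
    fun _ => x ++ (v ++ u ++ v) ++ y) ⟨p', fun t => ?_⟩ h4 h5
  obtain ⟨c, a, l, a1, a2⟩ := hp' t
  obtain ⟨b, b1, b2⟩ := a2 (hw h (x ++ (v ++ u ++ v) ++ y)) (by simp [mul_assoc])
  refine ⟨c, fun i => Nat.casesOn i a fun _ => b, l, ?_, by simpa using b1⟩
  rintro (_ | i) - ω
  exacts [(a1 ω).trans (by simp [mul_assoc]), b2 ω]

theorem hardB_le_three [Finite A] (hL : L.IsRegular) {k : ℕ} (hk : k ≤ 3)
    (hn : L ∉ BooleanSubalgebra.closure {K | SigmaDef k K}) : HardB k L := by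
  obtain ⟨M, _, _, h, h1, h2⟩ := exists_monoid hL
  refine hardB_of_chain h1 fun n => ?_
  obtain ⟨P, p0, p1, p2, p3⟩ := exists_pre h2 hk n
  let U : ℕ → Language A := fun j => {v | ∃ w : ℕ → List A, (∀ i < j, P (w i) (w (i + 1))) ∧
    (∀ i ≤ j, (w i ∈ L ↔ Even i)) ∧ P (w j) v}
  have hU : ∀ j, U j ∈ BooleanSubalgebra.closure {K | SigmaDef k K} := fun j => subset_closure
    (p2 _ fun u ⟨w, a, b, c⟩ v d => ⟨w, a, b, p1 _ _ _ c d⟩)
  have key : ∀ j, L ⊓ U j ∉ BooleanSubalgebra.closure {K | SigmaDef k K} := by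
    intro j
    induction j with
    | zero =>
      rwa [inf_eq_left.2 (show L ≤ U 0 from fun v hv => ⟨fun _ => v, by simp, by simpa, p0 v⟩)]
    | succ j ih =>
      have a : ∀ v ∈ U (j + 1), v ∈ U j := fun v ⟨w, a, b, c⟩ => ⟨w, fun i hi => a i (by omega),
        fun i hi => b i (by omega), p1 _ _ _ (a j (by omega)) c⟩
      have b : ∀ v ∈ U j, v ∉ U (j + 1) → (v ∈ L ↔ Even j) := by
        rintro v ⟨w, a, b, c⟩ hv
        by_contra d
        refine hv ⟨update w (j + 1) v, fun i hi => ?_, fun i hi => ?_, by simpa using p0 v⟩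
        · rw [update_of_ne hi.ne]
          rcases (Nat.le_of_lt_succ hi).lt_or_eq with hi | rfl
          · rw [update_of_ne (by omega)]
            exact a i hi
          · rwa [update_self]
        · rcases hi.lt_or_eq with hi | rfl
          · rw [update_of_ne hi.ne]
            exact b i (by omega)
          · rw [update_self, Nat.even_add_one]
            tauto
      refine fun hc => ih ?_
      by_cases he : Even j
      · convert sup_mem hc (sdiff_mem (hU j) (hU (j + 1))) using 1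
        refine Language.ext fun v => ?_
        have := a v
        have := b v
        change v ∈ L ∧ v ∈ U j ↔ v ∈ L ∧ v ∈ U (j + 1) ∨ v ∈ U j ∧ v ∉ U (j + 1)
        tauto
      · convert hc using 1
        refine Language.ext fun v => ?_
        have := a v
        have := b v
        change v ∈ L ∧ v ∈ U j ↔ v ∈ L ∧ v ∈ U (j + 1)
        tauto
  by_contra hc
  refine key n ?_
  convert bot_mem (L := BooleanSubalgebra.closure {K : Language A | SigmaDef k K})
  exact eq_bot_iff.2 fun v ⟨_, w, a, b, _⟩ => hc ⟨w, p3 w a, b⟩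

theorem exists_oracle' [Finite A] [DecidableEq A] {ι : Type} [Countable ι] [Nonempty ι]
    (E : ι → Lang → Lang) (hb : ∀ b, ∃ B : Polynomial ℕ, ∀ O O' x,
      (∀ v, v.length ≤ B.eval x.length → O v = O' v) → E b O x = E b O' x)
    (hh : ∀ b, ∀ᶠ n in Filter.atTop, ∀ x : List Bool, x.length = n →
      ∀ φ : (List Bool → Option A) → Lang, Loc φ →
        ∃ u, ¬(E b (φ u) x = true ↔ (paths n).filterMap u ∈ L)) :
    ∃ O, ∃ K ∈ Leaf L O, ∀ b, E b O ≠ K := by
  classical
  obtain ⟨n₀, ⟨cd⟩⟩ := Finite.exists_equiv_fin (Option A)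
  let O : (List Bool → Option A) → Lang := fun f w =>
    decide ((cd (f ((sel false w).take w.length)) : ℕ) = (sel true w).length)
  let K : (List Bool → Option A) → Lang := fun f x =>
    decide ((paths x.length).filterMap (fun y => f (delimit x ++ y)) ∈ L)
  have step : ∀ (b : ι) (a : (List Bool → Option A) × ℕ), ∃ a' : (List Bool → Option A) × ℕ,
      a.2 < a'.2 ∧ (∀ z, z.length < a.2 → a.1 z = a'.1 z) ∧ ∀ f,
        (∀ z, z.length < a'.2 → a'.1 z = f z) → ∃ x, E b (O f) x ≠ K f x := by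
    rintro b ⟨f, m⟩
    obtain ⟨B', hB'⟩ := hb b
    obtain ⟨n, e1, e2⟩ := ((hh b).and (Filter.eventually_ge_atTop m)).exists
    set x := List.replicate n false with hx
    have hxn : x.length = n := by simp [hx]
    let F : (List Bool → Option A) → List Bool → Option A := fun u z =>
      if delimit x <+: z then u (z.drop (delimit x).length) else f z
    obtain ⟨u, hu⟩ := e1 x hxn (fun u => O (F u))
        fun w => ⟨some (((sel false w).take w.length).drop (delimit x).length), fun u u' h => by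
          simp only [O, F, h _ rfl]⟩
    refine ⟨(F u, B'.eval n + 3 * n + 2), by simp; omega, fun z hz => (if_neg fun h => ?_).symm,
      fun f' hf' => ⟨x, fun h => hu ?_⟩⟩
    · have := h.length_le
      rw [length_delimit] at this
      simp only at hz
      omega
    · rw [hB' (O (F u)) (O f') x fun v hv => by
        simp only [O]
        rw [← hf' _ (by simp [hxn] at hv ⊢; omega)], h]
      simp only [K, decide_eq_true_eq, hxn]
      rw [List.filterMap_congr fun y hy => ?_]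
      rw [← hf' _ (by simp [length_delimit, mem_paths.1 hy]; omega)]
      simp [F]
  obtain ⟨τ, hτ⟩ := exists_surjective_nat ι
  choose G g1 g2 g3 using step
  let a : ℕ → (List Bool → Option A) × ℕ := fun i =>
    Nat.rec (fun _ => none, 0) (fun i => G (τ i)) i
  have hmono : StrictMono fun i => (a i).2 := strictMono_nat_of_lt_succ fun i => g1 _ (a i)
  have hag : ∀ i j, i ≤ j → ∀ z, z.length < (a i).2 → (a i).1 z = (a j).1 z := by
    intro i j hij z hz
    induction j, hij using Nat.le_induction with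
    | base => rfl
    | succ j hij ih => exact ih.trans (g2 _ (a j) z (hz.trans_le (hmono.monotone hij)))
  let f : List Bool → Option A := fun z => (a (z.length + 1)).1 z
  have hlim : ∀ i z, z.length < (a i).2 → (a i).1 z = f z := fun i z hz => by
    rcases le_total i (z.length + 1) with h | h
    · exact hag _ _ h z hz
    · exact (hag _ _ h z (hmono.le_apply (x := z.length + 1))).symm
  refine ⟨O f, K f, ⟨Polynomial.X, f, fun c => ?_, fun x => by simp [K]⟩, fun b e => ?_⟩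
  · convert one_query (Q := fun z => delimit (List.replicate (cd c) false) ++ z) (by fun_prop)
      false (O f) using 2 with z
    simp only [O, sel_pair, Bool.false_xor, Bool.false_eq_true, if_false, if_true,
      List.length_replicate, decide_eq_decide]
    rw [List.take_of_length_le (by simp), Fin.val_inj, cd.apply_eq_iff_eq]
  · obtain ⟨i, rfl⟩ := hτ b
    obtain ⟨x, hx⟩ := g3 (τ i) (a i) f (hlim (i + 1))
    exact hx (congrFun e x)

/-- Descriptions of languages of level `k`. -/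
abbrev Tw (k : ℕ) : Type :=
  {b : (OM × Polynomial ℕ) × List (OM × Polynomial ℕ × Polynomial ℕ) // b.2.length = k}

theorem exists_comb {O K : Lang} {k : ℕ} (hK : K ∈ BooleanSubalgebra.closure (RelSigma O k)) :
    ∃ (m : ℕ) (T : Fin m → Tw k) (F : (Fin m → Bool) → Bool),
      (fun x => F fun j => ev (T j).1.1 (T j).1.2 O x) = K := by
  induction hK using closure_bot_sup_induction with
  | mem K hK =>
    obtain ⟨b, l, hl, rfl⟩ := exists_ev' hK
    exact ⟨1, fun _ => ⟨(b, l), hl⟩, fun g => g 0, rfl⟩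
  | bot => exact ⟨0, Fin.elim0, fun _ => false, rfl⟩
  | sup _ _ _ _ a b =>
    obtain ⟨m, T, F, rfl⟩ := a
    obtain ⟨m', T', F', rfl⟩ := b
    exact ⟨m + m', Fin.append T T', fun g => F (fun i => g (Fin.castAdd _ i)) ||
      F' fun i => g (Fin.natAdd _ i), funext fun x => by simp⟩
  | compl _ _ a =>
    obtain ⟨m, T, F, rfl⟩ := a
    exact ⟨m, T, fun g => !F g, rfl⟩

theorem HardB.oracle [Finite A] [DecidableEq A] {k : ℕ} (H : HardB k L) :
    ∃ O, ¬Leaf L O ⊆ BooleanSubalgebra.closure (RelSigma O k) := by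
  classical
  have : Nonempty (Σ m, (Fin m → Tw k) × ((Fin m → Bool) → Bool)) :=
    ⟨⟨0, Fin.elim0, fun _ => false⟩⟩
  obtain ⟨O, K, h1, h2⟩ := exists_oracle' (L := L)
    (ι := Σ m, (Fin m → Tw k) × ((Fin m → Bool) → Bool))
    (fun b O x => b.2.2 fun j => ev (b.2.1 j).1.1 (b.2.1 j).1.2 O x)
    (fun ⟨m, T, F⟩ => by
      choose B hB _ using fun j => ev_bound (T j).1.1 (T j).1.2
      refine ⟨∑ j, B j, fun O O' x e => congrArg F (funext fun j =>
        hB j O O' x _ le_rfl fun v hv => e v (hv.trans ?_))⟩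
      rw [Polynomial.eval_finsetSum]
      exact single_le_sum (f := fun j => (B j).eval x.length) (by simp) (mem_univ j))
    fun ⟨m, T, F⟩ => by
      choose B hB using fun j => ev_sig (T j).1.1 (T j).1.2
      obtain ⟨p, hp⟩ := H m
      refine (poly_le_two_pow (p.comp (∑ j, B j)) 1 one_pos).mono fun n hn x hx φ hφ => ?_
      simpa using hp ((∑ j, B j).eval n) _ (paths n) (nodup_paths n)
        (by simpa only [length_paths, Polynomial.eval_comp, Nat.div_one] using hn)
        (fun j u => ev (T j).1.1 (T j).1.2 (φ u) x = true) (fun j =>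
          (((T j).2 ▸ hB j x n hx.le).comp hφ).mono (by
            rw [Polynomial.eval_finsetSum]
            exact single_le_sum (f := fun j => (B j).eval n) (by simp) (mem_univ j)))
        fun P => F (fun j => decide (P j)) = true
  refine ⟨O, fun hs => ?_⟩
  obtain ⟨m, T, F, e⟩ := exists_comb (hs h1)
  exact h2 ⟨m, T, F⟩ e

theorem leaf_closure [DecidableEq A] {k : ℕ} (hL : L ∈ BooleanSubalgebra.closure {K | SigmaDef k K})
    (O : Lang) : Leaf L O ⊆ BooleanSubalgebra.closure (RelSigma O k) := by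
  classical
  induction hL using closure_bot_sup_induction with
  | mem K hK => exact (leaf_subset hK O).trans subset_closure
  | bot =>
    rintro K ⟨p, f, -, hK⟩
    rw [show K = ⊥ from funext fun x => Bool.eq_false_iff.2 (hK x).1]
    exact bot_mem
  | sup L _ L' _ a b =>
    rintro K ⟨p, f, hf, hK⟩
    refine Set.mem_of_eq_of_mem (funext fun x => ?_) (sup_mem
      (a ⟨p, f, hf, fun x => decide_eq_true_iff⟩) (b ⟨p, f, hf, fun x => decide_eq_true_iff⟩))
    rw [Bool.eq_iff_iff, hK]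
    simp
    rfl
  | compl L _ a =>
    rintro K ⟨p, f, hf, hK⟩
    refine Set.mem_of_eq_of_mem (funext fun x => ?_)
      (compl_mem (a ⟨p, f, hf, fun x => decide_eq_true_iff⟩))
    rw [Bool.eq_iff_iff, hK]
    simp
    rfl

end Pool.Agent.MP_a2d820_lc.h18

end MrgPart3

-- marker of a merged file
example : 731051 + 331613 = 731051 + 331613 := rfl
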