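import Pool.Agent.MP_a2d820_lc.h69.Defs

/-!
First-order logic on words with its alternation hierarchy, and leaf-language classes.
-/

set_option autoImplicit false

namespace Pool.Agent.MP_a2d820_lc.h18

open Pool.Agent.MP_a2d820_lc.h69

/-- First-order formulas on words over `A` with `n` free position variables, using the order of
positions and the letter predicates. -/
inductive FO (A : Type) : ℕ → Type
  | tru {n : ℕ} : FO A n
  | letter {n : ℕ} (a : A) (x : Fin n) : FO A n
  | lt {n : ℕ} (x y : Fin n) : FO A n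
  | not {n : ℕ} (φ : FO A n) : FO A n
  | and {n : ℕ} (φ ψ : FO A n) : FO A n
  | or {n : ℕ} (φ ψ : FO A n) : FO A n
  | ex {n : ℕ} (φ : FO A (n + 1)) : FO A n

/-- Truth of a formula in the word `w` under an assignment of positions of `w`. -/
def FO.Sat {A : Type} (w : List A) : {n : ℕ} → FO A n → (Fin n → Fin w.length) → Prop
  | _, .tru, _ => True
  | _, .letter a x, ρ => w.get (ρ x) = a
  | _, .lt x y, ρ => ρ x < ρ y
  | _, .not φ, ρ => ¬φ.Sat w ρ
  | _, .and φ ψ, ρ => φ.Sat w ρ ∧ ψ.Sat w ρ
  | _, .or φ ψ, ρ => φ.Sat w ρ ∨ ψ.Sat w ρ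
  | _, .ex φ, ρ => ∃ i, φ.Sat w (Fin.cons i ρ)

/-- The alternation levels: level `0` is quantifier-free, and level `k + 1` is the closure of
level `k` and its negations under conjunction, disjunction and existential quantification. -/
inductive FO.IsSigma {A : Type} : ℕ → {n : ℕ} → FO A n → Prop
  | tru {n : ℕ} : IsSigma 0 (.tru : FO A n)
  | letter {n : ℕ} (a : A) (x : Fin n) : IsSigma 0 (.letter a x)
  | lt {n : ℕ} (x y : Fin n) : IsSigma 0 (.lt x y : FO A n)
  | not {n : ℕ} {φ : FO A n} : IsSigma 0 φ → IsSigma 0 (.not φ)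
  | up {k n : ℕ} {φ : FO A n} : IsSigma k φ → IsSigma (k + 1) φ
  | neg {k n : ℕ} {φ : FO A n} : IsSigma k φ → IsSigma (k + 1) (.not φ)
  | and {k n : ℕ} {φ ψ : FO A n} : IsSigma k φ → IsSigma k ψ → IsSigma k (.and φ ψ)
  | or {k n : ℕ} {φ ψ : FO A n} : IsSigma k φ → IsSigma k ψ → IsSigma k (.or φ ψ)
  | ex {k n : ℕ} {φ : FO A (n + 1)} : IsSigma (k + 1) φ → IsSigma (k + 1) (.ex φ)

/-- The language is defined by a sentence of level `k`. -/
def SigmaDef {A : Type} (k : ℕ) (L : Language A) : Prop :=
  ∃ φ : FO A 0, φ.IsSigma k ∧ ∀ w, w ∈ L ↔ φ.Sat w Fin.elim0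

/-- The binary strings of length `n` in lexicographic order. -/
def paths : ℕ → List (List Bool)
  | 0 => [[]]
  | n + 1 => (paths n).map (false :: ·) ++ (paths n).map (true :: ·)

/-- The leaf-language class of `L` relative to `O`, leaves being allowed to print nothing: every
path `y` of polynomial length prints a letter or nothing, computed in polynomial time relative to
`O` from the input and `y`, and the input is accepted if the printed word lies in `L`. -/
def Leaf {A : Type} [DecidableEq A] (L : Language A) (O : List Bool → Bool) :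
    Set (List Bool → Bool) :=
  {K | ∃ (p : Polynomial ℕ) (f : List Bool → Option A),
    (∀ a, (fun z => decide (f z = a)) ∈ RelP O) ∧ ∀ x, K x = true ↔
      (paths (p.eval x.length)).filterMap (fun y => f (N487b59b3.delimit x ++ y)) ∈ L}

end Pool.Agent.MP_a2d820_lc.h18
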